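import Pool.Agent.Y330.F.A2

set_option autoImplicit false

open Filter Topology Set Metric

namespace Pool.Agent.Y330.F

open Pool.Agent.H789R2.AN Pool.Agent.Y330.G

variable {X : Type*} [MetricSpace X]

/-- A closed set crossing the plane along the line `s = 1` and disjoint from the region
`0 ≤ s < 1`. -/
structure KD (a : X ≃ₜ X) (ψ : ℝ → ℝ → X) (K : Set X) : Prop where
  sat : ∀ x ∈ K, ∀ y, WS a x y → y ∈ K
  mem : ∀ t, ψ t 1 ∈ K
  nmem : ∀ t s, 0 ≤ s → s < 1 → ψ t s ∉ K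

section

variable {a a' : X ≃ₜ X} {ψ : ℝ → ℝ → X} {N : ℕ} {τ ε₀ : ℝ}

/-- The holonomy of a small horizontal displacement does not depend on the position. -/
theorem holo2 [CompactSpace X] (P : PD a a' ψ N τ) (hε₀ : 0 < ε₀) (hc : ∀ x, a' (a x) = a (a' x))
    (h1 : Ctr a ε₀) (h2 : Ctr a.symm ε₀) (h3 : Ctr a' ε₀) (h4 : Ctr a'.symm ε₀)
    (hl : Lpr a) (hl' : Lpr a') {ε : ℝ} (hε : 0 < ε) (hεε : ε < ε₀) :
    ∃ δ > 0, ∀ u, |u| ≤ δ → ∀ s, 0 ≤ s → s ≤ 1 → ∃ s', |s' - s| ≤ ε ∧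
      ∀ t, 0 ≤ t → t ≤ τ → SR a ε (ψ t s) (ψ (t + u) s') := by
  have hτ := P.tau_pos
  -- constants
  obtain ⟨δ₁, hδ₁, huc⟩ := P.ucb (τ + 4) hε
  obtain ⟨ε₁, hε₁, hh⟩ := holo1 P hε₀ hc h1 h2 h3 h4 hl hl' (B := τ + 4)
    (lt_min (lt_min hδ₁ hε) (one_pos : (0:ℝ) < 1))
  set η := min (min δ₁ ε) 1 with hη
  have hη0 : 0 < η := lt_min (lt_min hδ₁ hε) one_pos
  have hη1 : η ≤ δ₁ := (min_le_left _ _).trans (min_le_left _ _)
  have hη2 : η ≤ ε := (min_le_left _ _).trans (min_le_right _ _)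
  have hη3 : η ≤ 1 := min_le_right _ _
  set ε₂ := min ε₁ (ε₀ / 4) with hε₂
  have hε₂0 : 0 < ε₂ := lt_min hε₁ (by linarith)
  have hε₂1 : ε₂ ≤ ε₁ := min_le_left _ _
  have hε₂2 : ε₂ ≤ ε₀ / 4 := min_le_right _ _
  obtain ⟨δ₂, hδ₂, hδ₂', hho⟩ := hh ε₂ hε₂0 hε₂1
  obtain ⟨δ₃, hδ₃, hbp⟩ := bpath h1 hl hε₂0 (by linarith)
  obtain ⟨δ₄, hδ₄, huc'⟩ := P.ucb (τ + 4) hδ₃
  refine ⟨min (min δ₂ δ₁) (min δ₄ 1), lt_min (lt_min hδ₂ hδ₁) (lt_min hδ₄ one_pos), ?_⟩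
  intro u hu s hs0 hs1
  have hu1 : |u| ≤ δ₂ := hu.trans ((min_le_left _ _).trans (min_le_left _ _))
  have hu2 : |u| ≤ δ₁ := hu.trans ((min_le_left _ _).trans (min_le_right _ _))
  have hu3 : |u| ≤ δ₄ := hu.trans ((min_le_right _ _).trans (min_le_left _ _))
  have hu4 : |u| ≤ 1 := hu.trans ((min_le_right _ _).trans (min_le_right _ _))
  have hs : |s| ≤ 1 := abs_le.mpr ⟨by linarith, hs1⟩
  have hs4 : |s| ≤ τ + 4 := by linarith
  let ι := unitInterval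
  have hθ : ∀ i : ι, |(i : ℝ) * u| ≤ |u| := fun i => by
    rw [abs_mul]
    have h5 : |(i : ℝ)| ≤ 1 := abs_le.mpr ⟨by linarith [i.2.1], i.2.2⟩
    have : |(i : ℝ)| * |u| ≤ 1 * |u| := mul_le_mul_of_nonneg_right h5 (abs_nonneg u)
    linarith
  have hb0 : |(0:ℝ)| ≤ τ + 4 := by rw [abs_zero]; linarith
  have hpb : ∀ i : ι, |(0:ℝ) + (i : ℝ) * u| ≤ τ + 4 := fun i => by
    rw [zero_add]
    have := hθ i
    linarith
  obtain ⟨W, hWc, hW⟩ := hbp (fun _ : ι => ψ 0 s) (fun i : ι => ψ (0 + (i : ℝ) * u) s)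
    continuous_const
    (P.cont.comp (by fun_prop : Continuous fun i : ι => ((0:ℝ) + (i : ℝ) * u, s)))
    (fun i => huc' _ _ _ _ hb0 hs4 (hpb i) hs4 (by
      have : (0:ℝ) - (0 + (i : ℝ) * u) = -((i : ℝ) * u) := by ring
      rw [this, abs_neg]; exact (hθ i).trans hu3) (by rw [sub_self, abs_zero]; exact hδ₄.le))
  have hW2 : ∀ i, ∃ s', |s' - s| ≤ η ∧ W i = ψ (0 + (i : ℝ) * u) s' := fun i =>
    hho 0 s ((i : ℝ) * u) (W i) hb0 hs4 ((hθ i).trans hu1) (hW i).1 (hW i).2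
  choose σ hσ1 hσ2 using hW2
  refine ⟨σ 1, (hσ1 1).trans hη2, ?_⟩
  have hσ4 : ∀ i, |σ i| ≤ τ + 4 := fun i => by
    have h5 := hσ1 i
    have h6 := abs_sub_abs_le_abs_sub (σ i) s
    linarith
  -- transported relation
  have key : ∀ t₀, 0 ≤ t₀ → t₀ ≤ τ → ∀ b : X → X, Continuous b → (∀ x, b (a x) = a (b x)) →
      ∀ τ', |τ' - t₀| ≤ 1 → (∀ t s, b (ψ t s) = ψ (t + τ') s) →
      SR a ε (ψ τ' s) (ψ (τ' + u) (σ 1)) := by
    intro t₀ ht₀ ht₀' b hb hba τ' hτ' hbψ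
    have hτb : |τ'| ≤ τ + 1 := by
      have h6 := abs_sub_abs_le_abs_sub τ' t₀
      rw [abs_of_nonneg ht₀] at h6
      linarith
    have hu' : UW a (fun _ : ι => b (ψ 0 s)) (fun i : ι => b (W i)) :=
      (UW.of_SR h1 (fun i => (hW i).1.mono (by linarith)) : UW a (fun _ : ι => ψ 0 s) W).map hb hba
    have hd : ∀ i : ι, dist (b (ψ 0 s)) (b (W i)) ≤ ε := fun i => by
      rw [hσ2 i, hbψ, hbψ]
      refine (huc _ _ _ _ ?_ hs4 ?_ (hσ4 i) ?_ ?_).le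
      · rw [zero_add]; linarith
      · have h7 := abs_add_le (0 + (i : ℝ) * u) τ'
        have h8 := hθ i
        rw [zero_add] at h7 ⊢
        linarith
      · have : (0:ℝ) + τ' - (0 + (i : ℝ) * u + τ') = -((i : ℝ) * u) := by ring
        rw [this, abs_neg]; exact (hθ i).trans hu2
      · rw [abs_sub_comm]; exact (hσ1 i).trans hη1
    have h5 := path_SR h1 hεε continuous_const (hb.comp hWc) hu' hd (0 : ι) (by
      have h6 : W 0 = ψ 0 s := by
        have k1 := (hW 0).1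
        have k2 := (hW 0).2
        simp only [Set.Icc.coe_zero, zero_mul, add_zero] at k2
        exact (h1.expans (k1.mono (by linarith)) (k2.mono (by linarith))).symm
      rw [Function.comp_apply, h6]
      exact sr_refl a hε₀.le _) 1
    rw [Function.comp_apply, hσ2 1, hbψ, hbψ] at h5
    simp only [Set.Icc.coe_one, one_mul, zero_add] at h5
    rwa [add_comm u τ'] at h5
  -- limit
  intro t ht0 htτ
  have hcl : IsClosed {t' : ℝ | SR a ε (ψ t' s) (ψ (t' + u) (σ 1))} :=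
    closed_SR a ε (P.cont.comp (by fun_prop : Continuous fun t' : ℝ => (t', s)))
      (P.cont.comp (by fun_prop : Continuous fun t' : ℝ => (t' + u, σ 1)))
  have hmem : t ∈ closure {t' : ℝ | SR a ε (ψ t' s) (ψ (t' + u) (σ 1))} := by
    rw [Metric.mem_closure_iff]
    intro ρ hρ
    obtain ⟨b, hb, hba, τ', hτ', hbψ⟩ := P.dense t (min (ρ / 2) 1) (lt_min (half_pos hρ) one_pos)
    refine ⟨τ', key t ht0 htτ b hb hba τ' (hτ'.trans (min_le_right _ _)) hbψ, ?_⟩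
    rw [dist_comm, Real.dist_eq]
    exact lt_of_le_of_lt (hτ'.trans (min_le_left _ _)) (by linarith)
  rw [hcl.closure_eq] at hmem
  exact hmem

/-- Uniqueness of the vertical coordinate. -/
theorem vert_unique (P : PD a a' ψ N τ) (hε₀ : 0 < ε₀) (h1 : Ctr a ε₀) (B : ℝ) :
    ∃ δ > 0, ∀ t s s', |t| ≤ B → |s| ≤ B → |s'| ≤ B → |s - s'| ≤ δ →
      SR a ε₀ (ψ t s) (ψ t s') → s = s' := by
  obtain ⟨δ, hδ, h⟩ := P.srV B hε₀
  exact ⟨δ, hδ, fun t s s' ht hs hs' hd hsr =>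
    P.inj t s s' (h1.expans hsr (h t s s' ht hs hs' hd))⟩

/-- The first return holonomy of the region. -/
theorem exists_hol [CompactSpace X] (P : PD a a' ψ N τ) {K : Set X} (hK : KD a ψ K)
    (hε₀ : 0 < ε₀) (hc : ∀ x, a' (a x) = a (a' x))
    (h1 : Ctr a ε₀) (h2 : Ctr a.symm ε₀) (h3 : Ctr a' ε₀) (h4 : Ctr a'.symm ε₀)
    (hl : Lpr a) (hl' : Lpr a') : ∃ ε > 0, ε < ε₀ ∧ ∃ m : ℕ, 1 ≤ m ∧
      ∃ g : unitInterval → unitInterval, Continuous g ∧ g 0 = 0 ∧ g 1 = 1 ∧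
        ∀ (s : unitInterval) (t : ℝ), 0 ≤ t → t ≤ τ → SR a ε (ψ t s) (ψ (t + τ / m) (g s)) := by
  have hτ := P.tau_pos
  obtain ⟨δV, hδV, hV⟩ := vert_unique P hε₀ h1 (τ + 4)
  set ε := min (min (ε₀ / 4) (δV / 4)) (1 / 4) with hε
  have hε0 : 0 < ε := lt_min (lt_min (by linarith) (by linarith)) (by norm_num)
  have hεa : ε ≤ ε₀ / 4 := (min_le_left _ _).trans (min_le_left _ _)
  have hεb : ε ≤ δV / 4 := (min_le_left _ _).trans (min_le_right _ _)
  have hεc : ε ≤ 1 / 4 := min_le_right _ _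
  obtain ⟨δ, hδ, hho⟩ := holo2 P hε₀ hc h1 h2 h3 h4 hl hl' hε0 (by linarith)
  obtain ⟨δH, hδH, hH⟩ := P.srH (τ + 4) hε0
  obtain ⟨m, hm⟩ := exists_nat_gt (max (τ / min (min δ δH) 1) 1)
  have hm0 : (0:ℝ) < m := lt_of_lt_of_le one_pos ((le_max_right _ _).trans hm.le)
  have hmin0 : 0 < min (min δ δH) 1 := lt_min (lt_min hδ hδH) one_pos
  have hu : τ / m ≤ min (min δ δH) 1 := by
    rw [div_le_iff₀ hm0]
    have : τ / min (min δ δH) 1 < m := lt_of_le_of_lt (le_max_left _ _) hm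
    rw [div_lt_iff₀ hmin0] at this
    linarith
  set u := τ / m with hudef
  have hu0 : 0 < u := div_pos hτ hm0
  have hua : |u| ≤ δ := by
    rw [abs_of_pos hu0]; exact hu.trans ((min_le_left _ _).trans (min_le_left _ _))
  have hub : |u| ≤ δH := by
    rw [abs_of_pos hu0]; exact hu.trans ((min_le_left _ _).trans (min_le_right _ _))
  have huc' : u ≤ 1 := hu.trans (min_le_right _ _)
  have hex := hho u hua
  choose! γ hγ1 hγ2 using hex
  have hb0 : |(0:ℝ)| ≤ τ + 4 := by rw [abs_zero]; linarith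
  have hbu : |u| ≤ τ + 4 := by rw [abs_of_pos hu0]; linarith
  have hbs : ∀ s, 0 ≤ s → s ≤ 1 → |s| ≤ τ + 4 := fun s h0 h1 => by
    rw [abs_of_nonneg h0]; linarith
  have hbz : ∀ s z, 0 ≤ s → s ≤ 1 → |z - s| ≤ ε → |z| ≤ τ + 4 := fun s z h0 h1 h => by
    have := abs_sub_abs_le_abs_sub z s
    rw [abs_of_nonneg h0] at this
    linarith
  have hrel : ∀ s, 0 ≤ s → s ≤ 1 → SR a ε (ψ 0 s) (ψ u (γ s)) := fun s h0 h1 => by
    have := hγ2 s h0 h1 0 le_rfl hτ.le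
    rwa [zero_add] at this
  -- uniqueness
  have huniq : ∀ s z, 0 ≤ s → s ≤ 1 → |z - s| ≤ ε → SR a ε (ψ 0 s) (ψ u z) → z = γ s := by
    intro s z h0 h1' hz hzr
    refine hV u z (γ s) hbu (hbz s z h0 h1' hz) (hbz s _ h0 h1' (hγ1 s h0 h1')) ?_ ?_
    · have e1 : z - γ s = (z - s) - (γ s - s) := by ring
      rw [e1]
      have := abs_sub (z - s) (γ s - s)
      have := hγ1 s h0 h1'
      linarith
    · exact (sr_tr hzr.symm' (hrel s h0 h1')).mono (by linarith)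
  have hinj : ∀ s s', 0 ≤ s → s ≤ 1 → 0 ≤ s' → s' ≤ 1 → γ s = γ s' → s = s' := by
    intro s s' h0 h1' h0' h1'' he
    refine hV 0 s s' hb0 (hbs s h0 h1') (hbs s' h0' h1'') ?_ ?_
    · have e1 : s - s' = (γ s' - s') - (γ s - s) := by rw [he]; ring
      rw [e1]
      have := abs_sub (γ s' - s') (γ s - s)
      have := hγ1 s h0 h1'
      have := hγ1 s' h0' h1''
      linarith
    · have k1 := hrel s h0 h1'
      rw [he] at k1
      exact (sr_tr k1 (hrel s' h0' h1'').symm').mono (by linarith)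
  have hγ0 : γ 0 = 0 := by
    symm
    apply huniq 0 0 le_rfl zero_le_one (by rw [sub_self, abs_zero]; exact hε0.le)
    refine hH 0 u hb0 hbu ?_
    rw [zero_sub, abs_neg]; exact hub
  -- continuity
  have hcont : Continuous fun s : unitInterval => γ s := by
    have hc2 : CompactSpace (Icc (-1:ℝ) 2) := isCompact_iff_compactSpace.mp isCompact_Icc
    have hmemI : ∀ s : unitInterval, γ s ∈ Icc (-1:ℝ) 2 := fun s => by
      have := abs_le.mp (hγ1 s s.2.1 s.2.2)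
      have h5 := s.2.1
      have h6 := s.2.2
      exact ⟨by linarith, by linarith⟩
    have := cont_of_graph (f := fun s : unitInterval => (⟨γ s, hmemI s⟩ : Icc (-1:ℝ) 2))
      (P := fun s z => |(z : ℝ) - s| ≤ ε ∧ SR a ε (ψ 0 s) (ψ u z)) (by
        refine IsClosed.inter ?_ ?_
        · exact isClosed_le (f := fun p : unitInterval × Icc (-1:ℝ) 2 => |(p.2 : ℝ) - p.1|)
            (g := fun _ => ε) (by fun_prop) continuous_const
        · exact closed_SR a ε (P.cont.comp (by fun_prop :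
            Continuous fun p : unitInterval × Icc (-1:ℝ) 2 => ((0:ℝ), (p.1 : ℝ))))
            (P.cont.comp (by fun_prop :
            Continuous fun p : unitInterval × Icc (-1:ℝ) 2 => (u, (p.2 : ℝ)))))
      (fun s => ⟨hγ1 s s.2.1 s.2.2, hrel s s.2.1 s.2.2⟩)
      (fun s z hz => Subtype.ext (huniq s z s.2.1 s.2.2 hz.1 hz.2))
    exact continuous_subtype_val.comp this
  have hcontOn : ContinuousOn γ (Icc 0 1) := continuousOn_iff_continuous_restrict.mpr hcont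
  -- position with respect to `K`
  have hKu : ∀ s, 0 ≤ s → s ≤ 1 → (ψ 0 s ∈ K ↔ ψ u (γ s) ∈ K) := fun s h0 h1' =>
    ⟨fun h => hK.sat _ h _ (h1.ws ((hrel s h0 h1').mono (by linarith))),
      fun h => hK.sat _ h _ (h1.ws ((hrel s h0 h1').symm'.mono (by linarith)))⟩
  have hle : ∀ s, 0 ≤ s → s ≤ 1 → γ s ≤ 1 := by
    intro s h0 h1'
    by_contra hgt
    push Not at hgt
    have h5 : (1:ℝ) ∈ Icc (γ 0) (γ s) := ⟨by rw [hγ0]; exact zero_le_one, hgt.le⟩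
    obtain ⟨s₁, hs₁, hs₁'⟩ := intermediate_value_Icc h0
      (hcontOn.mono (Icc_subset_Icc_right h1')) h5
    have h6 : s₁ ≤ 1 := hs₁.2.trans h1'
    have h7 : s₁ ≠ 1 := by
      intro h
      have h8 : s = s₁ := le_antisymm (h1'.trans h.ge) hs₁.2
      rw [← h8] at hs₁'
      linarith
    have h9 : ψ 0 s₁ ∈ K := by
      rw [hKu s₁ hs₁.1 h6, hs₁']
      exact hK.mem u
    exact hK.nmem 0 s₁ hs₁.1 (lt_of_le_of_ne h6 h7) h9
  have hge1 : γ 1 = 1 := by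
    apply le_antisymm (hle 1 zero_le_one le_rfl)
    by_contra hlt
    push Not at hlt
    have h5 := (hKu 1 zero_le_one le_rfl).mp (hK.mem 0)
    have h6 := (abs_le.mp (hγ1 1 zero_le_one le_rfl)).1
    exact hK.nmem u _ (by linarith) hlt h5
  have hge : ∀ s, 0 ≤ s → s ≤ 1 → 0 ≤ γ s := by
    intro s h0 h1'
    by_contra hlt
    push Not at hlt
    have h5 : (0:ℝ) ∈ Icc (γ s) (γ 1) := ⟨hlt.le, by rw [hge1]; exact zero_le_one⟩
    obtain ⟨s₁, hs₁, hs₁'⟩ := intermediate_value_Icc h1'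
      (hcontOn.mono (Icc_subset_Icc_left h0)) h5
    have h6 : s₁ = 0 := hinj s₁ 0 (h0.trans hs₁.1) hs₁.2 le_rfl zero_le_one (by rw [hs₁', hγ0])
    have h7 : s = 0 := le_antisymm (h6 ▸ hs₁.1) h0
    rw [h7, hγ0] at hlt
    exact lt_irrefl _ hlt
  refine ⟨ε, hε0, by linarith, m, ?_, fun s => ⟨γ s, hge s s.2.1 s.2.2, hle s s.2.1 s.2.2⟩,
    Continuous.subtype_mk hcont _, Subtype.ext hγ0, Subtype.ext hge1, fun s t ht0 htτ => ?_⟩
  · exact_mod_cast hm0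
  · exact hγ2 s s.2.1 s.2.2 t ht0 htτ

end

end Pool.Agent.Y330.F
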