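import Pool.Agent.Y330.F.A3

set_option autoImplicit false

open Filter Topology Set Metric

namespace Pool.Agent.Y330.F

open Pool.Agent.H789R2.AN Pool.Agent.Y330.G

variable {X : Type*} [MetricSpace X]

/-- **No region** bounded by the axis and a saturated closed set. -/
theorem no_region [CompactSpace X] {a a' : X ≃ₜ X} {ψ : ℝ → ℝ → X} {N : ℕ} {τ ε₀ : ℝ}
    (P : PD a a' ψ N τ) {K : Set X} (hK : KD a ψ K)
    (hε₀ : 0 < ε₀) (hc : ∀ x, a' (a x) = a (a' x))
    (h1 : Ctr a ε₀) (h2 : Ctr a.symm ε₀) (h3 : Ctr a' ε₀) (h4 : Ctr a'.symm ε₀)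
    (hl : Lpr a) (hl' : Lpr a') : False := by
  obtain ⟨ε, hε, hεε, m, hm, g, hg, hg0, hg1, hrel⟩ := exists_hol P hK hε₀ hc h1 h2 h3 h4 hl hl'
  have hτ := P.tau_pos
  have hm0 : (0:ℝ) < m := by exact_mod_cast hm
  set u := τ / m with hu
  have hu0 : 0 < u := div_pos hτ hm0
  have hmu : (m : ℝ) * u = τ := by rw [hu]; field_simp
  -- shift by multiples of the period
  have hshift : ∀ (j : ℕ) (t s : ℝ), a^[N * j] (ψ t s) = ψ (t + j * τ) s := by
    intro j
    induction j with
    | zero => intro t s; simp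
    | succ j ih =>
      intro t s
      rw [Nat.mul_succ, Function.iterate_add_apply, P.shift, ih]
      congr 1
      push_cast; ring
  have hgi : ∀ n, g^[n] 0 = 0 := fun n => Function.iterate_fixed hg0 n
  have hgi1 : ∀ n, g^[n] 1 = 1 := fun n => Function.iterate_fixed hg1 n
  have hgc : ∀ n, Continuous (g^[n]) := fun n => hg.iterate n
  -- consecutive points
  have hstep : ∀ (s : unitInterval) (n : ℕ), SR a (ε * (1 / 2) ^ (n / m))
      (ψ (n * u) (g^[n] s)) (ψ ((n + 1 : ℕ) * u) (g^[n + 1] s)) := by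
    intro s n
    have h5 := hrel (g^[n] s) ((n % m : ℕ) * u) (by positivity) (by
      rw [← hmu]
      apply mul_le_mul_of_nonneg_right _ hu0.le
      exact_mod_cast (Nat.mod_lt n hm).le)
    have h6 : ((n : ℕ) : ℝ) * u = ((n % m : ℕ) : ℝ) * u + ((n / m : ℕ) : ℝ) * τ := by
      have h7 : (n : ℝ) = ((m * (n / m) + n % m : ℕ) : ℝ) := by
        rw [Nat.div_add_mod]
      rw [h7]
      push_cast
      rw [add_mul, mul_comm (m : ℝ) _, mul_assoc, hmu]
      ring
    have h8 : (((n + 1 : ℕ) : ℝ)) * u = ((n % m : ℕ) : ℝ) * u + u + ((n / m : ℕ) : ℝ) * τ := by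
      push_cast
      rw [add_mul, one_mul]
      push_cast at h6
      rw [h6]; ring
    rw [h6, h8, ← hshift, ← hshift, Function.iterate_succ_apply']
    intro k
    rw [← Function.iterate_add_apply, ← Function.iterate_add_apply]
    have h9 := h1 _ _ (h5.mono hεε.le) (k + N * (n / m))
    have h10 : dist (ψ (((n % m : ℕ) : ℝ) * u) (g^[n] s))
        (ψ (((n % m : ℕ) : ℝ) * u + u) (g (g^[n] s))) ≤ ε := h5 0
    have h11 : (1 / 2 : ℝ) ^ (k + N * (n / m)) ≤ (1 / 2) ^ (n / m) := by
      apply pow_le_pow_of_le_one (by norm_num) (by norm_num)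
      have := P.N_pos
      nlinarith [Nat.zero_le (n / m), Nat.zero_le k]
    calc _ ≤ (1 / 2 : ℝ) ^ (k + N * (n / m)) * _ := h9
      _ ≤ (1 / 2) ^ (n / m) * ε := mul_le_mul h11 h10 dist_nonneg (by positivity)
      _ = _ := by ring
  -- sums
  have hsum : ∀ (s : unitInterval) (j₀ n : ℕ), j₀ * m ≤ n → SR a
      (ε * (2 * m * (1 / 2) ^ j₀ - (2 * m - (n % m : ℕ)) * (1 / 2) ^ (n / m)))
      (ψ ((j₀ * m : ℕ) * u) (g^[j₀ * m] s)) (ψ (n * u) (g^[n] s)) := by
    intro s j₀ n hn
    induction n, hn using Nat.le_induction with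
    | base =>
      have e1 : j₀ * m / m = j₀ := Nat.mul_div_cancel _ (by omega)
      have e2 : j₀ * m % m = 0 := Nat.mul_mod_left _ _
      rw [e1, e2]
      refine sr_refl a ?_ _
      rw [Nat.cast_zero, sub_zero, sub_self, mul_zero]
    | succ n hn ih =>
      refine (sr_tr ih (hstep s n)).mono (le_of_eq ?_)
      have hlt := Nat.mod_lt n hm
      by_cases hcase : n % m + 1 = m
      · have e1 : (n + 1) / m = n / m + 1 := by
          rw [Nat.succ_div_of_dvd]
          rw [Nat.dvd_iff_mod_eq_zero, Nat.add_mod]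
          rcases Nat.eq_or_lt_of_le hm with h | h
          · subst h; omega
          · rw [Nat.mod_eq_of_lt h, hcase, Nat.mod_self]
        have e2 : (n + 1) % m = 0 := by
          rw [Nat.add_mod]
          rcases Nat.eq_or_lt_of_le hm with h | h
          · subst h; omega
          · rw [Nat.mod_eq_of_lt h, hcase, Nat.mod_self]
        rw [e1, e2, pow_succ]
        have e3 : ((n % m : ℕ) : ℝ) = m - 1 := by
          have : ((n % m + 1 : ℕ) : ℝ) = m := by rw [hcase]
          push_cast at this ⊢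
          linarith
        rw [e3]
        push_cast
        ring
      · have hlt' : n % m + 1 < m := by omega
        have e1 : (n + 1) / m = n / m := by
          rw [Nat.succ_div_of_not_dvd]
          rw [Nat.dvd_iff_mod_eq_zero, Nat.add_mod]
          have h1m : 1 < m := by omega
          rw [Nat.mod_eq_of_lt h1m, Nat.mod_eq_of_lt hlt']
          omega
        have e2 : (n + 1) % m = n % m + 1 := by
          have h1m : 1 < m := by omega
          rw [Nat.add_mod, Nat.mod_eq_of_lt h1m, Nat.mod_eq_of_lt hlt']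
        rw [e1, e2]
        push_cast
        ring
  -- choose the base time
  obtain ⟨j₀, hj₀⟩ := pw (c := ε * (2 * m)) (show (0:ℝ) < ε₀ / 16 by linarith)
  have hsum' : ∀ (s : unitInterval) (n : ℕ), j₀ * m ≤ n → dist
      (ψ ((j₀ * m : ℕ) * u) (g^[j₀ * m] s)) (ψ (n * u) (g^[n] s)) ≤ ε₀ / 16 := by
    intro s n hn
    have h5 : dist (ψ ((j₀ * m : ℕ) * u) (g^[j₀ * m] s)) (ψ (n * u) (g^[n] s)) ≤ _ :=
      hsum s j₀ n hn 0
    refine h5.trans (le_trans ?_ hj₀)
    have h6 : (0:ℝ) ≤ (2 * m - (n % m : ℕ)) * (1 / 2) ^ (n / m) := by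
      apply mul_nonneg _ (by positivity)
      have : ((n % m : ℕ) : ℝ) ≤ m := by exact_mod_cast (Nat.mod_lt n hm).le
      linarith
    have h7 : 2 * (m : ℝ) * (1 / 2) ^ j₀ - (2 * m - (n % m : ℕ)) * (1 / 2) ^ (n / m) ≤
      2 * m * (1 / 2) ^ j₀ := by linarith
    calc ε * (2 * (m : ℝ) * (1 / 2) ^ j₀ - (2 * m - (n % m : ℕ)) * (1 / 2) ^ (n / m))
        ≤ ε * (2 * m * (1 / 2) ^ j₀) := mul_le_mul_of_nonneg_left h7 hε.le
      _ = _ := by ring
  -- the equivalence relation
  let r : unitInterval → unitInterval → Prop := fun s s' =>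
    Tendsto (fun j : ℕ => dist (ψ 0 (g^[j * m] s)) (ψ 0 (g^[j * m] s'))) atTop (𝓝 0)
  have hloc : ∀ s : unitInterval, ∀ᶠ s' in 𝓝 s, r s s' := by
    intro s
    have hcont : Continuous fun s' : unitInterval => ψ ((j₀ * m : ℕ) * u) (g^[j₀ * m] s') :=
      P.cont.comp (((continuous_const : Continuous fun _ : unitInterval =>
        (((j₀ * m : ℕ) : ℝ) * u))).prodMk (continuous_subtype_val.comp (hgc _)))
    obtain ⟨η, hη, hηc⟩ := Metric.continuousAt_iff.mp (hcont.continuousAt (x := s)) (ε₀ / 16)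
      (by linarith)
    filter_upwards [Metric.ball_mem_nhds s hη] with s' hs'
    -- the path from `s` to `s'`
    let ι := unitInterval
    have hpm : ∀ i : ι, (s : ℝ) + i * (s' - s) ∈ Icc (0:ℝ) 1 := by
      intro i
      have i0 := i.2.1
      have i1 := i.2.2
      have s0 := s.2.1
      have s1 := s.2.2
      have s0' := s'.2.1
      have s1' := s'.2.2
      constructor
      · nlinarith
      · nlinarith
    let p : ι → unitInterval := fun i => ⟨(s : ℝ) + i * (s' - s), hpm i⟩
    have hpc : Continuous p := by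
      apply Continuous.subtype_mk
      fun_prop
    have hpd : ∀ i, dist (p i) s < η := by
      intro i
      have h5 : dist (p i) s = |(i : ℝ) * (s' - s)| := by
        rw [Subtype.dist_eq, Real.dist_eq]
        congr 1
        show (s : ℝ) + i * (s' - s) - s = _
        ring
      have h6 : dist s' s = |(s' : ℝ) - s| := by rw [Subtype.dist_eq, Real.dist_eq]
      have h7 : dist s' s < η := hs'
      rw [h5, abs_mul]
      rw [h6] at h7
      have h8 : |(i : ℝ)| ≤ 1 := abs_le.mpr ⟨by linarith [i.2.1], i.2.2⟩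
      have : |(i : ℝ)| * |(s' : ℝ) - s| ≤ 1 * |(s' : ℝ) - s| :=
        mul_le_mul_of_nonneg_right h8 (abs_nonneg _)
      linarith
    have hp0 : p 0 = s := Subtype.ext (by show (s : ℝ) + ((0 : unitInterval) : ℝ) * _ = s; simp)
    have hp1 : p 1 = s' := Subtype.ext (by
      show (s : ℝ) + ((1 : unitInterval) : ℝ) * ((s' : ℝ) - s) = s'
      simp)
    have hV : ∀ n : ℕ, j₀ * m ≤ n → SR a.symm (ε₀ / 2) (ψ (n * u) (g^[n] s))
        (ψ (n * u) (g^[n] s')) := by
      intro n hn
      have hcy : Continuous fun i : ι => ψ (n * u) (g^[n] (p i)) :=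
        P.cont.comp (((continuous_const : Continuous fun _ : ι => ((n : ℝ) * u))).prodMk
          (continuous_subtype_val.comp ((hgc n).comp hpc)))
      have hnu : (0:ℝ) ≤ n * u := by positivity
      have hbd : ∀ z : unitInterval, |(z : ℝ)| ≤ n * u + 1 := fun z => by
        rw [abs_of_nonneg z.2.1]
        have := z.2.2
        linarith
      have hUW := P.uwVp (ι := ι) (B := n * u + 1) (n * u) (by rw [abs_of_nonneg hnu]; linarith)
        (fun _ => (g^[n] s : ℝ)) (fun i => (g^[n] (p i) : ℝ)) (fun _ => hbd _) (fun _ => hbd _)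
      have h5 := path_SR h2 (show ε₀ / 2 < ε₀ by linarith) continuous_const hcy hUW (fun i => by
        have k1 := hsum' s n hn
        have k2 := hsum' (p i) n hn
        have k3 := (hηc (hpd i)).le
        rw [dist_comm] at k1
        have k4 := dist_triangle (ψ (n * u) (g^[n] s)) (ψ ((j₀ * m : ℕ) * u) (g^[j₀ * m] s))
          (ψ (n * u) (g^[n] (p i)))
        have k5 := dist_triangle (ψ ((j₀ * m : ℕ) * u) (g^[j₀ * m] s))
          (ψ ((j₀ * m : ℕ) * u) (g^[j₀ * m] (p i))) (ψ (n * u) (g^[n] (p i)))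
        rw [dist_comm] at k3
        linarith) (0 : ι) (by rw [hp0]; exact sr_refl _ hε₀.le _) 1
      rw [hp1] at h5
      exact h5
    -- conclusion
    have hbound : ∀ j : ℕ, j₀ ≤ j → dist (ψ 0 (g^[j * m] s)) (ψ 0 (g^[j * m] s')) ≤
        ε₀ * (1 / 2) ^ j := by
      intro j hj
      have h5 := hV (j * m) (Nat.mul_le_mul_right m hj)
      have e1 : (((j * m : ℕ) : ℝ)) * u = 0 + (j : ℝ) * τ := by
        push_cast
        rw [mul_assoc, hmu, zero_add]
      rw [e1, ← hshift, ← hshift] at h5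
      have h6 := h2 _ _ (h5.mono (by linarith)) (N * j)
      rw [iterL, iterL] at h6
      have h7 : dist (a^[N * j] (ψ 0 (g^[j * m] s))) (a^[N * j] (ψ 0 (g^[j * m] s'))) ≤ ε₀ / 2 :=
        h5 0
      have h8 : (1 / 2 : ℝ) ^ (N * j) ≤ (1 / 2) ^ j := by
        apply pow_le_pow_of_le_one (by norm_num) (by norm_num)
        have := P.N_pos
        nlinarith [Nat.zero_le j]
      calc _ ≤ (1 / 2 : ℝ) ^ (N * j) * _ := h6
        _ ≤ (1 / 2) ^ j * (ε₀ / 2) := mul_le_mul h8 h7 dist_nonneg (by positivity)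
        _ ≤ _ := by
          have : (0:ℝ) ≤ (1 / 2) ^ j * (ε₀ / 2) := by positivity
          nlinarith
    refine squeeze_zero' (Eventually.of_forall fun _ => dist_nonneg) ?_ (g := fun j : ℕ =>
      ε₀ * (1 / 2 : ℝ) ^ j) ?_
    · filter_upwards [eventually_ge_atTop j₀] with j hj
      exact hbound j hj
    · have := (tendsto_pow_atTop_nhds_zero_of_lt_one (by norm_num : (0:ℝ) ≤ 1 / 2)
        (by norm_num)).const_mul ε₀
      simpa using this
  have hrs : ∀ s s', r s s' → r s' s := fun s s' h => by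
    refine h.congr fun j => dist_comm _ _
  have hrt : ∀ s s' s'', r s s' → r s' s'' → r s s'' := fun s s' s'' h h' => by
    have := h.add h'
    rw [add_zero] at this
    exact squeeze_zero (fun _ => dist_nonneg) (fun j => dist_triangle _ _ _) this
  have hclopen : IsClopen {s | r 0 s} := by
    constructor
    · rw [← isOpen_compl_iff, isOpen_iff_mem_nhds]
      intro s hs
      filter_upwards [hloc s] with s' hs' h
      exact hs (hrt _ _ _ h (hrs _ _ hs'))
    · rw [isOpen_iff_mem_nhds]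
      intro s hs
      filter_upwards [hloc s] with s' hs'
      exact hrt _ _ _ hs hs'
  have huniv := hclopen.eq_univ ⟨0, by
    show r 0 0
    show Tendsto (fun j : ℕ => dist (ψ 0 (g^[j * m] 0)) (ψ 0 (g^[j * m] 0))) atTop (𝓝 0)
    simp⟩
  have h01 : r 0 1 := by
    have : (1 : unitInterval) ∈ {s | r 0 s} := by rw [huniv]; trivial
    exact this
  have h5 : Tendsto (fun j : ℕ => dist (ψ 0 (g^[j * m] 0)) (ψ 0 (g^[j * m] 1))) atTop (𝓝 0) := h01
  simp only [hgi, hgi1] at h5
  have h6 := tendsto_nhds_unique h5 tendsto_const_nhds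
  have h7 : ψ 0 ((0 : unitInterval) : ℝ) = ψ 0 ((1 : unitInterval) : ℝ) := dist_eq_zero.mp h6.symm
  have h8 := P.inj _ _ _ h7
  simp at h8

end Pool.Agent.Y330.F
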