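import Pool.Agent.Y330.F.B5

set_option autoImplicit false
set_option linter.unusedSectionVars false

open Filter Topology Set Metric
open scoped InnerProductSpace

namespace Pool.Agent.Y330.F

open Pool.Agent.H789R2.AN Pool.Agent.Y330.G Pool.Agent.H721R2

variable {X : Type*} [MetricSpace X] {E : Type*} [NormedAddCommGroup E] [NormedSpace ℝ E]

/-- second order smoothness of a map with derivative `B`, in an ambient space -/
structure SM (e : X → E) (T : X → Submodule ℝ E) (b : X → X) (B : X → E →ₗ[ℝ] E) (C r : ℝ) :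
    Prop where
  C_pos : 0 < C
  r_pos : 0 < r
  map : ∀ x, ∀ v ∈ T x, B x v ∈ T (b x)
  bd : ∀ x, ∀ v ∈ T x, ‖B x v‖ ≤ C * ‖v‖
  q : ∀ x y, dist x y < r → ∃ v ∈ T x, ‖e y - e x - v‖ ≤ C * dist x y ^ 2 ∧
    ‖e (b y) - e (b x) - B x v‖ ≤ C * dist x y ^ 2
  lip : ∀ x y, dist x y < r → ∀ v ∈ T x, ∃ w ∈ T y, ‖v - w‖ ≤ C * dist x y * ‖v‖ ∧
    ‖B x v - B y w‖ ≤ C * dist x y * ‖v‖

theorem sctr [CompactSpace X] (S : HypSys X E) : ∃ ε₀ > 0, Ctr S.g ε₀ := by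
  obtain ⟨ε, hε, h⟩ := contrS_iter S
  exact ⟨ε, hε, fun x y hxy n => h x y hxy n⟩

/-- **Quadratic cone estimate**: the chord between two points of a local stable set is tangent to
the stable space up to a quadratic error. -/
theorem coneQ [CompactSpace X] (S : HypSys X E) {C r : ℝ}
    (hS : SM S.e (fun x => S.Vs x ⊔ S.Vu x) S.g S.D C r) :
    ∃ ε₁ > 0, ∀ x y, SR S.g ε₁ x y → ∃ s ∈ S.Vs x, ∃ u ∈ S.Vu x,
      ‖S.e y - S.e x - (s + u)‖ ≤ C * dist x y ^ 2 ∧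
      ‖S.e (S.g y) - S.e (S.g x) - S.D x (s + u)‖ ≤ C * dist x y ^ 2 ∧
      ‖u‖ ≤ S.K * C * dist x y ^ 2 := by
  obtain ⟨ε₀, hε₀, hc⟩ := sctr S
  have hC := hS.C_pos
  have hr := hS.r_pos
  have hK := S.one_le_K
  refine ⟨min ε₀ (r / 2), lt_min hε₀ (half_pos hr), fun x y hxy => ?_⟩
  have hxy0 : SR S.g ε₀ x y := hxy.mono (min_le_left _ _)
  have hxyr : ∀ n, dist (S.g^[n] x) (S.g^[n] y) < r := fun n => by
    have := (hxy n).trans (min_le_right _ _)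
    linarith
  have hex : ∀ n, ∃ s ∈ S.Vs (S.g^[n] x), ∃ u ∈ S.Vu (S.g^[n] x),
      ‖S.e (S.g^[n] y) - S.e (S.g^[n] x) - (s + u)‖ ≤ C * dist (S.g^[n] x) (S.g^[n] y) ^ 2 ∧
      ‖S.e (S.g (S.g^[n] y)) - S.e (S.g (S.g^[n] x)) - S.D (S.g^[n] x) (s + u)‖ ≤
        C * dist (S.g^[n] x) (S.g^[n] y) ^ 2 := by
    intro n
    obtain ⟨v, hv, h1, h2⟩ := hS.q _ _ (hxyr n)
    obtain ⟨s, hs, u, hu, hsu⟩ := Submodule.mem_sup.mp hv
    exact ⟨s, hs, u, hu, by rw [hsu]; exact h1, by rw [hsu]; exact h2⟩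
  choose s hs u hu h1 h2 using hex
  set d : ℕ → ℝ := fun n => dist (S.g^[n] x) (S.g^[n] y) with hd
  have hd0 : ∀ n, 0 ≤ d n := fun n => dist_nonneg
  have hdn : ∀ n, d (n + 1) ≤ 1 / 2 * d n := fun n => by
    have h3 := hc _ _ (sr_it hxy0 n) 1
    simp only [Function.iterate_one, pow_one] at h3
    show dist (S.g^[n + 1] x) (S.g^[n + 1] y) ≤ _
    rw [Function.iterate_succ_apply', Function.iterate_succ_apply']
    exact h3
  have hb : S.b ≤ 1 / 16 := by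
    have := S.Kb
    have := S.b_nonneg
    nlinarith
  -- recursion
  have hrec : ∀ n, ‖u n‖ ≤ 1 / 16 * (‖u (n + 1)‖ + 2 * (S.K * C) * d n ^ 2) := by
    intro n
    have e0 : S.g^[n + 1] x = S.g (S.g^[n] x) := Function.iterate_succ_apply' _ _ _
    have e0' : S.g^[n + 1] y = S.g (S.g^[n] y) := Function.iterate_succ_apply' _ _ _
    have hs' : s (n + 1) ∈ S.Vs (S.g (S.g^[n] x)) := by rw [← e0]; exact hs _
    have hu' : u (n + 1) ∈ S.Vu (S.g (S.g^[n] x)) := by rw [← e0]; exact hu _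
    have k1 : ‖(s (n + 1) - S.D (S.g^[n] x) (s n)) + (u (n + 1) - S.D (S.g^[n] x) (u n))‖ ≤
        2 * C * d n ^ 2 := by
      have e1 : (s (n + 1) - S.D (S.g^[n] x) (s n)) + (u (n + 1) - S.D (S.g^[n] x) (u n)) =
          (S.e (S.g (S.g^[n] y)) - S.e (S.g (S.g^[n] x)) - S.D (S.g^[n] x) (s n + u n)) -
          (S.e (S.g^[n + 1] y) - S.e (S.g^[n + 1] x) - (s (n + 1) + u (n + 1))) := by
        rw [map_add, e0, e0']; abel
      rw [e1]
      have k2 := norm_sub_le (S.e (S.g (S.g^[n] y)) - S.e (S.g (S.g^[n] x)) -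
        S.D (S.g^[n] x) (s n + u n))
        (S.e (S.g^[n + 1] y) - S.e (S.g^[n + 1] x) - (s (n + 1) + u (n + 1)))
      have k3 := h1 (n + 1)
      have k4 := h2 n
      have k5 : d (n + 1) ^ 2 ≤ d n ^ 2 := by
        apply pow_le_pow_left₀ (hd0 _)
        linarith [hdn n, hd0 n]
      have k6 : C * d (n + 1) ^ 2 ≤ C * d n ^ 2 := mul_le_mul_of_nonneg_left k5 hC.le
      change ‖S.e (S.g^[n + 1] y) - S.e (S.g^[n + 1] x) - (s (n + 1) + u (n + 1))‖ ≤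
        C * d (n + 1) ^ 2 at k3
      change ‖S.e (S.g (S.g^[n] y)) - S.e (S.g (S.g^[n] x)) - S.D (S.g^[n] x) (s n + u n)‖ ≤
        C * d n ^ 2 at k4
      linarith
    obtain ⟨-, k2⟩ := S.angle _ _ (Submodule.sub_mem _ hs' (S.mapS _ _ (hs n))) _
      (Submodule.sub_mem _ hu' (S.mapU _ _ (hu n)))
    have k3 : ‖u (n + 1) - S.D (S.g^[n] x) (u n)‖ ≤ 2 * (S.K * C) * d n ^ 2 := by
      calc _ ≤ S.K * _ := k2
        _ ≤ S.K * (2 * C * d n ^ 2) := mul_le_mul_of_nonneg_left k1 (by linarith)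
        _ = _ := by ring
    have k4 : ‖S.D (S.g^[n] x) (u n)‖ ≤ ‖u (n + 1)‖ + 2 * (S.K * C) * d n ^ 2 := by
      have := norm_sub_norm_le (S.D (S.g^[n] x) (u n)) (u (n + 1))
      rw [norm_sub_rev] at this
      linarith
    have k5 := S.contrU _ _ (S.mapU _ _ (hu n))
    rw [S.invU _ _ (hu n)] at k5
    have k6 : S.b * ‖S.D (S.g^[n] x) (u n)‖ ≤ 1 / 16 * ‖S.D (S.g^[n] x) (u n)‖ :=
      mul_le_mul_of_nonneg_right hb (norm_nonneg _)
    linarith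
  have hphi : ∀ n, ‖u n‖ - 1 / 4 * (S.K * C) * d n ^ 2 ≤
      1 / 16 * (‖u (n + 1)‖ - 1 / 4 * (S.K * C) * d (n + 1) ^ 2) := by
    intro n
    have k1 := hrec n
    have k2 : d (n + 1) ^ 2 ≤ 1 / 4 * d n ^ 2 := by
      have := pow_le_pow_left₀ (hd0 (n + 1)) (hdn n) 2
      calc d (n + 1) ^ 2 ≤ (1 / 2 * d n) ^ 2 := this
        _ = _ := by ring
    have k3 : (S.K * C) * d (n + 1) ^ 2 ≤ (S.K * C) * (1 / 4 * d n ^ 2) :=
      mul_le_mul_of_nonneg_left k2 (by positivity)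
    have k4 : 0 ≤ (S.K * C) * d n ^ 2 := by positivity
    nlinarith
  have hphi' : ∀ n, ‖u 0‖ - 1 / 4 * (S.K * C) * d 0 ^ 2 ≤
      (1 / 16) ^ n * (‖u n‖ - 1 / 4 * (S.K * C) * d n ^ 2) := by
    intro n
    induction n with
    | zero => simp
    | succ n ih =>
      have k1 := mul_le_mul_of_nonneg_left (hphi n) (show (0:ℝ) ≤ (1 / 16) ^ n by positivity)
      have k2 : (1 / 16 : ℝ) ^ (n + 1) = (1 / 16) ^ n * (1 / 16) := pow_succ _ _
      rw [k2]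
      linarith
  -- bound on `u n`
  have hdd : ∀ n, d n ≤ d 0 := by
    intro n
    induction n with
    | zero => exact le_rfl
    | succ n ih => linarith [hdn n, hd0 n]
  have hun : ∀ n, ‖u n‖ ≤ S.K * (d 0 + C * d 0 ^ 2) := by
    intro n
    obtain ⟨-, k1⟩ := S.angle _ _ (hs n) _ (hu n)
    have k2 : ‖s n + u n‖ ≤ d 0 + C * d 0 ^ 2 := by
      have e1 : s n + u n = (S.e (S.g^[n] y) - S.e (S.g^[n] x)) -
          (S.e (S.g^[n] y) - S.e (S.g^[n] x) - (s n + u n)) := by abel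
      rw [e1]
      have k3 := norm_sub_le (S.e (S.g^[n] y) - S.e (S.g^[n] x))
        (S.e (S.g^[n] y) - S.e (S.g^[n] x) - (s n + u n))
      have k4 : ‖S.e (S.g^[n] y) - S.e (S.g^[n] x)‖ = d n := by
        rw [← S.isom, dist_comm]
      have k5 := h1 n
      have k6 : C * d n ^ 2 ≤ C * d 0 ^ 2 :=
        mul_le_mul_of_nonneg_left (pow_le_pow_left₀ (hd0 n) (hdd n) 2) hC.le
      change _ ≤ C * d n ^ 2 at k5
      linarith [hdd n]
    exact k1.trans (mul_le_mul_of_nonneg_left k2 (by linarith))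
  have hlim : ‖u 0‖ - 1 / 4 * (S.K * C) * d 0 ^ 2 ≤ 0 := by
    have t1 : Tendsto (fun n : ℕ => (1 / 16 : ℝ) ^ n * (S.K * (d 0 + C * d 0 ^ 2))) atTop
        (𝓝 0) := by
      have := (tendsto_pow_atTop_nhds_zero_of_lt_one (by norm_num : (0:ℝ) ≤ 1 / 16)
        (by norm_num)).mul_const (S.K * (d 0 + C * d 0 ^ 2))
      simpa using this
    refine ge_of_tendsto' t1 fun n => (hphi' n).trans ?_
    apply mul_le_mul_of_nonneg_left _ (by positivity)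
    have : 0 ≤ 1 / 4 * (S.K * C) * d n ^ 2 := by positivity
    linarith [hun n]
  refine ⟨s 0, hs 0, u 0, hu 0, h1 0, h2 0, ?_⟩
  have : 0 ≤ S.K * C * d 0 ^ 2 := by positivity
  have e1 : d 0 = dist x y := rfl
  rw [e1] at hlim this
  linarith

/-- Projection of a point almost in an unstable direction to the local unstable set. -/
theorem projU [CompactSpace X] (S : HypSys X E) (η : ℝ) (hη : 0 < η) :
    ∃ η₁ > 0, ∃ r > 0, ∀ x y, ∀ w ∈ S.Vu x, ‖w‖ < r → ‖S.e y - S.e x - w‖ ≤ η₁ * ‖w‖ →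
      ∃ z, S.URel (12 * (S.K * ‖w‖)) x z ∧ S.SRel (12 * (S.K * ‖w‖)) y z ∧
        ‖S.e z - S.e x - w‖ ≤ η * ‖w‖ := by
  have hK := S.one_le_K
  have hK0 : 0 < S.K := by linarith
  set K := S.K with hKdef
  set η₁ := min (1 / 4) (η / (200 * K ^ 2)) with hη₁
  have hη₁0 : 0 < η₁ := lt_min (by norm_num) (by positivity)
  have hη₁1 : η₁ ≤ 1 / 4 := min_le_left _ _
  have hη₁2 : 200 * K ^ 2 * η₁ ≤ η := by
    have : η₁ ≤ η / (200 * K ^ 2) := min_le_right _ _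
    rw [le_div_iff₀ (by positivity)] at this
    linarith
  obtain ⟨ε₀, hε₀, hlp⟩ := S.local_product
  obtain ⟨εs, hεs, hcS⟩ := S.coneS η₁ hη₁0 (by linarith)
  obtain ⟨εu, hεu, hcU⟩ := S.symm.coneS η₁ hη₁0 (by linarith)
  obtain ⟨r3, hr3, hA3⟩ := S.A3 η₁ hη₁0
  set ρ := min (min ε₀ εs) (min εu (r3 / 2)) with hρ
  have hρ0 : 0 < ρ := lt_min (lt_min hε₀ hεs) (lt_min hεu (by positivity))
  refine ⟨η₁, hη₁0, ρ / (20 * K), by positivity, fun x y w hw hwr hy => ?_⟩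
  have hw20 : 20 * K * ‖w‖ ≤ ρ := by
    rw [lt_div_iff₀ (by positivity)] at hwr
    linarith
  have hn0 : 0 ≤ ‖w‖ := norm_nonneg w
  have hKw : ‖w‖ ≤ K * ‖w‖ := by nlinarith
  have hρε₀ : ρ ≤ ε₀ := (min_le_left _ _).trans (min_le_left _ _)
  have hρs : ρ ≤ εs := (min_le_left _ _).trans (min_le_right _ _)
  have hρu : ρ ≤ εu := (min_le_right _ _).trans (min_le_left _ _)
  have hρr3 : ρ ≤ r3 / 2 := (min_le_right _ _).trans (min_le_right _ _)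
  have hdist : ∀ p q : X, dist p q = ‖S.e q - S.e p‖ := fun p q => by
    rw [dist_comm, S.isom]
  have hxy : dist x y ≤ 5 / 4 * ‖w‖ := by
    rw [hdist]
    have h1 := norm_add_le (S.e y - S.e x - w) w
    rw [sub_add_cancel] at h1
    have h2 : η₁ * ‖w‖ ≤ 1 / 4 * ‖w‖ := mul_le_mul_of_nonneg_right hη₁1 hn0
    linarith
  have hKd : K * dist x y ≤ 5 / 4 * (K * ‖w‖) := by
    have := mul_le_mul_of_nonneg_left hxy hK0.le
    linarith
  obtain ⟨z, hz1, hz2⟩ := hlp y x (by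
    rw [dist_comm]
    have : 20 * K * ‖w‖ = 20 * (K * ‖w‖) := by ring
    linarith)
  rw [dist_comm y x] at hz1 hz2
  have h12 : 9 * K * dist x y ≤ 12 * (K * ‖w‖) := by
    have : 9 * K * dist x y = 9 * (K * dist x y) := by ring
    linarith
  have h12' : 12 * (K * ‖w‖) ≤ ρ := by
    have : 20 * K * ‖w‖ = 20 * (K * ‖w‖) := by ring
    have : 0 ≤ K * ‖w‖ := by positivity
    linarith
  have hz1' : S.SRel ρ z y := (hz1.symm).mono (h12.trans h12')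
  have hz2' : S.URel ρ x z := (hz2.symm).mono (h12.trans h12')
  have hdzy : dist z y ≤ 12 * (K * ‖w‖) := (hz1.symm).dist_le.trans h12
  have hdxz : dist x z ≤ 12 * (K * ‖w‖) := (hz2.symm).dist_le.trans h12
  refine ⟨z, (hz2.symm).mono h12, hz1.mono h12, ?_⟩
  obtain ⟨u, hu, s, hs, h1, -, h2⟩ := hcU x z (fun k => (hz2' k).trans hρu)
  obtain ⟨s₁, hs₁, u₁, hu₁, h3, -, h4⟩ := hcS z y (fun k => (hz1' k).trans hρs)
  have h1' : ‖S.e z - S.e x - (u + s)‖ ≤ η₁ * dist x z := h1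
  -- transport s₁ to x
  obtain ⟨s₂, hs₂, h5⟩ := hA3 z x (by
    rw [dist_comm]
    have := hz2'.dist_le
    linarith) s₁ hs₁
  have hb1 : η₁ * dist x z ≤ 12 * K * (η₁ * ‖w‖) := by
    calc η₁ * dist x z ≤ η₁ * (12 * (K * ‖w‖)) := mul_le_mul_of_nonneg_left hdxz hη₁0.le
      _ = _ := by ring
  have hb2 : η₁ * dist z y ≤ 12 * K * (η₁ * ‖w‖) := by
    calc η₁ * dist z y ≤ η₁ * (12 * (K * ‖w‖)) := mul_le_mul_of_nonneg_left hdzy hη₁0.le
      _ = _ := by ring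
  have hs₁n : ‖s₁‖ ≤ 18 * (K * ‖w‖) := by
    have e1 : s₁ = (S.e y - S.e z) - (S.e y - S.e z - (s₁ + u₁)) - u₁ := by abel
    have h6 := norm_sub_le ((S.e y - S.e z) - (S.e y - S.e z - (s₁ + u₁))) u₁
    have h7 := norm_sub_le (S.e y - S.e z) (S.e y - S.e z - (s₁ + u₁))
    rw [← e1] at h6
    rw [← hdist z y] at h7
    have h8 : η₁ * dist z y ≤ 1 / 4 * dist z y := mul_le_mul_of_nonneg_right hη₁1 dist_nonneg
    linarith
  have h6 : ‖s₁ - s₂‖ ≤ 18 * K * (η₁ * ‖w‖) := by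
    calc ‖s₁ - s₂‖ ≤ η₁ * ‖s₁‖ := h5
      _ ≤ η₁ * (18 * (K * ‖w‖)) := mul_le_mul_of_nonneg_left hs₁n hη₁0.le
      _ = _ := by ring
  -- comparison
  have h7 : ‖s₂ + (u - w)‖ ≤ 67 * K * (η₁ * ‖w‖) := by
    have e1 : s₂ + (u - w) = (S.e y - S.e x - w) - (S.e y - S.e z - (s₁ + u₁)) -
        (S.e z - S.e x - (u + s)) - s - u₁ - (s₁ - s₂) := by abel
    rw [e1]
    have h8 := norm_sub_le ((S.e y - S.e x - w) - (S.e y - S.e z - (s₁ + u₁)) -
        (S.e z - S.e x - (u + s)) - s - u₁) (s₁ - s₂)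
    have h9 := norm_sub_le ((S.e y - S.e x - w) - (S.e y - S.e z - (s₁ + u₁)) -
        (S.e z - S.e x - (u + s)) - s) u₁
    have h10 := norm_sub_le ((S.e y - S.e x - w) - (S.e y - S.e z - (s₁ + u₁)) -
        (S.e z - S.e x - (u + s))) s
    have h11 := norm_sub_le ((S.e y - S.e x - w) - (S.e y - S.e z - (s₁ + u₁)))
        (S.e z - S.e x - (u + s))
    have h13 := norm_sub_le (S.e y - S.e x - w) (S.e y - S.e z - (s₁ + u₁))
    have h14 : η₁ * ‖w‖ ≤ K * (η₁ * ‖w‖) := by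
      have : 0 ≤ η₁ * ‖w‖ := by positivity
      nlinarith
    linarith
  obtain ⟨-, h8⟩ := S.angle x s₂ hs₂ (u - w) (Submodule.sub_mem _ hu hw)
  have h9 : ‖u - w‖ ≤ 67 * K ^ 2 * (η₁ * ‖w‖) := by
    calc ‖u - w‖ ≤ K * ‖s₂ + (u - w)‖ := h8
      _ ≤ K * (67 * K * (η₁ * ‖w‖)) := mul_le_mul_of_nonneg_left h7 hK0.le
      _ = _ := by ring
  have h10 : ‖S.e z - S.e x - w‖ ≤ 24 * K * (η₁ * ‖w‖) + 67 * K ^ 2 * (η₁ * ‖w‖) := by
    have e1 : S.e z - S.e x - w = (S.e z - S.e x - (u + s)) + s + (u - w) := by abel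
    rw [e1]
    have h11 := norm_add_le ((S.e z - S.e x - (u + s)) + s) (u - w)
    have h13 := norm_add_le (S.e z - S.e x - (u + s)) s
    linarith
  have h11 : K ≤ K ^ 2 := by nlinarith
  have h13 : 0 ≤ η₁ * ‖w‖ := by positivity
  have h14 : 24 * K * (η₁ * ‖w‖) ≤ 24 * K ^ 2 * (η₁ * ‖w‖) :=
    mul_le_mul_of_nonneg_right (by linarith) h13
  have h15 : 200 * K ^ 2 * η₁ * ‖w‖ ≤ η * ‖w‖ := mul_le_mul_of_nonneg_right hη₁2 hn0
  have h16 : 0 ≤ K ^ 2 * (η₁ * ‖w‖) := by positivity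
  have e2 : 200 * K ^ 2 * η₁ * ‖w‖ = 200 * (K ^ 2 * (η₁ * ‖w‖)) := by ring
  rw [e2] at h15
  have e3 : 24 * K ^ 2 * (η₁ * ‖w‖) = 24 * (K ^ 2 * (η₁ * ‖w‖)) := by ring
  have e4 : 67 * K ^ 2 * (η₁ * ‖w‖) = 67 * (K ^ 2 * (η₁ * ‖w‖)) := by ring
  rw [e3] at h14
  rw [e4] at h10
  linarith

end Pool.Agent.Y330.F
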