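import Pool.Agent.Y330.F.C1

set_option autoImplicit false
set_option linter.unusedSectionVars false

open Filter Topology Set Metric
open scoped InnerProductSpace

namespace Pool.Agent.Y330.F

open Pool.Agent.H789R2.AN Pool.Agent.Y330.G Pool.Agent.H721R2

section closedness

variable {X : Type*} [MetricSpace X] {E : Type*} [NormedAddCommGroup E] [NormedSpace ℝ E]

theorem lpr (S : HypSys X E) [CompactSpace X] : Lpr S.g := by
  obtain ⟨c, hc⟩ := exists_LP S
  exact hc.lp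

theorem Vs_closed [FiniteDimensional ℝ E] (S : HypSys X E) :
    IsClosed {p : X × E | p.2 ∈ S.Vs p.1} := by
  apply isClosed_of_closure_subset
  rintro ⟨x, v⟩ hx
  have hcl : IsClosed (S.Vs x : Set E) := Submodule.closed_of_finiteDimensional _
  show v ∈ S.Vs x
  rw [← SetLike.mem_coe, ← hcl.closure_eq, Metric.mem_closure_iff]
  intro ε hε
  set η := ε / (4 * (‖v‖ + 1)) with hη
  have hη0 : 0 < η := by positivity
  obtain ⟨r, hr, hA3⟩ := S.A3 η hη0
  obtain ⟨⟨y, w⟩, hw, hd⟩ := Metric.mem_closure_iff.mp hx (min r (min (ε / 4) 1))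
    (lt_min hr (lt_min (by linarith) one_pos))
  rw [Prod.dist_eq] at hd
  have hd1 : dist x y < r := (le_max_left _ _).trans_lt (hd.trans_le (min_le_left _ _))
  have hd2 : dist v w < ε / 4 :=
    (le_max_right _ _).trans_lt (hd.trans_le ((min_le_right _ _).trans (min_le_left _ _)))
  have hd3 : dist v w < 1 :=
    (le_max_right _ _).trans_lt (hd.trans_le ((min_le_right _ _).trans (min_le_right _ _)))
  obtain ⟨s', hs', h1⟩ := hA3 y x (by rw [dist_comm]; exact hd1) w hw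
  refine ⟨s', hs', ?_⟩
  have h2 : ‖w‖ ≤ ‖v‖ + 1 := by
    have h3 := norm_sub_norm_le w v
    rw [norm_sub_rev, ← dist_eq_norm] at h3
    linarith
  have h4 : η * ‖w‖ ≤ ε / 4 := by
    calc η * ‖w‖ ≤ η * (‖v‖ + 1) := mul_le_mul_of_nonneg_left h2 hη0.le
      _ = ε / 4 := by rw [hη]; field_simp
  have h5 := dist_triangle v w s'
  rw [dist_eq_norm w s'] at h5
  linarith

end closedness

variable {X : Type*} [MetricSpace X] {E : Type*} [NormedAddCommGroup E] [InnerProductSpace ℝ E]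

/-- continuity of the derivative -/
theorem sm_cont {e : X → E} {T : X → Submodule ℝ E} {b : X → X} {B : X → E →ₗ[ℝ] E} {C r : ℝ}
    (h : SM e T b B C r) {F : X → Submodule ℝ E} (hF : ∀ x, F x ≤ T x) :
    ContinuousOn (fun p : X × E => B p.1 p.2) {p : X × E | p.2 ∈ F p.1} := by
  have hC := h.C_pos
  rintro ⟨x₀, u₀⟩ hu₀
  rw [Metric.continuousWithinAt_iff]
  intro ε hε
  set β := min (min 1 (r / 2)) (ε / (4 * (C * (‖u₀‖ + 1) + C * (C * (‖u₀‖ + 1) + 1)))) with hβ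
  have hpos : 0 < C * (‖u₀‖ + 1) + C * (C * (‖u₀‖ + 1) + 1) := by positivity
  have hr := h.r_pos
  have hβ0 : 0 < β := lt_min (lt_min one_pos (half_pos hr)) (by positivity)
  refine ⟨β, hβ0, ?_⟩
  rintro ⟨x, u⟩ hu hd
  rw [Prod.dist_eq] at hd
  have hd1 : dist x x₀ < β := (le_max_left _ _).trans_lt hd
  have hd2 : dist u u₀ < β := (le_max_right _ _).trans_lt hd
  have hβ1 : β ≤ 1 := (min_le_left _ _).trans (min_le_left _ _)
  have hβ2 : β ≤ r / 2 := (min_le_left _ _).trans (min_le_right _ _)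
  have hβ3 : (C * (‖u₀‖ + 1) + C * (C * (‖u₀‖ + 1) + 1)) * β ≤ ε / 4 := by
    have : β ≤ ε / (4 * (C * (‖u₀‖ + 1) + C * (C * (‖u₀‖ + 1) + 1))) := min_le_right _ _
    rw [le_div_iff₀ (by positivity)] at this
    linarith
  obtain ⟨w, hw, h1, h2⟩ := h.lip x x₀ (by linarith) u (hF x hu)
  have hun : ‖u‖ ≤ ‖u₀‖ + 1 := by
    have h3 := norm_sub_norm_le u u₀
    rw [← dist_eq_norm] at h3
    linarith
  have h4 : C * dist x x₀ * ‖u‖ ≤ C * (‖u₀‖ + 1) * β := by
    calc C * dist x x₀ * ‖u‖ ≤ C * β * (‖u₀‖ + 1) :=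
          mul_le_mul (mul_le_mul_of_nonneg_left hd1.le hC.le) hun (norm_nonneg _) (by positivity)
      _ = _ := by ring
  have h5 : ‖B x₀ (w - u₀)‖ ≤ C * ‖w - u₀‖ :=
    h.bd x₀ _ (Submodule.sub_mem _ hw (hF x₀ hu₀))
  have h6 : ‖w - u₀‖ ≤ C * (‖u₀‖ + 1) * β + β := by
    have e1 : w - u₀ = -(u - w) + (u - u₀) := by abel
    rw [e1]
    have := norm_add_le (-(u - w)) (u - u₀)
    rw [norm_neg] at this
    rw [dist_eq_norm] at hd2
    linarith
  have h7 : ‖B x₀ (w - u₀)‖ ≤ C * (C * (‖u₀‖ + 1) * β + β) :=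
    h5.trans (mul_le_mul_of_nonneg_left h6 hC.le)
  rw [dist_eq_norm]
  show ‖B x u - B x₀ u₀‖ < ε
  have e1 : B x u - B x₀ u₀ = (B x u - B x₀ w) + B x₀ (w - u₀) := by rw [map_sub]; abel
  rw [e1]
  have h8 := norm_add_le (B x u - B x₀ w) (B x₀ (w - u₀))
  have h9 : C * (C * (‖u₀‖ + 1) * β + β) + C * (‖u₀‖ + 1) * β =
    (C * (‖u₀‖ + 1) + C * (C * (‖u₀‖ + 1) + 1)) * β := by ring
  linarith

/-- A pair of commuting hyperbolic systems contracting a common line field. -/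
structure LPair (S S' : HypSys X E) (F : X → Submodule ℝ E) (C r C' r' : ℝ) : Prop where
  he : S'.e = S.e
  comm : ∀ x, S'.g (S.g x) = S.g (S'.g x)
  sm : SM S.e (fun x => S.Vs x ⊔ S.Vu x) S.g S.D C r
  sm' : SM S'.e (fun x => S'.Vs x ⊔ S'.Vu x) S'.g S'.D C' r'
  fs : ∀ x, F x ≤ S.Vs x
  fs' : ∀ x, F x ≤ S'.Vs x
  split : ∀ x, ∀ v ∈ S'.Vs x, ∃ f ∈ F x, ∃ w ∈ S.Vu x, v = f + w
  line : ∀ x, ∃ u ∈ F x, u ≠ 0 ∧ ∀ v ∈ F x, ∃ r : ℝ, v = r • u
  map : ∀ x, ∀ v ∈ F x, S.D x v ∈ F (S.g x)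

theorem zero_of_both (S : HypSys X E) {x : X} {v : E} (h1 : v ∈ S.Vs x) (h2 : v ∈ S.Vu x) :
    v = 0 := by
  obtain ⟨h3, -⟩ := S.angle x v h1 (-v) (Submodule.neg_mem _ h2)
  rw [add_neg_cancel, norm_zero, mul_zero] at h3
  exact norm_le_zero_iff.mp h3

theorem mk_LF [CompactSpace X] [FiniteDimensional ℝ E] {S S' : HypSys X E}
    {F : X → Submodule ℝ E} {C r C' r' : ℝ} (P : LPair S S' F C r C' r') :
    ∃ ε₀ C₀ Λ, LF S.g S'.g S.e F S.D ε₀ C₀ Λ := by
  obtain ⟨ε1, hε1, hc1⟩ := sctr S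
  obtain ⟨ε2, hε2, hc2⟩ := sctr S'
  obtain ⟨ε2', hε2', hc2'⟩ := sctr S'.symm
  obtain ⟨ε3, hε3, hq⟩ := coneQ S P.sm
  obtain ⟨ε4, hε4, hq'⟩ := coneQ S' P.sm'
  set ε5 := min (min ε1 ε2) (min ε3 ε4) with hε5
  have hε5' : 0 < ε5 := lt_min (lt_min hε1 hε2) (lt_min hε3 hε4)
  have e51 : ε5 ≤ ε1 := (min_le_left _ _).trans (min_le_left _ _)
  have e52 : ε5 ≤ ε2 := (min_le_left _ _).trans (min_le_right _ _)
  have e53 : ε5 ≤ ε3 := (min_le_right _ _).trans (min_le_left _ _)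
  have e54 : ε5 ≤ ε4 := (min_le_right _ _).trans (min_le_right _ _)
  obtain ⟨ε₀, hε₀, hε₀', hj⟩ := joint hε5' P.comm (hc1.mono e51) (hc2.mono e52)
  have hC := P.sm.C_pos
  have hC' := P.sm'.C_pos
  have hK := S.one_le_K
  have hK' := S'.one_le_K
  have hLu := S.one_le_Lu
  set A := S.K * (C + C' + S'.K * C') with hA
  have hA0 : 0 < A := by positivity
  set C₀ := C + A + S.Lu * (S.K * C) with hC₀
  have hC₀0 : 0 < C₀ := by positivity
  have hKK : S.K * C ≤ S.Lu * (S.K * C) := by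
    have : 0 ≤ S.K * C := by positivity
    nlinarith
  refine ⟨ε₀, C₀, S.Ls, {
    isom := S.isom
    comm := P.comm
    pos := hε₀
    C_pos := hC₀0
    L_pos := S.one_le_Ls
    ctr := hc1.mono (hε₀'.trans e51)
    ctr' := hc2.mono (hε₀'.trans e52)
    jt := hj
    line := P.line
    clF := ?_
    map := P.map
    contr := ?_
    lower := ?_
    quad := ?_
    Dcont := sm_cont P.sm fun x => (P.fs x).trans le_sup_left
    dir := ?_ }⟩
  · -- closedness
    have h1 := (Vs_closed S).inter (Vs_closed S')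
    have h2 : {p : X × E | p.2 ∈ F p.1} = {p : X × E | p.2 ∈ S.Vs p.1} ∩
        {p : X × E | p.2 ∈ S'.Vs p.1} := by
      ext ⟨x, v⟩
      constructor
      · intro h
        exact ⟨P.fs x h, P.fs' x h⟩
      · rintro ⟨h3, h4⟩
        obtain ⟨f, hf, w, hw, hv⟩ := P.split x v h4
        have h5 : w ∈ S.Vs x := by
          have : w = v - f := by rw [hv]; abel
          rw [this]
          exact Submodule.sub_mem _ h3 (P.fs x hf)
        have h6 := zero_of_both S h5 hw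
        show v ∈ F x
        rw [hv, h6, add_zero]
        exact hf
    rw [h2]
    exact h1
  · intro x v hv
    have h1 := S.contrS x v (P.fs x hv)
    have h2 : S.a ≤ 1 / 2 := (a_lt_half S).le
    exact h1.trans (mul_le_mul_of_nonneg_right h2 (norm_nonneg _))
  · intro x v hv
    have h1 := S.boundS _ _ (S.mapS x v (P.fs x hv))
    rw [S.invS x v (P.fs x hv)] at h1
    exact h1
  · intro x y hxy
    obtain ⟨s, hs, u, hu, a1, a2, a3⟩ := hq x y (hxy.1.mono (hε₀'.trans e53))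
    obtain ⟨s', hs', u', hu', b1, -, b3⟩ := hq' x y (hxy.2.mono (hε₀'.trans e54))
    obtain ⟨f, hf, w, hw, hfw⟩ := P.split x s' hs'
    rw [P.he] at b1
    set d := dist x y with hd
    have hd2 : 0 ≤ d ^ 2 := by positivity
    have k1 : ‖(s - f) + (u - w)‖ ≤ (C + C' + S'.K * C') * d ^ 2 := by
      have e1 : (s - f) + (u - w) = (S.e y - S.e x - (s' + u')) - (S.e y - S.e x - (s + u)) +
          u' := by rw [hfw]; abel
      rw [e1]
      have k2 := norm_add_le ((S.e y - S.e x - (s' + u')) - (S.e y - S.e x - (s + u))) u'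
      have k3 := norm_sub_le (S.e y - S.e x - (s' + u')) (S.e y - S.e x - (s + u))
      linarith
    obtain ⟨k2, -⟩ := S.angle x (s - f) (Submodule.sub_mem _ hs (P.fs x hf)) (u - w)
      (Submodule.sub_mem _ hu hw)
    have k3 : ‖s - f‖ ≤ A * d ^ 2 := by
      calc ‖s - f‖ ≤ S.K * ‖(s - f) + (u - w)‖ := k2
        _ ≤ S.K * ((C + C' + S'.K * C') * d ^ 2) := mul_le_mul_of_nonneg_left k1 (by linarith)
        _ = _ := by rw [hA]; ring
    refine ⟨f, hf, ?_, ?_⟩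
    · have e1 : S.e y - S.e x - f = (S.e y - S.e x - (s + u)) + (s - f) + u := by abel
      rw [e1]
      have k4 := norm_add_le ((S.e y - S.e x - (s + u)) + (s - f)) u
      have k5 := norm_add_le (S.e y - S.e x - (s + u)) (s - f)
      have k6 : S.K * C * d ^ 2 ≤ S.Lu * (S.K * C) * d ^ 2 := mul_le_mul_of_nonneg_right hKK hd2
      have k7 : C₀ * d ^ 2 = C * d ^ 2 + A * d ^ 2 + S.Lu * (S.K * C) * d ^ 2 := by
        rw [hC₀]; ring
      rw [k7]
      linarith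
    · have e1 : S.e (S.g y) - S.e (S.g x) - S.D x f =
          (S.e (S.g y) - S.e (S.g x) - S.D x (s + u)) + S.D x (s - f) + S.D x u := by
        rw [map_add, map_sub]; abel
      rw [e1]
      have k4 := norm_add_le ((S.e (S.g y) - S.e (S.g x) - S.D x (s + u)) + S.D x (s - f))
        (S.D x u)
      have k5 := norm_add_le (S.e (S.g y) - S.e (S.g x) - S.D x (s + u)) (S.D x (s - f))
      have k6 := S.contrS x (s - f) (Submodule.sub_mem _ hs (P.fs x hf))
      have k7 : S.a * ‖s - f‖ ≤ 1 * ‖s - f‖ :=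
        mul_le_mul_of_nonneg_right (by linarith [a_lt_half S]) (norm_nonneg _)
      have k8 : ‖S.D x u‖ ≤ S.Lu * (S.K * C) * d ^ 2 := by
        calc ‖S.D x u‖ ≤ S.Lu * ‖u‖ := S.boundU x u hu
          _ ≤ S.Lu * (S.K * C * d ^ 2) := mul_le_mul_of_nonneg_left a3 (by linarith)
          _ = _ := by ring
      have k9 : C₀ * d ^ 2 = C * d ^ 2 + A * d ^ 2 + S.Lu * (S.K * C) * d ^ 2 := by
        rw [hC₀]; ring
      rw [k9]
      linarith
  · -- direction
    intro η hη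
    obtain ⟨η₁, hη₁, r₁, hr₁, hp1⟩ := projU S'.symm η hη
    obtain ⟨η₂, hη₂, r₂, hr₂, hp2⟩ := projU S.symm η₁ hη₁
    obtain ⟨r₃, hr₃, hA2⟩ := S.A2 η₂ hη₂
    set ε6 := min ε2 ε2' with hε6
    have hε6' : 0 < ε6 := lt_min hε2 hε2'
    have hlp' : Lpr S'.g := lpr S'
    obtain ⟨δ, hδ, hb⟩ := brk (g := S'.g) (h := S.g)
      (lt_min hε6' hε₀ : 0 < min ε6 ε₀) (fun x => (P.comm x).symm)
      (hc2.mono ((min_le_left _ _).trans (min_le_left _ _)))
      hlp' (lt_min (half_pos hε6') hε₀ : 0 < min (ε6 / 2) ε₀)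
    set ρ := min (min (min r₁ r₂) (min r₃ (ε6 / (24 * S'.K)))) (min (δ / (12 * S.K))
      (ε₀ / (12 * S'.K))) with hρ
    have hρ0 : 0 < ρ := by positivity
    refine ⟨ρ / 2, half_pos hρ0, fun x v hv hvn => ?_⟩
    have hvρ : ‖v‖ < ρ := by linarith
    have g1 : ‖v‖ < r₁ := hvρ.trans_le ((min_le_left _ _).trans ((min_le_left _ _).trans
      (min_le_left _ _)))
    have g2 : ‖v‖ < r₂ := hvρ.trans_le ((min_le_left _ _).trans ((min_le_left _ _).trans
      (min_le_right _ _)))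
    have g3 : ‖v‖ < r₃ := hvρ.trans_le ((min_le_left _ _).trans ((min_le_right _ _).trans
      (min_le_left _ _)))
    have g4 : 12 * (S'.K * ‖v‖) ≤ ε6 / 2 := by
      have : ‖v‖ < ε6 / (24 * S'.K) := hvρ.trans_le ((min_le_left _ _).trans
        ((min_le_right _ _).trans (min_le_right _ _)))
      rw [lt_div_iff₀ (by positivity)] at this
      linarith
    have g5 : 12 * (S.K * ‖v‖) ≤ δ := by
      have : ‖v‖ < δ / (12 * S.K) := hvρ.trans_le ((min_le_right _ _).trans (min_le_left _ _))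
      rw [lt_div_iff₀ (by positivity)] at this
      linarith
    have g6 : 12 * (S'.K * ‖v‖) ≤ ε₀ := by
      have : ‖v‖ < ε₀ / (12 * S'.K) := hvρ.trans_le ((min_le_right _ _).trans (min_le_right _ _))
      rw [lt_div_iff₀ (by positivity)] at this
      linarith
    obtain ⟨y₀, hy₀⟩ := hA2 x v (P.fs x hv) 0 (Submodule.zero_mem _) (by rw [add_zero]; exact g3)
    rw [add_zero] at hy₀
    obtain ⟨z₁, h1, -, h2⟩ := hp2 x y₀ v (P.fs x hv) g2 hy₀
    have h1' : SR S.g (12 * (S.K * ‖v‖)) x z₁ := h1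
    have h2' : ‖S'.e z₁ - S'.e x - v‖ ≤ η₁ * ‖v‖ := by rw [P.he]; exact h2
    obtain ⟨z₂, h3, h4, h5⟩ := hp1 x z₁ v (P.fs' x hv) g1 h2'
    have h3' : SR S'.g (12 * (S'.K * ‖v‖)) x z₂ := h3
    have h4' : SR S'.g.symm (12 * (S'.K * ‖v‖)) z₁ z₂ := h4
    obtain ⟨z, b1, b2, b3⟩ := hb x z₁ (h1'.mono g5)
    have hzz : z = z₂ := by
      apply (hc2.mono (min_le_left ε2 ε2')).expans
      · refine (sr_tr b1.symm' h3').mono ?_
        have := min_le_left (ε6 / 2) ε₀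
        linarith
      · refine (sr_tr b2.symm' h4').mono ?_
        have := min_le_left (ε6 / 2) ε₀
        linarith
    refine ⟨z₂, ⟨?_, ?_⟩, ?_⟩
    · rw [← hzz]; exact b3.mono (min_le_right _ _)
    · exact h3'.mono g6
    · have h5' : ‖S'.e z₂ - S'.e x - v‖ ≤ η * ‖v‖ := h5
      rw [P.he] at h5'
      exact h5'

end Pool.Agent.Y330.F
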