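import Pool.Agent.Y330.F.C2
import Pool.Agent.H721R2.Box

set_option autoImplicit false
set_option linter.unusedSectionVars false

open Filter Topology Set Metric
open scoped InnerProductSpace

namespace Pool.Agent.Y330.F

open Pool.Agent.H789R2.AN Pool.Agent.Y330.G Pool.Agent.H721R2

variable {X : Type*} [MetricSpace X] {E : Type*} [NormedAddCommGroup E] [NormedSpace ℝ E]

/-- **Hölder continuity of the stable field** along the scale `2^{-k}`. -/
theorem holderS (S : HypSys X E) {C r : ℝ}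
    (hS : SM S.e (fun x => S.Vs x ⊔ S.Vu x) S.g S.D C r) :
    ∃ ρ > 0, ∃ M > 0, ∃ θ : ℝ, 1 / 2 ≤ θ ∧ θ < 1 ∧ ∀ θ' : ℝ, θ ≤ θ' → θ' < 1 →
      ∀ (k : ℕ) (x y : X), dist x y ≤ ρ * (1 / 2) ^ k → ∀ v ∈ S.Vs x, ∃ s ∈ S.Vs y,
        ‖v - s‖ ≤ M * θ' ^ k * ‖v‖ := by
  have hC := hS.C_pos
  have hr := hS.r_pos
  have hK := S.one_le_K
  have hK0 : 0 < S.K := by linarith
  obtain ⟨r₁, hr₁, Λ, hΛ, hlip⟩ := S.local_lip
  obtain ⟨L, hL⟩ := pow_unbounded_of_one_lt Λ (by norm_num : (1:ℝ) < 2)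
  set ρ := min (min (r / 2) (r₁ / 2)) 1 with hρ
  have hρ0 : 0 < ρ := lt_min (lt_min (half_pos hr) (half_pos hr₁)) one_pos
  have hρ1 : ρ ≤ r / 2 := (min_le_left _ _).trans (min_le_left _ _)
  have hρ2 : ρ ≤ r₁ / 2 := (min_le_left _ _).trans (min_le_right _ _)
  have hρ3 : ρ ≤ 1 := min_le_right _ _
  have hb : S.b ≤ 1 / 16 := by
    have := S.Kb
    have := S.b_nonneg
    nlinarith
  have ha : S.a ≤ 1 := by linarith [a_lt_half S]
  set C₆ := C + 2 * C ^ 2 + C * Λ with hC₆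
  have hC₆0 : 0 < C₆ := by positivity
  set M := 2 * (S.K * C₆) + 4 * (S.K * (1 + C)) with hM
  have hM0 : 0 < M := by positivity
  -- choice of θ
  have hL1 : (0:ℝ) < 2 * ((L:ℝ) + 1) := by positivity
  set θ : ℝ := 1 - 1 / (2 * ((L:ℝ) + 1)) with hθ
  have hfrac : 1 / (2 * ((L:ℝ) + 1)) ≤ 1 / 2 := by
    rw [div_le_div_iff₀ hL1 (by norm_num)]
    linarith [Nat.cast_nonneg (α := ℝ) L]
  have hfrac0 : 0 < 1 / (2 * ((L:ℝ) + 1)) := by positivity
  have hθ1 : 1 / 2 ≤ θ := by rw [hθ]; linarith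
  have hθ2 : θ < 1 := by rw [hθ]; linarith
  have hθL : 1 / 2 ≤ θ ^ L := by
    have h1 := one_add_mul_le_pow (a := -(1 / (2 * ((L:ℝ) + 1)))) (by linarith) L
    have h2 : (1:ℝ) + (L:ℝ) * -(1 / (2 * ((L:ℝ) + 1))) ≥ 1 / 2 := by
      have : (L:ℝ) * (1 / (2 * ((L:ℝ) + 1))) ≤ 1 / 2 := by
        rw [mul_one_div, div_le_div_iff₀ hL1 (by norm_num)]
        linarith
      linarith
    have h3 : (1:ℝ) + -(1 / (2 * ((L:ℝ) + 1))) = θ := by rw [hθ]; ring
    rw [h3] at h1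
    linarith
  refine ⟨ρ, hρ0, C + M, by positivity, θ, hθ1, hθ2, fun θ' hθ' hθ'1 => ?_⟩
  have hθ'0 : 0 < θ' := by linarith
  have hθ'h : 1 / 2 ≤ θ' := hθ1.trans hθ'
  have hθ'L : 1 / 2 ≤ θ' ^ L := hθL.trans (pow_le_pow_left₀ (by linarith) hθ' L)
  have key : ∀ (k : ℕ) (x y : X) (v s u : E), dist x y ≤ ρ * (1 / 2) ^ k → v ∈ S.Vs x →
      s ∈ S.Vs y → u ∈ S.Vu y → ‖v - (s + u)‖ ≤ C * dist x y * ‖v‖ → ‖u‖ ≤ M * θ' ^ k * ‖v‖ := by
    intro k
    induction k using Nat.strong_induction_on with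
    | _ k ih =>
    intro x y v s u hd hv hs hu hvsu
    have hn : 0 ≤ ‖v‖ := norm_nonneg v
    have hd1 : dist x y ≤ ρ := by
      have : ρ * (1 / 2) ^ k ≤ ρ * 1 := mul_le_mul_of_nonneg_left (half_pow_le k) hρ0.le
      linarith
    have hdn : 0 ≤ dist x y := dist_nonneg
    by_cases hk : k < L
    · obtain ⟨-, h1⟩ := S.angle y s hs u hu
      have h2 : ‖s + u‖ ≤ (1 + C) * ‖v‖ := by
        have e1 : s + u = v - (v - (s + u)) := by abel
        have h3 := norm_sub_le v (v - (s + u))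
        rw [← e1] at h3
        have h4 : C * dist x y * ‖v‖ ≤ C * ‖v‖ := by
          have : C * dist x y ≤ C * 1 := mul_le_mul_of_nonneg_left (hd1.trans hρ3) hC.le
          nlinarith
        linarith
      have h3 : ‖u‖ ≤ S.K * (1 + C) * ‖v‖ := by
        calc ‖u‖ ≤ S.K * ‖s + u‖ := h1
          _ ≤ S.K * ((1 + C) * ‖v‖) := mul_le_mul_of_nonneg_left h2 hK0.le
          _ = _ := by ring
      have h4 : θ' ^ L ≤ θ' ^ k := pow_le_pow_of_le_one hθ'0.le hθ'1.le hk.le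
      have h5 : S.K * (1 + C) ≤ M * θ' ^ k := by
        have h6 : M * (1 / 2) ≤ M * θ' ^ k := mul_le_mul_of_nonneg_left (by linarith) hM0.le
        have : 0 ≤ S.K * C₆ := by positivity
        have : 0 ≤ S.K * (1 + C) := by positivity
        linarith
      exact h3.trans (mul_le_mul_of_nonneg_right h5 hn)
    · push Not at hk
      -- image pair
      have hdg : dist (S.g x) (S.g y) ≤ Λ * dist x y := hlip x y (by linarith)
      have hdg' : dist (S.g x) (S.g y) ≤ ρ * (1 / 2) ^ (k - L) := by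
        have h1 : Λ * dist x y ≤ 2 ^ L * (ρ * (1 / 2) ^ k) :=
          mul_le_mul hL.le hd hdn (by positivity)
        have h2 : (2:ℝ) ^ L * (ρ * (1 / 2) ^ k) = ρ * (1 / 2) ^ (k - L) := by
          have : (1 / 2 : ℝ) ^ k = (1 / 2) ^ (k - L) * (1 / 2) ^ L := by
            rw [← pow_add]; congr 1; omega
          rw [this]
          have h3 : (2:ℝ) ^ L * (1 / 2) ^ L = 1 := by rw [← mul_pow]; norm_num
          calc (2:ℝ) ^ L * (ρ * ((1 / 2) ^ (k - L) * (1 / 2) ^ L)) =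
              ρ * (1 / 2) ^ (k - L) * (2 ^ L * (1 / 2) ^ L) := by ring
            _ = _ := by rw [h3]; ring
        linarith
      have hdgr : dist (S.g x) (S.g y) < r := by
        have : ρ * (1 / 2) ^ (k - L) ≤ ρ * 1 :=
          mul_le_mul_of_nonneg_left (half_pow_le _) hρ0.le
        linarith
      have hvT : v ∈ S.Vs x ⊔ S.Vu x := Submodule.mem_sup_left hv
      obtain ⟨w₀, hw₀, h1, h2⟩ := hS.lip x y (by linarith) v hvT
      have hv₁ : S.D x v ∈ S.Vs (S.g x) := S.mapS x v hv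
      obtain ⟨w₁, hw₁, h3, -⟩ := hS.lip _ _ hdgr (S.D x v) (Submodule.mem_sup_left hv₁)
      obtain ⟨s₁, hs₁, u₁, hu₁, hsu₁⟩ := Submodule.mem_sup.mp hw₁
      rw [← hsu₁] at h3
      have hDv : ‖S.D x v‖ ≤ ‖v‖ := by
        have := S.contrS x v hv
        have : S.a * ‖v‖ ≤ 1 * ‖v‖ := mul_le_mul_of_nonneg_right ha hn
        linarith
      by_cases hkL : L = 0
      · -- Λ < 1 impossible
        exfalso
        rw [hkL, pow_zero] at hL
        linarith
      have hlt : k - L < k := by omega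
      have h4 := ih (k - L) hlt _ _ _ _ _ hdg' hv₁ hs₁ hu₁ h3
      -- comparison
      have h5 : ‖(s + u) - w₀‖ ≤ 2 * C * dist x y * ‖v‖ := by
        have e1 : (s + u) - w₀ = (v - w₀) - (v - (s + u)) := by abel
        rw [e1]
        have := norm_sub_le (v - w₀) (v - (s + u))
        linarith
      have hsuT : s + u ∈ S.Vs y ⊔ S.Vu y := Submodule.add_mem_sup hs hu
      have h6 : ‖S.D y ((s + u) - w₀)‖ ≤ C * (2 * C * dist x y * ‖v‖) :=
        (hS.bd y _ (Submodule.sub_mem _ hsuT hw₀)).trans (mul_le_mul_of_nonneg_left h5 hC.le)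
      have h7 : ‖(s₁ - S.D y s) + (u₁ - S.D y u)‖ ≤ C₆ * dist x y * ‖v‖ := by
        have e1 : (s₁ - S.D y s) + (u₁ - S.D y u) =
            -(S.D x v - (s₁ + u₁)) + (S.D x v - S.D y w₀) - S.D y ((s + u) - w₀) := by
          rw [map_sub, map_add]; abel
        rw [e1]
        have k1 := norm_sub_le (-(S.D x v - (s₁ + u₁)) + (S.D x v - S.D y w₀))
          (S.D y ((s + u) - w₀))
        have k2 := norm_add_le (-(S.D x v - (s₁ + u₁))) (S.D x v - S.D y w₀)
        rw [norm_neg] at k2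
        have k3 : C * dist (S.g x) (S.g y) * ‖S.D x v‖ ≤ C * Λ * dist x y * ‖v‖ := by
          calc C * dist (S.g x) (S.g y) * ‖S.D x v‖ ≤ C * (Λ * dist x y) * ‖v‖ :=
                mul_le_mul (mul_le_mul_of_nonneg_left hdg hC.le) hDv (norm_nonneg _) (by positivity)
            _ = _ := by ring
        have k4 : C₆ * dist x y * ‖v‖ = C * dist x y * ‖v‖ + C * (2 * C * dist x y * ‖v‖) +
          C * Λ * dist x y * ‖v‖ := by rw [hC₆]; ring
        rw [k4]
        linarith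
      obtain ⟨-, h8⟩ := S.angle _ _ (Submodule.sub_mem _ hs₁ (S.mapS y s hs)) _
        (Submodule.sub_mem _ hu₁ (S.mapU y u hu))
      have h9 : ‖u₁ - S.D y u‖ ≤ S.K * C₆ * dist x y * ‖v‖ := by
        calc _ ≤ S.K * _ := h8
          _ ≤ S.K * (C₆ * dist x y * ‖v‖) := mul_le_mul_of_nonneg_left h7 hK0.le
          _ = _ := by ring
      have h10 : ‖S.D y u‖ ≤ ‖u₁‖ + S.K * C₆ * dist x y * ‖v‖ := by
        have := norm_sub_norm_le (S.D y u) u₁
        rw [norm_sub_rev] at this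
        linarith
      have h11 := S.contrU _ _ (S.mapU y u hu)
      rw [S.invU y u hu] at h11
      have h12 : S.b * ‖S.D y u‖ ≤ 1 / 16 * ‖S.D y u‖ :=
        mul_le_mul_of_nonneg_right hb (norm_nonneg _)
      have h13 : ‖u₁‖ ≤ M * θ' ^ (k - L) * ‖v‖ :=
        h4.trans (mul_le_mul_of_nonneg_left hDv (by positivity))
      -- θ'^(k-L) ≤ 2 θ'^k
      have h14 : θ' ^ (k - L) ≤ 2 * θ' ^ k := by
        have e1 : θ' ^ k = θ' ^ (k - L) * θ' ^ L := by rw [← pow_add]; congr 1; omega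
        rw [e1]
        have : θ' ^ (k - L) * (1 / 2) ≤ θ' ^ (k - L) * θ' ^ L :=
          mul_le_mul_of_nonneg_left hθ'L (by positivity)
        linarith
      have h15 : S.K * C₆ * dist x y ≤ S.K * C₆ * θ' ^ k := by
        apply mul_le_mul_of_nonneg_left _ (by positivity)
        have k1 : ρ * (1 / 2) ^ k ≤ 1 * (1 / 2) ^ k :=
          mul_le_mul_of_nonneg_right hρ3 (by positivity)
        have k2 : (1 / 2 : ℝ) ^ k ≤ θ' ^ k := pow_le_pow_left₀ (by norm_num) hθ'h k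
        linarith
      have h16 : S.K * C₆ * dist x y * ‖v‖ ≤ S.K * C₆ * θ' ^ k * ‖v‖ :=
        mul_le_mul_of_nonneg_right h15 hn
      have h17 : M * θ' ^ (k - L) * ‖v‖ ≤ M * (2 * θ' ^ k) * ‖v‖ :=
        mul_le_mul_of_nonneg_right (mul_le_mul_of_nonneg_left h14 hM0.le) hn
      have h18 : S.K * C₆ * θ' ^ k * ‖v‖ ≤ M * θ' ^ k * ‖v‖ := by
        apply mul_le_mul_of_nonneg_right _ hn
        apply mul_le_mul_of_nonneg_right _ (by positivity)
        have : 0 ≤ S.K * (1 + C) := by positivity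
        have : 0 ≤ S.K * C₆ := by positivity
        linarith
      have h19 : 0 ≤ M * θ' ^ k * ‖v‖ := by positivity
      linarith
  intro k x y hd v hv
  have hn : 0 ≤ ‖v‖ := norm_nonneg v
  have hd1 : dist x y ≤ ρ := by
    have : ρ * (1 / 2) ^ k ≤ ρ * 1 := mul_le_mul_of_nonneg_left (half_pow_le k) hρ0.le
    linarith
  obtain ⟨w, hw, h1, -⟩ := hS.lip x y (by linarith) v (Submodule.mem_sup_left hv)
  obtain ⟨s, hs, u, hu, hsu⟩ := Submodule.mem_sup.mp hw
  rw [← hsu] at h1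
  have h2 := key k x y v s u hd hv hs hu h1
  refine ⟨s, hs, ?_⟩
  have e1 : v - s = (v - (s + u)) + u := by abel
  rw [e1]
  have h3 := norm_add_le (v - (s + u)) u
  have h4 : C * dist x y * ‖v‖ ≤ C * θ' ^ k * ‖v‖ := by
    apply mul_le_mul_of_nonneg_right _ hn
    apply mul_le_mul_of_nonneg_left _ hC.le
    have k1 : ρ * (1 / 2) ^ k ≤ 1 * (1 / 2) ^ k :=
      mul_le_mul_of_nonneg_right hρ3 (by positivity)
    have k2 : (1 / 2 : ℝ) ^ k ≤ θ' ^ k := pow_le_pow_left₀ (by norm_num) hθ'h k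
    linarith
  have e2 : (C + M) * θ' ^ k * ‖v‖ = C * θ' ^ k * ‖v‖ + M * θ' ^ k * ‖v‖ := by ring
  rw [e2]
  linarith

end Pool.Agent.Y330.F
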