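import Pool.Agent.Y330.F.C4

set_option autoImplicit false
set_option linter.unusedSectionVars false

open Filter Topology Set Metric
open scoped InnerProductSpace

namespace Pool.Agent.Y330.F

open Pool.Agent.H789R2.AN Pool.Agent.Y330.G Pool.Agent.H721R2

theorem seqlem (κ : ℕ → ℝ) {θ L : ℝ} (hθ0 : 0 ≤ θ) (hθ1 : θ < 1) (hL : 0 ≤ L)
    (hL' : 4 * L ≤ 1 - θ) (h : ∀ k, |κ (k + 1) - κ k| ≤ L * θ ^ k * |κ k|) :
    ∃ ℓ, Tendsto κ atTop (𝓝 ℓ) ∧ |κ 0| ≤ 2 * |ℓ| ∧ ∀ k, |ℓ - κ k| ≤ θ ^ k * |κ 0| := by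
  have hpk : ∀ k : ℕ, 0 ≤ θ ^ k := fun k => pow_nonneg hθ0 k
  have hpk1 : ∀ k : ℕ, θ ^ k ≤ 1 := fun k => pow_le_one₀ hθ0 hθ1.le
  have hκ0 := abs_nonneg (κ 0)
  have key : ∀ k, |κ k - κ 0| ≤ 1 / 2 * |κ 0| * (1 - θ ^ k) ∧
      |κ (k + 1) - κ k| ≤ 1 / 2 * (1 - θ) * |κ 0| * θ ^ k := by
    have step : ∀ k, |κ k - κ 0| ≤ 1 / 2 * |κ 0| * (1 - θ ^ k) →
        |κ (k + 1) - κ k| ≤ 1 / 2 * (1 - θ) * |κ 0| * θ ^ k := by
      intro k hk
      have h1 : |κ k| ≤ 2 * |κ 0| := by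
        have h2 : |κ k| ≤ |κ k - κ 0| + |κ 0| := by
          have := abs_add_le (κ k - κ 0) (κ 0)
          rwa [sub_add_cancel] at this
        have h3 : 1 / 2 * |κ 0| * (1 - θ ^ k) ≤ 1 / 2 * |κ 0| * 1 :=
          mul_le_mul_of_nonneg_left (by linarith [hpk k]) (by linarith)
        linarith
      calc |κ (k + 1) - κ k| ≤ L * θ ^ k * |κ k| := h k
        _ ≤ L * θ ^ k * (2 * |κ 0|) := mul_le_mul_of_nonneg_left h1 (mul_nonneg hL (hpk k))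
        _ = 4 * L * (1 / 2 * |κ 0| * θ ^ k) := by ring
        _ ≤ (1 - θ) * (1 / 2 * |κ 0| * θ ^ k) :=
            mul_le_mul_of_nonneg_right hL' (mul_nonneg (by linarith) (hpk k))
        _ = _ := by ring
    intro k
    induction k with
    | zero =>
      have h0 : |κ 0 - κ 0| ≤ 1 / 2 * |κ 0| * (1 - θ ^ 0) := by simp
      exact ⟨h0, step 0 h0⟩
    | succ k ih =>
      have h1 : |κ (k + 1) - κ 0| ≤ 1 / 2 * |κ 0| * (1 - θ ^ (k + 1)) := by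
        have h2 : |κ (k + 1) - κ 0| ≤ |κ (k + 1) - κ k| + |κ k - κ 0| := by
          have := abs_add_le (κ (k + 1) - κ k) (κ k - κ 0)
          rwa [sub_add_sub_cancel] at this
        calc |κ (k + 1) - κ 0| ≤ 1 / 2 * (1 - θ) * |κ 0| * θ ^ k +
              1 / 2 * |κ 0| * (1 - θ ^ k) := by linarith [ih.1, ih.2]
          _ = _ := by rw [pow_succ]; ring
      exact ⟨h1, step (k + 1) h1⟩
  have hd : ∀ k, dist (κ k) (κ (k + 1)) ≤ 1 / 2 * (1 - θ) * |κ 0| * θ ^ k := fun k => by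
    rw [dist_comm, Real.dist_eq]; exact (key k).2
  obtain ⟨ℓ, hℓ⟩ := cauchySeq_tendsto_of_complete (cauchySeq_of_le_geometric θ _ hθ1 hd)
  have hb : ∀ k, |ℓ - κ k| ≤ 1 / 2 * (θ ^ k * |κ 0|) := by
    intro k
    have h1 := dist_le_of_le_geometric_of_tendsto θ _ hθ1 hd hℓ k
    rw [dist_comm, Real.dist_eq] at h1
    refine h1.trans (le_of_eq ?_)
    have : 1 - θ ≠ 0 := by linarith
    field_simp
  refine ⟨ℓ, hℓ, ?_, fun k => (hb k).trans ?_⟩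
  · have h1 := hb 0
    rw [pow_zero, one_mul] at h1
    have h2 : |κ 0| ≤ |ℓ - κ 0| + |ℓ| := by
      have := abs_sub_abs_le_abs_sub (κ 0) ℓ
      rw [abs_sub_comm] at this
      linarith
    linarith
  · have := mul_nonneg (hpk k) hκ0
    linarith

variable {X : Type*} [MetricSpace X] {E : Type*} [NormedAddCommGroup E] [InnerProductSpace ℝ E]

/-- normalised component of the transported vector -/
noncomputable def kap (β : X → X) (D : X → E →ₗ[ℝ] E) (z : ℝ → X) (n : E) (μ : ℝ) (k : ℕ)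
    (t : ℝ) (u : E) : ℝ := ⟪vec β D k (z t) u, n⟫_ℝ / μ ^ k

/-- Data for the stable holonomy of a line field along a curve asymptotic to a fixed point. -/
structure KH (β : X → X) (D : X → E →ₗ[ℝ] E) (F : X → Submodule ℝ E) (z : ℝ → X) (n : E)
    (μ : ℝ) : Prop where
  contβ : Continuous β
  contz : Continuous z
  mu : 0 < μ
  map : ∀ x, ∀ v ∈ F x, D x v ∈ F (β x)
  line : ∀ x, ∃ u ∈ F x, u ≠ 0 ∧ ∀ v ∈ F x, ∃ r : ℝ, v = r • u
  clF : IsClosed {p : X × E | p.2 ∈ F p.1}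
  Dcont : ContinuousOn (fun p : X × E => D p.1 p.2) {p : X × E | p.2 ∈ F p.1}
  lower : ∃ Λ > 0, ∀ x, ∀ v ∈ F x, ‖v‖ ≤ Λ * ‖D x v‖
  est : ∀ R : ℝ, ∃ C θ : ℝ, ∃ k₀ : ℕ, 0 ≤ C ∧ 0 ≤ θ ∧ θ < 1 ∧ ∀ t, |t| ≤ R → ∀ k ≥ k₀,
    ∀ u ∈ F (β^[k] (z t)), ‖u‖ ≤ 2 * |⟪u, n⟫_ℝ| ∧
      |⟪D (β^[k] (z t)) u, n⟫_ℝ - μ * ⟪u, n⟫_ℝ| ≤ C * θ ^ k * ‖u‖

namespace KH

variable {β : X → X} {D : X → E →ₗ[ℝ] E} {F : X → Submodule ℝ E} {z : ℝ → X} {n : E} {μ : ℝ}

theorem vec_mem (H : KH β D F z n μ) (k : ℕ) (x : X) {u : E} (hu : u ∈ F x) :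
    vec β D k x u ∈ F (β^[k] x) := by
  induction k with
  | zero => exact hu
  | succ k ih =>
    rw [vec_succ, Function.iterate_succ_apply']
    exact H.map _ _ ih

theorem vec_tendsto (H : KH β D F z n μ) {κ : Type*} {l : Filter κ} {x : κ → X} {u : κ → E}
    {x₀ : X} {u₀ : E} (hx : Tendsto x l (𝓝 x₀)) (hu : Tendsto u l (𝓝 u₀))
    (hF : ∀ᶠ k in l, u k ∈ F (x k)) (hF₀ : u₀ ∈ F x₀) (m : ℕ) :
    Tendsto (fun k => vec β D m (x k) (u k)) l (𝓝 (vec β D m x₀ u₀)) := by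
  induction m with
  | zero => exact hu
  | succ m ih =>
    have h1 : Tendsto (fun k => (β^[m] (x k), vec β D m (x k) (u k))) l
        (𝓝[{p : X × E | p.2 ∈ F p.1}] (β^[m] x₀, vec β D m x₀ u₀)) := by
      rw [tendsto_nhdsWithin_iff]
      refine ⟨(((H.contβ.iterate m).tendsto x₀).comp hx).prodMk_nhds ih, ?_⟩
      filter_upwards [hF] with k hk
      exact H.vec_mem m (x k) hk
    exact (H.Dcont (β^[m] x₀, vec β D m x₀ u₀) (H.vec_mem m x₀ hF₀)).tendsto.comp h1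

theorem unif (H : KH β D F z n μ) (R : ℝ) : ∃ (k₁ : ℕ) (c θ : ℝ), 0 < c ∧ 0 ≤ θ ∧ θ < 1 ∧
    ∀ t, |t| ≤ R → ∀ u ∈ F (z t), ∃ ℓ, Tendsto (fun k => kap β D z n μ k t u) atTop (𝓝 ℓ) ∧
      |kap β D z n μ k₁ t u| ≤ 2 * |ℓ| ∧
      (∀ j, |ℓ - kap β D z n μ (k₁ + j) t u| ≤ θ ^ j * |kap β D z n μ k₁ t u|) ∧
      c * ‖u‖ ≤ |kap β D z n μ k₁ t u| := by
  obtain ⟨C, θ, k₀, hC, hθ0, hθ1, hest⟩ := H.est R
  have hμ := H.mu
  have ht : Tendsto (fun k : ℕ => 4 * (2 * C / μ * θ ^ k)) atTop (𝓝 0) := by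
    have := ((tendsto_pow_atTop_nhds_zero_of_lt_one hθ0 hθ1).const_mul (2 * C / μ)).const_mul 4
    simpa using this
  obtain ⟨k₁, hk1, hk2⟩ := (((tendsto_order.mp ht).2 (1 - θ) (by linarith)).and
    (eventually_ge_atTop k₀)).exists
  obtain ⟨Λ, hΛ, hlow⟩ := H.lower
  have hvl : ∀ (k : ℕ) (x : X), ∀ u ∈ F x, ‖u‖ ≤ Λ ^ k * ‖vec β D k x u‖ := by
    intro k
    induction k with
    | zero => intro x u _; rw [pow_zero, one_mul]; rfl
    | succ k ih =>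
      intro x u hu
      have h1 := ih x u hu
      have h2 := hlow _ _ (H.vec_mem k x hu)
      rw [vec_succ, pow_succ]
      calc ‖u‖ ≤ Λ ^ k * ‖vec β D k x u‖ := h1
        _ ≤ Λ ^ k * (Λ * ‖D (β^[k] x) (vec β D k x u)‖) :=
            mul_le_mul_of_nonneg_left h2 (by positivity)
        _ = _ := by ring
  refine ⟨k₁, 1 / (2 * Λ ^ k₁ * μ ^ k₁), θ, by positivity, hθ0, hθ1, fun t htR u hu => ?_⟩
  obtain ⟨ℓ, h1, h2, h3⟩ := seqlem (fun j => kap β D z n μ (k₁ + j) t u) hθ0 hθ1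
    (L := 2 * C / μ * θ ^ k₁) (by positivity) hk1.le (by
      intro j
      set w := vec β D (k₁ + j) (z t) u with hw
      have hwF : w ∈ F (β^[k₁ + j] (z t)) := H.vec_mem _ _ hu
      obtain ⟨e1, e2⟩ := hest t htR (k₁ + j) (by omega) w hwF
      have e3 : kap β D z n μ (k₁ + (j + 1)) t u =
          ⟪D (β^[k₁ + j] (z t)) w, n⟫_ℝ / μ ^ (k₁ + j + 1) := rfl
      have e4 : kap β D z n μ (k₁ + j) t u = ⟪w, n⟫_ℝ / μ ^ (k₁ + j) := rfl
      show |kap β D z n μ (k₁ + (j + 1)) t u - kap β D z n μ (k₁ + j) t u| ≤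
        2 * C / μ * θ ^ k₁ * θ ^ j * |kap β D z n μ (k₁ + j) t u|
      rw [e3, e4]
      have e5 : ⟪D (β^[k₁ + j] (z t)) w, n⟫_ℝ / μ ^ (k₁ + j + 1) - ⟪w, n⟫_ℝ / μ ^ (k₁ + j) =
          (⟪D (β^[k₁ + j] (z t)) w, n⟫_ℝ - μ * ⟪w, n⟫_ℝ) / μ ^ (k₁ + j + 1) := by
        rw [pow_succ]; field_simp
      rw [e5, abs_div, abs_div, abs_of_pos (pow_pos hμ (k₁ + j + 1)),
        abs_of_pos (pow_pos hμ (k₁ + j)), div_le_iff₀ (pow_pos hμ _)]
      calc |⟪D (β^[k₁ + j] (z t)) w, n⟫_ℝ - μ * ⟪w, n⟫_ℝ| ≤ C * θ ^ (k₁ + j) * ‖w‖ := e2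
        _ ≤ C * θ ^ (k₁ + j) * (2 * |⟪w, n⟫_ℝ|) :=
            mul_le_mul_of_nonneg_left e1 (by positivity)
        _ = _ := by
          rw [pow_succ, pow_add]; field_simp)
  refine ⟨ℓ, ?_, by simpa using h2, by simpa using h3, ?_⟩
  · have := (tendsto_add_atTop_iff_nat (f := fun k => kap β D z n μ k t u) (l := 𝓝 ℓ) k₁).mp (by
      refine h1.congr fun j => ?_
      show kap β D z n μ (k₁ + j) t u = kap β D z n μ (j + k₁) t u
      rw [add_comm])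
    exact this
  · have e1 := (hest t htR k₁ hk2 _ (H.vec_mem k₁ (z t) hu)).1
    have e2 := hvl k₁ (z t) u hu
    have e3 : |kap β D z n μ k₁ t u| = |⟪vec β D k₁ (z t) u, n⟫_ℝ| / μ ^ k₁ := by
      show |⟪vec β D k₁ (z t) u, n⟫_ℝ / μ ^ k₁| = _
      rw [abs_div, abs_of_pos (pow_pos hμ k₁)]
    rw [e3, le_div_iff₀ (pow_pos hμ _)]
    have e4 : 1 / (2 * Λ ^ k₁ * μ ^ k₁) * ‖u‖ * μ ^ k₁ = ‖u‖ / (2 * Λ ^ k₁) := by
      field_simp
    rw [e4, div_le_iff₀ (by positivity)]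
    calc ‖u‖ ≤ Λ ^ k₁ * ‖vec β D k₁ (z t) u‖ := e2
      _ ≤ Λ ^ k₁ * (2 * |⟪vec β D k₁ (z t) u, n⟫_ℝ|) :=
          mul_le_mul_of_nonneg_left e1 (by positivity)
      _ = _ := by ring

theorem kap_smul (k : ℕ) (t r : ℝ) (u : E) :
    kap β D z n μ k t (r • u) = r * kap β D z n μ k t u := by
  unfold kap
  rw [vec_smul, real_inner_smul_left, mul_div_assoc]

/-- **The holonomy section.** -/
theorem exists_N [FiniteDimensional ℝ E] (H : KH β D F z n μ) : ∃ N₀ : ℝ → E, Continuous N₀ ∧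
    (∀ t, N₀ t ∈ F (z t)) ∧ (∀ t, N₀ t ≠ 0) ∧
    (∀ t, Tendsto (fun k => kap β D z n μ k t (N₀ t)) atTop (𝓝 1)) ∧
    ∀ t, ∀ u ∈ F (z t), Tendsto (fun k => kap β D z n μ k t u) atTop (𝓝 1) → u = N₀ t := by
  have hex : ∀ t, ∃ u ∈ F (z t), Tendsto (fun k => kap β D z n μ k t u) atTop (𝓝 1) := by
    intro t
    obtain ⟨u, hu, hu0, -⟩ := H.line (z t)
    obtain ⟨k₁, c, θ, hc, -, -, h⟩ := H.unif |t|
    obtain ⟨ℓ, h1, h2, -, h4⟩ := h t le_rfl u hu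
    have hℓ : ℓ ≠ 0 := by
      rintro rfl
      rw [abs_zero, mul_zero] at h2
      have := norm_pos_iff.mpr hu0
      nlinarith
    refine ⟨ℓ⁻¹ • u, (F (z t)).smul_mem _ hu, ?_⟩
    have h5 := h1.const_mul ℓ⁻¹
    rw [inv_mul_cancel₀ hℓ] at h5
    exact h5.congr fun k => (kap_smul k t _ u).symm
  have hun : ∀ t, ∀ u ∈ F (z t), ∀ v ∈ F (z t),
      Tendsto (fun k => kap β D z n μ k t u) atTop (𝓝 1) →
      Tendsto (fun k => kap β D z n μ k t v) atTop (𝓝 1) → u = v := by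
    intro t u hu v hv h1 h2
    obtain ⟨w, hw, hw0, hl⟩ := H.line (z t)
    obtain ⟨r, rfl⟩ := hl u hu
    obtain ⟨s, rfl⟩ := hl v hv
    obtain ⟨k₁, c, θ, hc, -, -, h⟩ := H.unif |t|
    obtain ⟨ℓ, h3, -, -, -⟩ := h t le_rfl w hw
    have h4 := tendsto_nhds_unique ((h3.const_mul r).congr fun k => (kap_smul k t _ w).symm) h1
    have h5 := tendsto_nhds_unique ((h3.const_mul s).congr fun k => (kap_smul k t _ w).symm) h2
    have hℓ : ℓ ≠ 0 := by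
      rintro rfl
      rw [mul_zero] at h4
      exact zero_ne_one h4
    have h6 : r = s := mul_right_cancel₀ hℓ (h4.trans h5.symm)
    rw [h6]
  choose N₀ hN1 hN2 using hex
  refine ⟨N₀, ?_, hN1, ?_, hN2, fun t u hu h => hun t u hu _ (hN1 t) h (hN2 t)⟩
  · rw [continuous_iff_continuousAt]
    intro t
    obtain ⟨k₁, c, θ, hc, hθ0, hθ1, h⟩ := H.unif (|t| + 1)
    have hev : ∀ᶠ s in 𝓝 t, |s| ≤ |t| + 1 := by
      have h1 : Tendsto (fun s : ℝ => |s|) (𝓝 t) (𝓝 |t|) := continuous_abs.tendsto t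
      exact ((tendsto_order.mp h1).2 _ (by linarith)).mono fun s hs => hs.le
    have hk : ∀ s, |s| ≤ |t| + 1 → |kap β D z n μ k₁ s (N₀ s)| ≤ 2 ∧
        (∀ j, |1 - kap β D z n μ (k₁ + j) s (N₀ s)| ≤ θ ^ j * 2) ∧ c * ‖N₀ s‖ ≤ 2 := by
      intro s hs
      obtain ⟨ℓ, h1, h2, h3, h4⟩ := h s hs (N₀ s) (hN1 s)
      have h5 := tendsto_nhds_unique h1 (hN2 s)
      subst h5
      rw [abs_one, mul_one] at h2
      exact ⟨h2, fun j => (h3 j).trans (mul_le_mul_of_nonneg_left h2 (pow_nonneg hθ0 j)),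
        h4.trans h2⟩
    apply (isCompact_closedBall (0 : E) (2 / c)).tendsto_nhds_of_unique_mapClusterPt
    · filter_upwards [hev] with s hs
      rw [mem_closedBall_zero_iff, le_div_iff₀ hc, mul_comm]
      exact (hk s hs).2.2
    · intro v _ hv
      obtain ⟨U, hU, hUv⟩ := mapClusterPt_iff_ultrafilter.mp hv
      have hzU : Tendsto z U (𝓝 (z t)) := (H.contz.tendsto t).mono_left hU
      have hFU : ∀ᶠ s in (U : Filter ℝ), N₀ s ∈ F (z s) := Eventually.of_forall hN1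
      have hvF : v ∈ F (z t) := H.clF.mem_of_tendsto (hzU.prodMk_nhds hUv) hFU
      apply hun t v hvF (N₀ t) (hN1 t) _ (hN2 t)
      have hlim : ∀ j, |1 - kap β D z n μ (k₁ + j) t v| ≤ θ ^ j * 2 := by
        intro j
        have h1 : Tendsto (fun s => kap β D z n μ (k₁ + j) s (N₀ s)) U
            (𝓝 (kap β D z n μ (k₁ + j) t v)) := by
          have h2 := H.vec_tendsto hzU hUv hFU hvF (k₁ + j)
          exact (h2.inner tendsto_const_nhds).div_const _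
        refine le_of_tendsto (tendsto_const_nhds.sub h1).abs ?_
        exact hU (hev.mono fun s hs => (hk s hs).2.1 j)
      have h3 : Tendsto (fun j => kap β D z n μ (j + k₁) t v) atTop (𝓝 1) := by
        rw [tendsto_iff_dist_tendsto_zero]
        have h4 : Tendsto (fun j : ℕ => θ ^ j * 2) atTop (𝓝 0) := by
          have := (tendsto_pow_atTop_nhds_zero_of_lt_one hθ0 hθ1).mul_const 2
          simpa using this
        refine squeeze_zero (fun _ => dist_nonneg) (fun j => ?_) h4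
        rw [dist_comm, Real.dist_eq, add_comm j]
        exact hlim j
      exact (tendsto_add_atTop_iff_nat (f := fun k => kap β D z n μ k t v) k₁).mp h3
  · intro t h0
    have h1 := hN2 t
    rw [h0] at h1
    have h2 : ∀ k, kap β D z n μ k t 0 = 0 := fun k => by
      have := kap_smul (β := β) (D := D) (z := z) (n := n) (μ := μ) k t 0 0
      rwa [zero_smul, zero_mul] at this
    have h3 : Tendsto (fun k => kap β D z n μ k t 0) atTop (𝓝 0) :=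
      tendsto_const_nhds.congr fun k => (h2 k).symm
    exact one_ne_zero (tendsto_nhds_unique h1 h3)

/-- equivariance of the holonomy section -/
theorem equiv (H : KH β D F z n μ) {N₀ : ℝ → E}
    (hN1 : ∀ t, N₀ t ∈ F (z t))
    (hN2 : ∀ t, Tendsto (fun k => kap β D z n μ k t (N₀ t)) atTop (𝓝 1))
    (hN3 : ∀ t, ∀ u ∈ F (z t), Tendsto (fun k => kap β D z n μ k t u) atTop (𝓝 1) → u = N₀ t)
    {b : X → X} {B : X → E →ₗ[ℝ] E} {τ lam : ℝ} (hlam : lam ≠ 0)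
    (hb : ∀ t, b (z t) = z (t + τ)) (hBF : ∀ x, ∀ v ∈ F x, B x v ∈ F (b x))
    (hch : ∀ k x, ∀ v ∈ F x, vec β D k (b x) (B x v) = B (β^[k] x) (vec β D k x v))
    (hest : ∀ t, ∀ η > 0, ∃ k₀ : ℕ, ∀ k ≥ k₀, ∀ u ∈ F (β^[k] (z t)), ‖u‖ ≤ 2 * |⟪u, n⟫_ℝ| ∧
      |⟪B (β^[k] (z t)) u, n⟫_ℝ - lam * ⟪u, n⟫_ℝ| ≤ η * ‖u‖) (t : ℝ) :
    B (z t) (N₀ t) = lam • N₀ (t + τ) := by
  have hF1 : B (z t) (N₀ t) ∈ F (z (t + τ)) := by
    rw [← hb]; exact hBF _ _ (hN1 t)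
  have h1 : lam⁻¹ • B (z t) (N₀ t) = N₀ (t + τ) := by
    apply hN3 _ _ ((F _).smul_mem _ hF1)
    have hk : ∀ k, kap β D z n μ k (t + τ) (lam⁻¹ • B (z t) (N₀ t)) =
        lam⁻¹ * (⟪B (β^[k] (z t)) (vec β D k (z t) (N₀ t)), n⟫_ℝ / μ ^ k) := by
      intro k
      rw [kap_smul]
      unfold kap
      rw [← hb, hch k (z t) _ (hN1 t)]
    have h2 : Tendsto (fun k => ⟪B (β^[k] (z t)) (vec β D k (z t) (N₀ t)), n⟫_ℝ / μ ^ k) atTop
        (𝓝 lam) := by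
      have h3 : Tendsto (fun k => lam * kap β D z n μ k t (N₀ t)) atTop (𝓝 lam) := by
        have := (hN2 t).const_mul lam
        rwa [mul_one] at this
      have h4 : Tendsto (fun k => ⟪B (β^[k] (z t)) (vec β D k (z t) (N₀ t)), n⟫_ℝ / μ ^ k -
          lam * kap β D z n μ k t (N₀ t)) atTop (𝓝 0) := by
        rw [Metric.tendsto_atTop]
        intro ε hε
        obtain ⟨k₀, hk₀⟩ := hest t (ε / 8) (by positivity)
        have h5 := (tendsto_order.mp (hN2 t).abs).2 2 (by norm_num)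
        obtain ⟨k₂, hk₂⟩ := eventually_atTop.mp h5
        refine ⟨max k₀ k₂, fun k hk => ?_⟩
        obtain ⟨e1, e2⟩ := hk₀ k (le_of_max_le_left hk) _ (H.vec_mem k (z t) (hN1 t))
        have e3 := hk₂ k (le_of_max_le_right hk)
        have hμk := pow_pos H.mu k
        set w := vec β D k (z t) (N₀ t)
        have e4 : kap β D z n μ k t (N₀ t) = ⟪w, n⟫_ℝ / μ ^ k := rfl
        rw [e4] at e3 ⊢
        rw [abs_div, abs_of_pos hμk, div_lt_iff₀ hμk] at e3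
        rw [Real.dist_eq, sub_zero]
        have e5 : ⟪B (β^[k] (z t)) w, n⟫_ℝ / μ ^ k - lam * (⟪w, n⟫_ℝ / μ ^ k) =
            (⟪B (β^[k] (z t)) w, n⟫_ℝ - lam * ⟪w, n⟫_ℝ) / μ ^ k := by ring
        rw [e5, abs_div, abs_of_pos hμk, div_lt_iff₀ hμk]
        calc |⟪B (β^[k] (z t)) w, n⟫_ℝ - lam * ⟪w, n⟫_ℝ| ≤ ε / 8 * ‖w‖ := e2
          _ ≤ ε / 8 * (2 * |⟪w, n⟫_ℝ|) := mul_le_mul_of_nonneg_left e1 (by positivity)
          _ ≤ ε / 8 * (2 * (2 * μ ^ k)) := by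
              apply mul_le_mul_of_nonneg_left _ (by positivity)
              linarith
          _ = ε / 2 * μ ^ k := by ring
          _ < ε * μ ^ k := by
              apply mul_lt_mul_of_pos_right _ hμk
              linarith
      have h6 := h4.add h3
      rw [zero_add] at h6
      exact h6.congr fun k => by ring
    have h7 := h2.const_mul lam⁻¹
    rw [inv_mul_cancel₀ hlam] at h7
    exact h7.congr fun k => (hk k).symm
  rw [← h1, smul_smul, mul_inv_cancel₀ hlam, one_smul]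

end KH

end Pool.Agent.Y330.F
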