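import Pool.Agent.H721R2.Embed
import Pool.Agent.Y330.F.C1

set_option autoImplicit false
set_option linter.unusedSectionVars false

open scoped Manifold ContDiff Topology
open Set Filter

namespace Pool.Agent.Y330.F

open Pool.Agent.H721R2

section loc

variable {E₀ : Type*} [NormedAddCommGroup E₀] [NormedSpace ℝ E₀]
  {M : Type*} [TopologicalSpace M] [ChartedSpace E₀ M] [IsManifold 𝓘(ℝ, E₀) 2 M]
  {F : Type*} [NormedAddCommGroup F] [NormedSpace ℝ F]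

theorem hat_two (h : M → F) (hh : ContMDiff 𝓘(ℝ, E₀) 𝓘(ℝ, F) 2 h) (x₀ : M) (p : E₀)
    (hp : p ∈ (extChartAt 𝓘(ℝ, E₀) x₀).target) : ContDiffAt ℝ 2 (hatMap h x₀) p := by
  rw [← contMDiffAt_iff_contDiffAt]
  have h1 : ContMDiffOn 𝓘(ℝ, E₀) 𝓘(ℝ, E₀) 2 (extChartAt 𝓘(ℝ, E₀) x₀).symm
      (extChartAt 𝓘(ℝ, E₀) x₀).target := contMDiffOn_extChartAt_symm x₀
  have h2 : ContMDiffAt 𝓘(ℝ, E₀) 𝓘(ℝ, E₀) 2 (extChartAt 𝓘(ℝ, E₀) x₀).symm p :=
    h1.contMDiffAt ((isOpen_extChartAt_target x₀).mem_nhds hp)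
  exact ContMDiffAt.comp p hh.contMDiffAt h2

/-- second order local estimates in a chart -/
theorem hat2 (h : M → F) (hh : ContMDiff 𝓘(ℝ, E₀) 𝓘(ℝ, F) 2 h) (x₀ : M) :
    ∃ K : ℝ, 0 ≤ K ∧ ∃ r > 0, Metric.ball (extChartAt 𝓘(ℝ, E₀) x₀ x₀) r ⊆
        (extChartAt 𝓘(ℝ, E₀) x₀).target ∧
      (∀ p ∈ Metric.ball (extChartAt 𝓘(ℝ, E₀) x₀ x₀) r,
        ∀ q ∈ Metric.ball (extChartAt 𝓘(ℝ, E₀) x₀ x₀) r,
        ‖fderiv ℝ (hatMap h x₀) p - fderiv ℝ (hatMap h x₀) q‖ ≤ K * ‖q - p‖) ∧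
      (∀ p ∈ Metric.ball (extChartAt 𝓘(ℝ, E₀) x₀ x₀) r,
        ∀ q ∈ Metric.ball (extChartAt 𝓘(ℝ, E₀) x₀ x₀) r,
        ‖hatMap h x₀ q - hatMap h x₀ p - fderiv ℝ (hatMap h x₀) p (q - p)‖ ≤
          K * ‖q - p‖ ^ 2) := by
  set p₀ := extChartAt 𝓘(ℝ, E₀) x₀ x₀ with hp₀
  have hp₀t : p₀ ∈ (extChartAt 𝓘(ℝ, E₀) x₀).target := mem_extChartAt_target x₀
  have hc := hat_two h hh x₀ p₀ hp₀t
  have hcd : ContDiffAt ℝ 1 (fderiv ℝ (hatMap h x₀)) p₀ := hc.fderiv_right (m := 1) (by norm_num)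
  obtain ⟨K, t, ht, hlip⟩ := hcd.exists_lipschitzOnWith
  have h3 : (extChartAt 𝓘(ℝ, E₀) x₀).target ∈ 𝓝 p₀ := extChartAt_target_mem_nhds x₀
  obtain ⟨r, hr0, hr⟩ := Metric.mem_nhds_iff.mp (inter_mem ht h3)
  have hl : ∀ p ∈ Metric.ball p₀ r, ∀ q ∈ Metric.ball p₀ r,
      ‖fderiv ℝ (hatMap h x₀) p - fderiv ℝ (hatMap h x₀) q‖ ≤ K * ‖q - p‖ := by
    intro p hp q hq
    have := hlip.dist_le_mul p (hr hp).1 q (hr hq).1
    rwa [dist_eq_norm, dist_eq_norm, norm_sub_rev p q] at this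
  refine ⟨K, K.2, r, hr0, fun p hp => (hr hp).2, hl, ?_⟩
  intro p hp q hq
  have hs : Convex ℝ (Metric.ball p₀ r ∩ Metric.closedBall p ‖q - p‖) :=
    (convex_ball p₀ r).inter (convex_closedBall p _)
  have key := hs.norm_image_sub_le_of_norm_hasFDerivWithin_le' (f := hatMap h x₀)
    (f' := fun z => fderiv ℝ (hatMap h x₀) z) (φ := fderiv ℝ (hatMap h x₀) p)
    (C := K * ‖q - p‖) (x := p) (y := q) (fun z hz => by
      have h1 : DifferentiableAt ℝ (hatMap h x₀) z :=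
        (hat_two h hh x₀ z (hr hz.1).2).differentiableAt (by norm_num)
      exact h1.hasFDerivAt.hasFDerivWithinAt) (fun z hz => by
      have h1 := hl z hz.1 p hp
      have h2 : ‖p - z‖ ≤ ‖q - p‖ := by
        have := hz.2
        rwa [Metric.mem_closedBall, dist_eq_norm, norm_sub_rev] at this
      exact h1.trans (mul_le_mul_of_nonneg_left h2 K.2))
    ⟨hp, Metric.mem_closedBall_self (norm_nonneg _)⟩
    ⟨hq, by rw [Metric.mem_closedBall, dist_eq_norm]⟩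
  calc _ ≤ _ := key
    _ = _ := by ring

variable [FiniteDimensional ℝ E₀]

theorem local2 {F' : Type*} [NormedAddCommGroup F'] [NormedSpace ℝ F']
    (e : M → F) (he : ContMDiff 𝓘(ℝ, E₀) 𝓘(ℝ, F) 2 e)
    (hinj : ∀ x, Function.Injective (dm E₀ e x))
    (h : M → F') (hh : ContMDiff 𝓘(ℝ, E₀) 𝓘(ℝ, F') 2 h) (x₀ : M) :
    ∃ C : ℝ, ∃ W ∈ 𝓝 x₀, ∀ x ∈ W, ∀ y ∈ W,
      (∃ v : E₀, ‖e y - e x - dm E₀ e x v‖ ≤ C * ‖e y - e x‖ ^ 2 ∧
        ‖h y - h x - dm E₀ h x v‖ ≤ C * ‖e y - e x‖ ^ 2) ∧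
      (∀ v : E₀, ∃ w : E₀, ‖dm E₀ e x v - dm E₀ e y w‖ ≤ C * ‖e y - e x‖ * ‖dm E₀ e x v‖ ∧
        ‖dm E₀ h x v - dm E₀ h y w‖ ≤ C * ‖e y - e x‖ * ‖dm E₀ e x v‖) := by
  have he1 : ContMDiff 𝓘(ℝ, E₀) 𝓘(ℝ, F) 1 e := he.of_le (by norm_num)
  have hh1 : ContMDiff 𝓘(ℝ, E₀) 𝓘(ℝ, F') 1 h := hh.of_le (by norm_num)
  set φ := extChartAt 𝓘(ℝ, E₀) x₀ with hφ
  set p₀ := φ x₀ with hp₀
  set L := fderiv ℝ (hatMap e x₀) p₀ with hL
  have hx₀ : x₀ ∈ φ.source := mem_extChartAt_source x₀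
  have hLinj : Function.Injective L := by
    obtain ⟨A, hA⟩ := isInvertible_mfderiv_extChartAt (I := 𝓘(ℝ, E₀)) hx₀
    intro a b hab
    have h1 : ∀ w : E₀, dm E₀ e x₀ (A.symm w) = L w := by
      intro w
      have h2 := hatMap_mfderiv e he1 x₀ x₀ hx₀ (A.symm w)
      rw [h2, ← hφ]
      have h3 : dm E₀ φ x₀ (A.symm w) = w := by
        show mfderiv 𝓘(ℝ, E₀) 𝓘(ℝ, E₀) φ x₀ (A.symm w) = w
        rw [← hA]; exact A.apply_symm_apply w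
      rw [h3]
    have h4 : A.symm a = A.symm b := by
      apply hinj x₀
      exact (h1 a).trans (hab.trans (h1 b).symm)
    exact A.symm.injective h4
  obtain ⟨κ', hκ0', hκ'⟩ := (LinearMap.injective_iff_antilipschitz (L : E₀ →ₗ[ℝ] F)).mp hLinj
  set κ : ℝ := (κ' : ℝ) with hκ
  have hκ0 : 0 < κ := hκ0'
  have hLlow : ∀ w : E₀, ‖w‖ ≤ κ * ‖L w‖ := fun w =>
    ZeroHomClass.bound_of_antilipschitz (L : E₀ →ₗ[ℝ] F) hκ' w
  obtain ⟨K₁, hK₁, r₁, hr₁, a1, a2, a3⟩ := hat2 e he x₀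
  obtain ⟨K₂, hK₂, r₂, hr₂, b1, b2, b3⟩ := hat2 h hh x₀
  set K := K₁ + K₂ + 1 with hK
  have hK0 : 0 < K := by positivity
  set r := min (min r₁ r₂) (1 / (16 * κ * K)) with hr
  have hr0 : 0 < r := lt_min (lt_min hr₁ hr₂) (by positivity)
  have hrK : 16 * κ * K * r ≤ 1 := by
    have : r ≤ 1 / (16 * κ * K) := min_le_right _ _
    rw [le_div_iff₀ (by positivity)] at this
    linarith
  have hs1 : Metric.ball p₀ r ⊆ Metric.ball p₀ r₁ :=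
    Metric.ball_subset_ball ((min_le_left _ _).trans (min_le_left _ _))
  have hs2 : Metric.ball p₀ r ⊆ Metric.ball p₀ r₂ :=
    Metric.ball_subset_ball ((min_le_left _ _).trans (min_le_right _ _))
  have hp₀r : p₀ ∈ Metric.ball p₀ r := Metric.mem_ball_self hr0
  have c2 : ∀ p ∈ Metric.ball p₀ r, ∀ q ∈ Metric.ball p₀ r,
      ‖fderiv ℝ (hatMap e x₀) p - fderiv ℝ (hatMap e x₀) q‖ ≤ K * ‖q - p‖ := fun p hp q hq =>
    (a2 p (hs1 hp) q (hs1 hq)).trans (mul_le_mul_of_nonneg_right (by linarith) (norm_nonneg _))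
  have d2 : ∀ p ∈ Metric.ball p₀ r, ∀ q ∈ Metric.ball p₀ r,
      ‖fderiv ℝ (hatMap h x₀) p - fderiv ℝ (hatMap h x₀) q‖ ≤ K * ‖q - p‖ := fun p hp q hq =>
    (b2 p (hs2 hp) q (hs2 hq)).trans (mul_le_mul_of_nonneg_right (by linarith) (norm_nonneg _))
  have c3 : ∀ p ∈ Metric.ball p₀ r, ∀ q ∈ Metric.ball p₀ r,
      ‖hatMap e x₀ q - hatMap e x₀ p - fderiv ℝ (hatMap e x₀) p (q - p)‖ ≤ K * ‖q - p‖ ^ 2 :=
    fun p hp q hq => (a3 p (hs1 hp) q (hs1 hq)).trans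
      (mul_le_mul_of_nonneg_right (by linarith) (by positivity))
  have d3 : ∀ p ∈ Metric.ball p₀ r, ∀ q ∈ Metric.ball p₀ r,
      ‖hatMap h x₀ q - hatMap h x₀ p - fderiv ℝ (hatMap h x₀) p (q - p)‖ ≤ K * ‖q - p‖ ^ 2 :=
    fun p hp q hq => (b3 p (hs2 hp) q (hs2 hq)).trans
      (mul_le_mul_of_nonneg_right (by linarith) (by positivity))
  have low : ∀ p ∈ Metric.ball p₀ r, ∀ w : E₀,
      ‖w‖ ≤ 2 * κ * ‖fderiv ℝ (hatMap e x₀) p w‖ := by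
    intro p hp w
    have h1 := c2 p hp p₀ hp₀r
    have h1' : ‖fderiv ℝ (hatMap e x₀) p - L‖ ≤ K * r := by
      refine h1.trans (mul_le_mul_of_nonneg_left ?_ hK0.le)
      have := Metric.mem_ball.mp hp
      rw [dist_eq_norm, norm_sub_rev] at this
      exact this.le
    have h2 := hLlow w
    have h3 : ‖L w‖ ≤ ‖fderiv ℝ (hatMap e x₀) p w‖ + K * r * ‖w‖ := by
      have e1 : L w = fderiv ℝ (hatMap e x₀) p w - (fderiv ℝ (hatMap e x₀) p - L) w := by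
        simp only [sub_apply]; abel
      rw [e1]
      refine (norm_sub_le _ _).trans (add_le_add_right ?_ _)
      exact (ContinuousLinearMap.le_opNorm _ _).trans
        (mul_le_mul_of_nonneg_right h1' (norm_nonneg _))
    have h4 : κ * ‖L w‖ ≤ κ * (‖fderiv ℝ (hatMap e x₀) p w‖ + K * r * ‖w‖) :=
      mul_le_mul_of_nonneg_left h3 hκ0.le
    have h5 : 16 * κ * K * r * ‖w‖ ≤ 1 * ‖w‖ := mul_le_mul_of_nonneg_right hrK (norm_nonneg _)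
    have h6 : 0 ≤ κ * ‖fderiv ℝ (hatMap e x₀) p w‖ := by positivity
    nlinarith [norm_nonneg w]
  have dst : ∀ p ∈ Metric.ball p₀ r, ∀ q ∈ Metric.ball p₀ r,
      ‖q - p‖ ≤ 4 * κ * ‖hatMap e x₀ q - hatMap e x₀ p‖ := by
    intro p hp q hq
    have h1 := c3 p hp q hq
    have h2 := low p hp (q - p)
    have h3 := norm_sub_le (hatMap e x₀ q - hatMap e x₀ p)
      (hatMap e x₀ q - hatMap e x₀ p - fderiv ℝ (hatMap e x₀) p (q - p))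
    rw [sub_sub_cancel] at h3
    have h4 : ‖q - p‖ ≤ 2 * r := by
      have e1 := Metric.mem_ball.mp hp
      have e2 := Metric.mem_ball.mp hq
      have e3 := dist_triangle_right q p p₀
      rw [dist_eq_norm q p] at e3
      linarith
    have h5 : K * ‖q - p‖ ^ 2 ≤ K * (2 * r) * ‖q - p‖ := by
      rw [pow_two, ← mul_assoc]
      exact mul_le_mul_of_nonneg_right (mul_le_mul_of_nonneg_left h4 hK0.le) (norm_nonneg _)
    have h6 : 2 * κ * ‖fderiv ℝ (hatMap e x₀) p (q - p)‖ ≤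
        2 * κ * (‖hatMap e x₀ q - hatMap e x₀ p‖ + K * (2 * r) * ‖q - p‖) :=
      mul_le_mul_of_nonneg_left (by linarith) (by positivity)
    have h7 : 16 * κ * K * r * ‖q - p‖ ≤ 1 * ‖q - p‖ :=
      mul_le_mul_of_nonneg_right hrK (norm_nonneg _)
    nlinarith [norm_nonneg (q - p)]
  have hpull : φ.source ∩ φ ⁻¹' Metric.ball p₀ r ∈ 𝓝 x₀ := by
    have h1 : ContinuousAt φ x₀ := continuousAt_extChartAt x₀
    exact inter_mem ((isOpen_extChartAt_source (I := 𝓘(ℝ, E₀)) x₀).mem_nhds hx₀)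
      (h1.preimage_mem_nhds (Metric.ball_mem_nhds _ hr0))
  refine ⟨K * (4 * κ) ^ 2, _, hpull, ?_⟩
  rintro x ⟨hxs, hxb⟩ y ⟨hys, hyb⟩
  have ex : e x = hatMap e x₀ (φ x) := by
    show e x = e (φ.symm (φ x)); rw [φ.left_inv hxs]
  have ey : e y = hatMap e x₀ (φ y) := by
    show e y = e (φ.symm (φ y)); rw [φ.left_inv hys]
  have hx' : h x = hatMap h x₀ (φ x) := by
    show h x = h (φ.symm (φ x)); rw [φ.left_inv hxs]
  have hy' : h y = hatMap h x₀ (φ y) := by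
    show h y = h (φ.symm (φ y)); rw [φ.left_inv hys]
  have hd := dst _ hxb _ hyb
  have hd2 : ‖φ y - φ x‖ ^ 2 ≤ (4 * κ) ^ 2 * ‖hatMap e x₀ (φ y) - hatMap e x₀ (φ x)‖ ^ 2 := by
    rw [← mul_pow]
    exact pow_le_pow_left₀ (norm_nonneg _) hd 2
  constructor
  · obtain ⟨A, hA⟩ := isInvertible_mfderiv_extChartAt (I := 𝓘(ℝ, E₀)) hxs
    have hAv : dm E₀ φ x (A.symm (φ y - φ x)) = φ y - φ x := by
      show mfderiv 𝓘(ℝ, E₀) 𝓘(ℝ, E₀) φ x (A.symm (φ y - φ x)) = φ y - φ x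
      rw [← hA]; exact A.apply_symm_apply (φ y - φ x)
    refine ⟨A.symm (φ y - φ x), ?_, ?_⟩
    · rw [hatMap_mfderiv e he1 x₀ x hxs (A.symm (φ y - φ x)), ← hφ, hAv, ex, ey]
      refine (c3 _ hxb _ hyb).trans ?_
      rw [mul_assoc]
      exact mul_le_mul_of_nonneg_left hd2 hK0.le
    · rw [hatMap_mfderiv h hh1 x₀ x hxs (A.symm (φ y - φ x)), ← hφ, hAv, ex, ey, hx', hy']
      refine (d3 _ hxb _ hyb).trans ?_
      rw [mul_assoc]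
      exact mul_le_mul_of_nonneg_left hd2 hK0.le
  · intro v
    obtain ⟨A, hA⟩ := isInvertible_mfderiv_extChartAt (I := 𝓘(ℝ, E₀)) hys
    set w : E₀ := dm E₀ φ x v with hw
    have hAv : dm E₀ φ y (A.symm w) = w := by
      show mfderiv 𝓘(ℝ, E₀) 𝓘(ℝ, E₀) φ y (A.symm w) = w
      rw [← hA]; exact A.apply_symm_apply w
    have a1 := hatMap_mfderiv e he1 x₀ x hxs v
    have a2 := hatMap_mfderiv e he1 x₀ y hys (A.symm w)
    have b1 := hatMap_mfderiv h hh1 x₀ x hxs v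
    have b2 := hatMap_mfderiv h hh1 x₀ y hys (A.symm w)
    rw [← hφ] at a1 a2 b1 b2
    rw [hAv] at a2 b2
    refine ⟨A.symm w, ?_⟩
    rw [a1, a2, b1, b2, ← hw, ex, ey]
    have h1 := low _ hxb w
    have hN : K * ‖φ y - φ x‖ * ‖w‖ ≤ K * (4 * κ) ^ 2 *
        ‖hatMap e x₀ (φ y) - hatMap e x₀ (φ x)‖ * ‖fderiv ℝ (hatMap e x₀) (φ x) w‖ := by
      calc K * ‖φ y - φ x‖ * ‖w‖ ≤ K * (4 * κ * ‖hatMap e x₀ (φ y) - hatMap e x₀ (φ x)‖) *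
            (2 * κ * ‖fderiv ℝ (hatMap e x₀) (φ x) w‖) := by
            apply mul_le_mul (mul_le_mul_of_nonneg_left hd hK0.le) h1 (norm_nonneg _)
            positivity
        _ ≤ _ := by
            have : 0 ≤ K * (κ ^ 2) * ‖hatMap e x₀ (φ y) - hatMap e x₀ (φ x)‖ *
              ‖fderiv ℝ (hatMap e x₀) (φ x) w‖ := by positivity
            nlinarith
    constructor
    · have e1 : fderiv ℝ (hatMap e x₀) (φ x) w - fderiv ℝ (hatMap e x₀) (φ y) w =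
        (fderiv ℝ (hatMap e x₀) (φ x) - fderiv ℝ (hatMap e x₀) (φ y)) w := rfl
      rw [e1]
      refine ((ContinuousLinearMap.le_opNorm _ _).trans
        (mul_le_mul_of_nonneg_right (c2 _ hxb _ hyb) (norm_nonneg _))).trans hN
    · have e1 : fderiv ℝ (hatMap h x₀) (φ x) w - fderiv ℝ (hatMap h x₀) (φ y) w =
        (fderiv ℝ (hatMap h x₀) (φ x) - fderiv ℝ (hatMap h x₀) (φ y)) w := rfl
      rw [e1]
      refine ((ContinuousLinearMap.le_opNorm _ _).trans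
        (mul_le_mul_of_nonneg_right (d2 _ hxb _ hyb) (norm_nonneg _))).trans hN

end loc

section glob

variable {E₀ : Type*} [NormedAddCommGroup E₀] [NormedSpace ℝ E₀] [FiniteDimensional ℝ E₀]
  {M : Type*} [MetricSpace M] [CompactSpace M] [ChartedSpace E₀ M] [IsManifold 𝓘(ℝ, E₀) 2 M]
  {F : Type*} [NormedAddCommGroup F] [NormedSpace ℝ F]

theorem uniform_both {M : Type*} [MetricSpace M] [CompactSpace M] (P : ℝ → M → M → Prop)
    (hmono : ∀ C C' x y, C ≤ C' → P C x y → P C' x y)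
    (h : ∀ x₀, ∃ C : ℝ, ∃ W ∈ 𝓝 x₀, ∀ x ∈ W, ∀ y ∈ W, P C x y) :
    ∃ C > 0, ∃ r > 0, ∀ x y, dist x y < r → P C x y := by
  choose C W hW hP using h
  obtain ⟨t, -, ht⟩ := (isCompact_univ (X := M)).elim_nhds_subcover (fun x₀ => interior (W x₀))
    (fun x₀ _ => interior_mem_nhds.mpr (hW x₀))
  refine ⟨∑ x ∈ t, |C x| + 1, by positivity, ?_⟩
  apply exists_uniform_radius (fun x y => P (∑ x ∈ t, |C x| + 1) x y)
  intro x₀
  have hx := ht (mem_univ x₀)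
  simp only [mem_iUnion] at hx
  obtain ⟨z, hz, hxz⟩ := hx
  refine ⟨W z, mem_interior_iff_mem_nhds.mp hxz, fun x hx y hy => hmono _ _ x y ?_ (hP z x hx y hy)⟩
  have h1 : |C z| ≤ ∑ x ∈ t, |C x| :=
    Finset.single_le_sum (f := fun x => |C x|) (fun i _ => abs_nonneg _) hz
  have h2 := le_abs_self (C z)
  linarith

/-- the ambient derivative of a map -/
noncomputable def BB (e : M → F) (L : M → F →ₗ[ℝ] E₀) (b : M → M) (x : M) : F →ₗ[ℝ] F :=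
  (dm E₀ e (b x)).toLinearMap ∘ₗ (dg E₀ b x).toLinearMap ∘ₗ L x

theorem BB_apply (e : M → F) {L : M → F →ₗ[ℝ] E₀} (hL : ∀ x v, L x (dm E₀ e x v) = v)
    (b : M → M) (x : M) (v : E₀) : BB e L b x (dm E₀ e x v) = dm E₀ e (b x) (dg E₀ b x v) := by
  show dm E₀ e (b x) (dg E₀ b x (L x (dm E₀ e x v))) = _
  rw [hL]

/-- `C²` maps satisfy the second order estimates. -/
theorem exSM {e : M → F} (hiso : ∀ x y, dist x y = ‖e x - e y‖)
    (he : ContMDiff 𝓘(ℝ, E₀) 𝓘(ℝ, F) 2 e) (hinj : ∀ x, Function.Injective (dm E₀ e x))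
    {L : M → F →ₗ[ℝ] E₀} (hL : ∀ x v, L x (dm E₀ e x v) = v)
    {b : M → M} (hb : ContMDiff 𝓘(ℝ, E₀) 𝓘(ℝ, E₀) 2 b) :
    ∃ C r, SM e (fun x => LinearMap.range (dm E₀ e x).toLinearMap) b (BB e L b) C r := by
  have he1 : ContMDiff 𝓘(ℝ, E₀) 𝓘(ℝ, F) 1 e := he.of_le (by norm_num)
  have hb1 : ContMDiff 𝓘(ℝ, E₀) 𝓘(ℝ, E₀) 1 b := hb.of_le (by norm_num)
  have hdist : ∀ x y, ‖e y - e x‖ = dist x y := fun x y => by rw [hiso, norm_sub_rev]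
  obtain ⟨Q, hQ, hbd⟩ := global_bound e he1 hinj b hb1
  obtain ⟨C, hC, r, hr, hP⟩ := uniform_both (fun C x y =>
      (∃ v : E₀, ‖e y - e x - dm E₀ e x v‖ ≤ C * ‖e y - e x‖ ^ 2 ∧
        ‖(e ∘ b) y - (e ∘ b) x - dm E₀ (e ∘ b) x v‖ ≤ C * ‖e y - e x‖ ^ 2) ∧
      (∀ v : E₀, ∃ w : E₀, ‖dm E₀ e x v - dm E₀ e y w‖ ≤ C * ‖e y - e x‖ * ‖dm E₀ e x v‖ ∧
        ‖dm E₀ (e ∘ b) x v - dm E₀ (e ∘ b) y w‖ ≤ C * ‖e y - e x‖ * ‖dm E₀ e x v‖)) (by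
    rintro C C' x y hCC' ⟨⟨v, h1, h2⟩, h3⟩
    have hsq : C * ‖e y - e x‖ ^ 2 ≤ C' * ‖e y - e x‖ ^ 2 :=
      mul_le_mul_of_nonneg_right hCC' (by positivity)
    refine ⟨⟨v, h1.trans hsq, h2.trans hsq⟩, fun v => ?_⟩
    obtain ⟨w, h4, h5⟩ := h3 v
    have hl : C * ‖e y - e x‖ * ‖dm E₀ e x v‖ ≤ C' * ‖e y - e x‖ * ‖dm E₀ e x v‖ :=
      mul_le_mul_of_nonneg_right (mul_le_mul_of_nonneg_right hCC' (norm_nonneg _))
        (norm_nonneg _)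
    exact ⟨w, h4.trans hl, h5.trans hl⟩) (fun x₀ => local2 e he hinj (e ∘ b) (he.comp hb) x₀)
  have hQC : Q ≤ Q + C := by linarith
  have hCQ : C ≤ Q + C := by linarith
  refine ⟨Q + C, r, by positivity, hr, ?_, ?_, ?_, ?_⟩
  · rintro x _ ⟨v, rfl⟩
    exact ⟨_, (BB_apply e hL b x v).symm⟩
  · rintro x _ ⟨v, rfl⟩
    have h1 := hbd x v
    change ‖BB e L b x (dm E₀ e x v)‖ ≤ (Q + C) * ‖dm E₀ e x v‖
    rw [BB_apply e hL]
    exact h1.trans (mul_le_mul_of_nonneg_right hQC (norm_nonneg _))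
  · intro x y hxy
    obtain ⟨⟨v, h1, h2⟩, -⟩ := hP x y hxy
    have hsq : C * ‖e y - e x‖ ^ 2 ≤ (Q + C) * dist x y ^ 2 := by
      rw [hdist]
      exact mul_le_mul_of_nonneg_right hCQ (by positivity)
    refine ⟨dm E₀ e x v, ⟨v, rfl⟩, h1.trans hsq, ?_⟩
    rw [BB_apply e hL, ← dm_comp e he1 b hb1]
    exact h2.trans hsq
  · rintro x y hxy _ ⟨v, rfl⟩
    obtain ⟨-, h3⟩ := hP x y hxy
    obtain ⟨w, h4, h5⟩ := h3 v
    have hl : C * ‖e y - e x‖ * ‖dm E₀ e x v‖ ≤ (Q + C) * dist x y * ‖dm E₀ e x v‖ := by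
      rw [hdist]
      exact mul_le_mul_of_nonneg_right (mul_le_mul_of_nonneg_right hCQ dist_nonneg)
        (norm_nonneg _)
    refine ⟨dm E₀ e y w, ⟨w, rfl⟩, h4.trans hl, ?_⟩
    change ‖BB e L b x (dm E₀ e x v) - BB e L b y (dm E₀ e y w)‖ ≤ _
    rw [BB_apply e hL, BB_apply e hL, ← dm_comp e he1 b hb1, ← dm_comp e he1 b hb1]
    exact h5.trans hl

end glob

end Pool.Agent.Y330.F
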