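import Pool.Agent.Y330.F.D6
import Pool.Agent.Y330.F.D7
import Pool.Agent.Y330.F.D9

set_option autoImplicit false
set_option linter.unusedSectionVars false

open scoped Manifold ContDiff Topology
open Set Filter

namespace Pool.Agent.Y330.F

open Pool.Agent.H721R2 Pool.Agent.H789R2.AN

section conv

variable {E₀ : Type*} [NormedAddCommGroup E₀] [NormedSpace ℝ E₀] [FiniteDimensional ℝ E₀]
  {M : Type*} [MetricSpace M] [CompactSpace M] [ChartedSpace E₀ M] [IsManifold 𝓘(ℝ, E₀) 1 M]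
  {F : Type*} [NormedAddCommGroup F] [NormedSpace ℝ F]

theorem exists_sys2 {e : M → F} (hiso : ∀ x y, dist x y = ‖e x - e y‖)
    (he : ContMDiff 𝓘(ℝ, E₀) 𝓘(ℝ, F) 1 e) (hinj : ∀ x, Function.Injective (dm E₀ e x))
    {L : M → F →ₗ[ℝ] E₀} (hL : ∀ x v, L x (dm E₀ e x v) = v)
    (f : Diffeomorph 𝓘(ℝ, E₀) 𝓘(ℝ, E₀) M M 1)
    (Es Eu : ∀ x : M, Submodule ℝ (TangentSpace 𝓘(ℝ, E₀) x)) (h : IsAnosov f Es Eu) :
    ∃ (n : ℕ) (S : HypSys M F), 1 ≤ n ∧ S.g = iterHomeo f.toHomeomorph n ∧ S.e = e ∧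
      (∀ x, S.Vs x = Submodule.map (dm E₀ e x).toLinearMap (Es x)) ∧
      (∀ x, S.Vu x = Submodule.map (dm E₀ e x).toLinearMap (Eu x)) ∧
      (∀ x, S.D x = BB e L (f.toHomeomorph^[n]) x) ∧
      (∀ x, S.D' x = BB e L (f.toHomeomorph.symm^[n]) x) := by
  obtain ⟨C, a, b, Ls, Lu, hE⟩ := eanosov_of_isAnosov e he hinj f Es Eu h
  obtain ⟨K, hK, hang⟩ := hE.angle he hinj
  have t1 : Tendsto (fun n : ℕ => K * (C * a ^ n)) atTop (𝓝 0) := by
    have := ((tendsto_pow_atTop_nhds_zero_of_lt_one hE.a_pos.le hE.a_lt).const_mul C).const_mul K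
    simpa using this
  have t2 : Tendsto (fun n : ℕ => K * (C * b ^ n)) atTop (𝓝 0) := by
    have := ((tendsto_pow_atTop_nhds_zero_of_lt_one hE.b_pos.le hE.b_lt).const_mul C).const_mul K
    simpa using this
  obtain ⟨n, ⟨h1, h2⟩, h3⟩ := ((((tendsto_order.mp t1).2 (1 / 16) (by norm_num)).and
    ((tendsto_order.mp t2).2 (1 / 16) (by norm_num))).and (eventually_ge_atTop 1)).exists
  obtain ⟨S, hS⟩ := exists_hypSys2 hiso he hinj hL hE K hK hang n h1.le h2.le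
  exact ⟨n, S, h3, hS⟩

end conv

section sa

variable {E₀ : Type*} [NormedAddCommGroup E₀] [NormedSpace ℝ E₀] [FiniteDimensional ℝ E₀]
  {M : Type*} [MetricSpace M] [CompactSpace M] [ChartedSpace E₀ M] [IsManifold 𝓘(ℝ, E₀) 2 M]
  {F : Type*} [NormedAddCommGroup F] [InnerProductSpace ℝ F] {G : Type*} [AddCommGroup G]

theorem alpha_zero {α : G → Diffeomorph 𝓘(ℝ, E₀) 𝓘(ℝ, E₀) M M 1}
    (hα : ∀ a b x, α (a + b) x = α a (α b x)) (x : M) : α 0 x = x := by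
  have h := hα 0 0 x
  rw [add_zero] at h
  exact ((α 0).injective h).symm

/-- A `C²` action is a smooth action in the ambient space. -/
theorem exSA {e : M → F} (hiso : ∀ x y, dist x y = ‖e x - e y‖)
    (he : ContMDiff 𝓘(ℝ, E₀) 𝓘(ℝ, F) 2 e) (hinj : ∀ x, Function.Injective (dm E₀ e x))
    {L : M → F →ₗ[ℝ] E₀} (hL : ∀ x v, L x (dm E₀ e x v) = v)
    {α : G → Diffeomorph 𝓘(ℝ, E₀) 𝓘(ℝ, E₀) M M 1}
    (hα2 : ∀ g, ContMDiff 𝓘(ℝ, E₀) 𝓘(ℝ, E₀) 2 (α g))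
    (hα : ∀ a b x, α (a + b) x = α a (α b x)) :
    SA (fun g => (α g).toHomeomorph) e (fun x => LinearMap.range (dm E₀ e x).toLinearMap)
      (fun g => BB e L (α g)) where
  add := hα
  isom := hiso
  sm := fun g => exSM hiso he hinj hL (hα2 g)
  chain := by
    rintro g h x _ ⟨v, rfl⟩
    have h1 : (⇑(α (g + h)) : M → M) = (α g) ∘ (α h) := funext fun x => hα g h x
    change BB e L (α (g + h)) x (dm E₀ e x v) = BB e L (α g) (α h x) (BB e L (α h) x (dm E₀ e x v))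
    rw [BB_apply e hL, BB_apply e hL, BB_apply e hL, h1,
      dg_comp _ _ ((hα2 h).of_le (by norm_num)) ((hα2 g).of_le (by norm_num))]
    rfl
  one := by
    rintro x _ ⟨v, rfl⟩
    have h1 : (⇑(α 0) : M → M) = id := funext fun x => alpha_zero hα x
    change BB e L (α 0) x (dm E₀ e x v) = dm E₀ e x v
    rw [BB_apply e hL, h1]
    have : dg E₀ (id : M → M) x v = v := by
      show mfderiv 𝓘(ℝ, E₀) 𝓘(ℝ, E₀) id x v = v
      rw [mfderiv_id]; rfl
    rw [this]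
    rfl

end sa

end Pool.Agent.Y330.F
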