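import Pool.Agent.Y330.F.D10

set_option autoImplicit false
set_option linter.unusedSectionVars false

open scoped Manifold ContDiff Topology
open Set Filter

namespace Pool.Agent.Y330.F

open Pool.Agent.H721R2 Pool.Agent.H789R2.AN

section sa

variable {E₀ : Type*} [NormedAddCommGroup E₀] [NormedSpace ℝ E₀] [FiniteDimensional ℝ E₀]
  {M : Type*} [MetricSpace M] [CompactSpace M] [ChartedSpace E₀ M] [IsManifold 𝓘(ℝ, E₀) 2 M]
  {V : Type*} [NormedAddCommGroup V] [InnerProductSpace ℝ V] {G J : Type*} [AddCommGroup G]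

omit [FiniteDimensional ℝ E₀] in
theorem map_top_of (Lm : E₀ →ₗ[ℝ] V) (N P : Submodule ℝ E₀) (h : IsCompl N P) :
    N.map Lm ⊔ P.map Lm = LinearMap.range Lm := by
  rw [← Submodule.map_sup, h.sup_eq_top, Submodule.map_top]

omit [FiniteDimensional ℝ E₀] in
theorem split_map (Lm : E₀ →ₗ[ℝ] V) (A P Q : Submodule ℝ E₀) (h : A ≤ P ⊔ Q) :
    ∀ v ∈ A.map Lm, ∃ f ∈ P.map Lm, ∃ w ∈ Q.map Lm, v = f + w := by
  rintro _ ⟨v, hv, rfl⟩
  obtain ⟨f, hf, w, hw, hfw⟩ := Submodule.mem_sup.mp (h hv)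
  exact ⟨Lm f, ⟨f, hf, rfl⟩, Lm w, ⟨w, hw, rfl⟩, by rw [← map_add, hfw]⟩

omit [FiniteDimensional ℝ E₀] in
theorem line_map (Lm : E₀ →ₗ[ℝ] V) (hinj : Function.Injective Lm) (W : Submodule ℝ E₀)
    (h : Module.finrank ℝ W = 1) :
    ∃ u ∈ W.map Lm, u ≠ 0 ∧ ∀ v ∈ W.map Lm, ∃ r : ℝ, v = r • u := by
  obtain ⟨⟨w, hw⟩, hw0, hspan⟩ := finrank_eq_one_iff'.mp h
  refine ⟨Lm w, ⟨w, hw, rfl⟩, ?_, ?_⟩
  · intro h0
    apply hw0
    apply Subtype.ext
    apply hinj
    show Lm w = Lm 0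
    rw [h0, map_zero]
  · rintro _ ⟨v, hv, rfl⟩
    obtain ⟨r, hr⟩ := hspan ⟨v, hv⟩
    refine ⟨r, ?_⟩
    have h2 : r • w = v := congrArg Subtype.val hr
    rw [← h2, map_smul]

/-- Hyperbolic systems attached to regular elements `el i` of an action. -/
structure RS (e : M → V) (L : M → V →ₗ[ℝ] E₀) (α : G → Diffeomorph 𝓘(ℝ, E₀) 𝓘(ℝ, E₀) M M 1)
    (χ : J → G →+ ℝ) (F : J → ∀ x : M, Submodule ℝ (TangentSpace 𝓘(ℝ, E₀) x)) {ι : Type*}
    (el : ι → G) (n : ι → ℕ) (S : ι → HypSys M V) : Prop where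
  isom : ∀ x y, dist x y = ‖e x - e y‖
  he : ContMDiff 𝓘(ℝ, E₀) 𝓘(ℝ, V) 2 e
  hinj : ∀ x, Function.Injective (dm E₀ e x)
  hL : ∀ x v, L x (dm E₀ e x v) = v
  hα2 : ∀ g, ContMDiff 𝓘(ℝ, E₀) 𝓘(ℝ, E₀) 2 (α g)
  hα : ∀ a b x, α (a + b) x = α a (α b x)
  hF : ∀ a j, InvariantField (α a) (F j)
  reg : ∀ r l, χ l (el r) ≠ 0
  hn : ∀ r, 1 ≤ n r
  hg : ∀ r, (S r).g = iterHomeo (α (el r)).toHomeomorph (n r)
  hSe : ∀ r, (S r).e = e
  hVs : ∀ r x, (S r).Vs x = Submodule.map (dm E₀ e x).toLinearMap (negField χ F (el r) x)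
  hVu : ∀ r x, (S r).Vu x = Submodule.map (dm E₀ e x).toLinearMap (posField χ F (el r) x)
  hD : ∀ r x, (S r).D x = BB e L ((α (el r)).toHomeomorph^[n r]) x
  hD' : ∀ r x, (S r).D' x = BB e L ((α (el r)).toHomeomorph.symm^[n r]) x
  compl : ∀ r, ∀ x, IsCompl (negField χ F (el r) x) (posField χ F (el r) x)

/-- a field in the ambient space -/
noncomputable def cF (e : M → V) (F : J → ∀ x : M, Submodule ℝ (TangentSpace 𝓘(ℝ, E₀) x)) (j : J)
    (x : M) : Submodule ℝ V := Submodule.map (dm E₀ e x).toLinearMap (F j x)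

namespace RS

variable {e : M → V} {L : M → V →ₗ[ℝ] E₀} {α : G → Diffeomorph 𝓘(ℝ, E₀) 𝓘(ℝ, E₀) M M 1}
  {χ : J → G →+ ℝ} {F : J → ∀ x : M, Submodule ℝ (TangentSpace 𝓘(ℝ, E₀) x)} {ι : Type*}
  {el : ι → G} {n : ι → ℕ} {S : ι → HypSys M V}

theorem sa (H : RS e L α χ F el n S) :
    SA (fun g => (α g).toHomeomorph) e (fun x => LinearMap.range (dm E₀ e x).toLinearMap)
      (fun g => BB e L (α g)) := exSA H.isom H.he H.hinj H.hL H.hα2 H.hα

theorem gact (H : RS e L α χ F el n S) (r : ι) :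
    (S r).g = (α (n r • el r)).toHomeomorph := by
  rw [H.hg r]
  apply Homeomorph.ext
  intro x
  show (α (el r)).toHomeomorph^[n r] x = α (n r • el r) x
  exact (H.sa.nsmul (el r) (n r) x).symm

theorem Dact (H : RS e L α χ F el n S) (r : ι) (x : M) :
    (S r).D x = BB e L (α (n r • el r)) x := by
  rw [H.hD r x]
  congr 1
  funext y
  exact (H.sa.nsmul (el r) (n r) y).symm

theorem Dact' (H : RS e L α χ F el n S) (r : ι) (x : M) :
    (S r).D' x = BB e L (α (-(n r • el r))) x := by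
  rw [H.hD' r x]
  congr 1
  funext y
  have h1 := H.sa.nsmul (-(el r)) (n r) y
  have h2 := H.sa.negH (el r)
  have h3 : (α (-(el r))).toHomeomorph = (α (el r)).toHomeomorph.symm := h2
  have h4 : α (n r • -(el r)) y = (α (-(el r))).toHomeomorph^[n r] y := h1
  rw [h3] at h4
  rw [← smul_neg]
  exact h4.symm

theorem hT (H : RS e L α χ F el n S) (r : ι) (x : M) :
    (S r).Vs x ⊔ (S r).Vu x = LinearMap.range (dm E₀ e x).toLinearMap := by
  rw [H.hVs, H.hVu]
  exact map_top_of _ _ _ (H.compl r x)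

theorem cF_neg (H : RS e L α χ F el n S) (r : ι) {j : J} (hj : χ j (el r) < 0)
    (x : M) : cF e F j x ≤ (S r).Vs x := by
  rw [H.hVs]
  exact Submodule.map_mono (le_iSup (fun k : {k // χ k (el r) < 0} => F k x) ⟨j, hj⟩)

theorem cF_pos (H : RS e L α χ F el n S) (r : ι) {j : J} (hj : 0 < χ j (el r))
    (x : M) : cF e F j x ≤ (S r).Vu x := by
  rw [H.hVu]
  exact Submodule.map_mono (le_iSup (fun k : {k // 0 < χ k (el r)} => F k x) ⟨j, hj⟩)

theorem cF_inv (H : RS e L α χ F el n S) (j : J) (g : G) (x : M) :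
    ∀ v ∈ cF e F j x, BB e L (α g) x v ∈ cF e F j (α g x) := by
  rintro _ ⟨v, hv, rfl⟩
  change BB e L (α g) x (dm E₀ e x v) ∈ _
  rw [BB_apply e H.hL]
  refine ⟨dg E₀ (α g) x v, ?_, rfl⟩
  have h1 : (F j x).map (mfderiv 𝓘(ℝ, E₀) 𝓘(ℝ, E₀) (α g) x).toLinearMap = F j (α g x) := H.hF g j x
  show dg E₀ (α g) x v ∈ F j (α g x)
  rw [← h1]
  exact ⟨v, hv, rfl⟩

theorem cF_line (H : RS e L α χ F el n S) {j : J} (h1 : ∀ x, Module.finrank ℝ (F j x) = 1)
    (x : M) : ∃ u ∈ cF e F j x, u ≠ 0 ∧ ∀ v ∈ cF e F j x, ∃ r : ℝ, v = r • u := by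
  exact line_map (dm E₀ e x).toLinearMap (H.hinj x) (F j x) (h1 x)

/-- splitting across a wall, unstable side -/
theorem splitU (H : RS e L α χ F el n S) (r r' : ι) (j : J)
    (h : ∀ l, 0 < χ l (el r') → l = j ∨ 0 < χ l (el r)) (x : M) :
    ∀ v ∈ (S r').Vu x, ∃ f ∈ cF e F j x, ∃ w ∈ (S r).Vu x, v = f + w := by
  have hle : posField χ F (el r') x ≤ F j x ⊔ posField χ F (el r) x := by
    unfold posField
    apply iSup_le
    rintro ⟨l, hl⟩
    rcases h l hl with h1 | h1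
    · show F l x ≤ _
      rw [h1]
      exact le_sup_left
    · exact le_trans (le_iSup (fun k : {k // 0 < χ k (el r)} => F k x) ⟨l, h1⟩) le_sup_right
  rw [H.hVu, H.hVu]
  exact split_map (dm E₀ e x).toLinearMap _ _ _ hle

/-- splitting across a wall, stable side -/
theorem splitS (H : RS e L α χ F el n S) (r r' : ι) (j : J)
    (h : ∀ l, χ l (el r') < 0 → l = j ∨ χ l (el r) < 0) (x : M) :
    ∀ v ∈ (S r').Vs x, ∃ f ∈ cF e F j x, ∃ w ∈ (S r).Vs x, v = f + w := by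
  have hle : negField χ F (el r') x ≤ F j x ⊔ negField χ F (el r) x := by
    unfold negField
    apply iSup_le
    rintro ⟨l, hl⟩
    rcases h l hl with h1 | h1
    · show F l x ≤ _
      rw [h1]
      exact le_sup_left
    · exact le_trans (le_iSup (fun k : {k // χ k (el r) < 0} => F k x) ⟨l, h1⟩) le_sup_right
  rw [H.hVs, H.hVs]
  exact split_map (dm E₀ e x).toLinearMap _ _ _ hle

/-- **Flips preserve the total attractor.** -/
theorem flip_tot [Finite J] [Nonempty M] [FiniteDimensional ℝ V] (H : RS e L α χ F el n S)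
    (hpair : ∀ i j, ∀ c : ℝ, 0 < c → (∀ g, χ i g = -c * χ j g) →
      (∀ x, Module.finrank ℝ (F i x) = 1) ∧ Dense (range (χ i)) ∧
      ∀ b, (∀ l, χ l b ≠ 0) → χ i b < 0 → ∀ p, α b p = p → ∀ v ∈ cF e F i p, v ≠ 0 →
        ∀ r : ℝ, BB e L (α b) p v = r • v → |r| < 1)
    {r r' : ι} (hfl : Flip χ (el r) (el r')) : Tot (S r).g = Tot (S r').g := by
  obtain ⟨i, j, ⟨c, hc, hcg⟩, hia, hib, hja, hjb, hrest⟩ := hfl
  have hcg' : ∀ g, χ j g = -(1 / c) * χ i g := fun g => by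
    rw [hcg g]
    field_simp
  obtain ⟨hi1, -, his⟩ := hpair i j c hc hcg
  obtain ⟨hj1, hjd, hjs⟩ := hpair j i (1 / c) (by positivity) hcg'
  have hfd : FD (fun g => (α g).toHomeomorph) e
      (fun x => LinearMap.range (dm E₀ e x).toLinearMap) (fun g => BB e L (α g))
      (S r) (S r') (n r • el r) (n r' • el r') (cF e F j) (cF e F i) := {
    sa := H.sa
    hg := H.gact r
    hg' := H.gact r'
    he := H.hSe r
    he' := H.hSe r'
    hT := H.hT r
    hT' := H.hT r'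
    hD := fun x v _ => by rw [H.Dact]
    hDi := fun x v _ => by rw [H.Dact']
    hD' := fun x v _ => by rw [H.Dact]
    hDi' := fun x v _ => by rw [H.Dact']
    m1 := H.cF_neg r hja
    m2 := H.cF_pos r' hjb
    p1 := H.cF_pos r hia
    p2 := H.cF_neg r' hib
    s1 := H.splitU r r' j fun l hl => by
      by_cases hlj : l = j
      · exact Or.inl hlj
      by_cases hli : l = i
      · subst hli; linarith
      exact Or.inr ((hrest l hli hlj).mpr hl)
    s2 := H.splitS r r' i fun l hl => by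
      by_cases hli : l = i
      · exact Or.inl hli
      by_cases hlj : l = j
      · subst hlj; linarith
      refine Or.inr (lt_of_le_of_ne (not_lt.mp fun h => ?_) (H.reg r l))
      linarith [(hrest l hli hlj).mp h]
    s3 := H.splitU r' r i fun l hl => by
      by_cases hli : l = i
      · exact Or.inl hli
      by_cases hlj : l = j
      · subst hlj; linarith
      exact Or.inr ((hrest l hli hlj).mp hl)
    s4 := H.splitS r' r j fun l hl => by
      by_cases hlj : l = j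
      · exact Or.inl hlj
      by_cases hli : l = i
      · subst hli; linarith
      refine Or.inr (lt_of_le_of_ne (not_lt.mp fun h => ?_) (H.reg r' l))
      linarith [(hrest l hli hlj).mpr h]
    lm := H.cF_line hj1
    lp := H.cF_line hi1
    im := fun g x v hv => H.cF_inv j g x v hv
    ip := fun g x v hv => H.cF_inv i g x v hv }
  have hreg : ∀ (r : ι) l, χ l (n r • el r) ≠ 0 := by
    intro r l
    rw [map_nsmul, nsmul_eq_mul]
    have h1 : (n r : ℝ) ≠ 0 := by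
      have := H.hn r
      positivity
    exact mul_ne_zero h1 (H.reg r l)
  have hnpos : ∀ r : ι, (0 : ℝ) < n r := fun r => by
    have := H.hn r
    positivity
  have hsg : SG χ (fun g => (α g).toHomeomorph) (fun g => BB e L (α g)) (cF e F j) (cF e F i)
      (-χ j) (n r • el r) (n r' • el r') := {
    ra := hreg r
    ra' := hreg r'
    fa := by
      show 0 < -(χ j (n r • el r))
      rw [map_nsmul, nsmul_eq_mul]
      nlinarith [mul_neg_of_pos_of_neg (hnpos r) hja]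
    fa' := by
      show -(χ j (n r' • el r')) < 0
      rw [map_nsmul, nsmul_eq_mul]
      nlinarith [mul_pos (hnpos r') hjb]
    dense := by
      have h1 := (Homeomorph.neg ℝ).surjective.denseRange.dense_image
        (Homeomorph.neg ℝ).continuous hjd
      rw [← range_comp] at h1
      exact h1
    cm := fun b hb hfb => hjs b hb (by
      have h' : 0 < -(χ j b) := hfb
      linarith)
    cp := fun b hb hfb => his b hb (by
      have h' : -(χ j b) < 0 := hfb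
      rw [hcg b]
      nlinarith) }
  have h2 := hfd.tot_eq' hsg
  rw [H.gact r, H.gact r']
  exact h2

theorem nest_tot [Nonempty M] (H : RS e L α χ F el n S)
    {r r' : ι} (hn : Nest χ (el r) (el r')) : Tot (S r).g = Tot (S r').g := by
  obtain ⟨c, hc⟩ := exists_LP (S r)
  obtain ⟨c', hc'⟩ := exists_LP (S r')
  have hcomm : ∀ x, (S r).g ((S r').g x) = (S r').g ((S r).g x) := fun x => by
    rw [H.gact, H.gact]
    exact H.sa.comm _ _ x
  refine (tot_eq hc' hc hcomm (nested_WS (S r) (S r') (fun x => by rw [H.hSe, H.hSe]) hcomm ?_)).symm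
  intro x
  rw [H.hVu, H.hVu]
  exact Submodule.map_mono (posField_mono χ F hn x)

/-- **All systems are transitive.** -/
theorem all_trans [Finite J] [ConnectedSpace M] [FiniteDimensional ℝ V]
    (H : RS e L α χ F el n S)
    (hW : ∀ a, (∀ l, χ l a ≠ 0) → ∃ r, ∀ l, 0 < χ l a * χ l (el r))
    (hpair : ∀ i j, ∀ c : ℝ, 0 < c → (∀ g, χ i g = -c * χ j g) →
      (∀ x, Module.finrank ℝ (F i x) = 1) ∧ Dense (range (χ i)) ∧
      ∀ b, (∀ l, χ l b ≠ 0) → χ i b < 0 → ∀ p, α b p = p → ∀ v ∈ cF e F i p, v ≠ 0 →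
        ∀ r : ℝ, BB e L (α b) p v = r • v → |r| < 1)
    (hpair' : ∀ i j, ∀ c : ℝ, 0 < c → (∀ g, χ i g = -c * χ j g) →
      ∀ k, ∀ c' : ℝ, 0 < c' → (∀ g, χ k g = c' * χ i g) → k = i) (r₀ : ι)
    (U W : Set M) (hU : IsOpen U) (hUn : U.Nonempty) (hV : IsOpen W) (hVn : W.Nonempty) :
    ∃ k : ℕ, ((S r₀).g^[k] '' U ∩ W).Nonempty := by
  have hW' : ∀ a : {a : G // ∀ l, χ l a ≠ 0}, ∃ r, ∀ l, 0 < χ l a.1 * χ l (el r) :=
    fun a => hW a.1 a.2
  choose ρ hρ using hW'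
  have hp1 : ∀ a l, 0 < χ l (a : {a : G // ∀ l, χ l a ≠ 0}).1 → 0 < χ l (el (ρ a)) :=
    fun a l h => pos_of_mul_pos_left' h (hρ a l)
  have hp2 : ∀ a l, 0 < χ l (el (ρ a)) → 0 < χ l (a : {a : G // ∀ l, χ l a ≠ 0}).1 :=
    fun a l h => pos_of_mul_pos_left' h (by rw [mul_comm]; exact hρ a l)
  have hn1 : ∀ a l, χ l (a : {a : G // ∀ l, χ l a ≠ 0}).1 < 0 → χ l (el (ρ a)) < 0 := by
    intro a l h
    have := hρ a l
    by_contra hcon
    push Not at hcon
    nlinarith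
  have h1 : ∀ a b : {a : G // ∀ l, χ l a ≠ 0}, Tot (S (ρ a)).g = Tot (S (ρ b)).g := by
    intro a b
    have h := reg_conn' χ hpair' a b
    induction h with
    | rel a b h =>
      rcases h with h | ⟨i, j, hij, h1, h2, h3, h4, h5⟩
      · exact H.nest_tot fun l hl => hp1 b l (h l (hp2 a l hl))
      · refine H.flip_tot hpair ⟨i, j, hij, hp1 a i h1, hn1 b i h2, hn1 a j h3, hp1 b j h4,
          fun l hli hlj => ⟨fun hl => hp1 b l ((h5 l hli hlj).mp (hp2 a l hl)),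
            fun hl => hp1 a l ((h5 l hli hlj).mpr (hp2 b l hl))⟩⟩
    | refl r => rfl
    | symm i j _ ih => exact ih.symm
    | trans i j k _ _ ih1 ih2 => exact ih1.trans ih2
  have h2 : ∀ r, Tot (S r).g = Tot (S (ρ ⟨el r, H.reg r⟩)).g := fun r =>
    H.nest_tot fun l hl => hp1 ⟨el r, H.reg r⟩ l hl
  have heq : ∀ r r', Tot (S r).g = Tot (S r').g := fun r r' => by
    rw [h2 r, h2 r']
    exact h1 _ _
  have hLP : ∀ r, ∃ c, LP (S r).g c := fun r => exists_LP (S r)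
  choose c hc using hLP
  have hT : Tot (S r₀).g = univ := by
    have h1 : ∀ j, IsAtt (S j).g (Tot (S r₀).g) := fun j => by
      rw [heq r₀ j]
      exact (tot_att (φ := (S j).g) (hc j) (fun _ => rfl)).1
    refine eq_univ_of_span S e (fun i x => by rw [H.hSe]) r₀ ?_ (h1 r₀).closed
      (h1 r₀).nonempty (fun j => (h1 j).sat)
    intro x
    have hna : ∀ l, χ l (-(el r₀)) ≠ 0 := fun l => by
      rw [map_neg]; exact neg_ne_zero.mpr (H.reg r₀ l)
    apply sup_le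
    · refine le_trans ?_ (le_iSup (fun j => (S j).Vu x) (ρ ⟨-(el r₀), hna⟩))
      rw [H.hVs, H.hVu]
      apply Submodule.map_mono
      apply negField_le
      intro l hl
      apply hp1 ⟨-(el r₀), hna⟩ l
      show 0 < χ l (-(el r₀))
      rw [map_neg]
      have hl' : χ l (el r₀) < 0 := hl
      linarith
    · exact le_iSup (fun j => (S j).Vu x) r₀
  exact transitive_of_unique (hc r₀) (unique_att (hc r₀) hT) U W hU hUn hV hVn

end RS

end sa

section main

variable {E : Type*} [NormedAddCommGroup E] [NormedSpace ℝ E] [FiniteDimensional ℝ E]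
  {M : Type*} [TopologicalSpace M] [T2Space M] [CompactSpace M] [ConnectedSpace M]
  [ChartedSpace E M] [IsManifold 𝓘(ℝ, E) ∞ M]

/-- At the fixed points `p` of the regular elements `b` with `χ b < 0`, the derivative of `α b`
shrinks the vectors of `F p`, in some continuous norm. -/
def SignCondition {G J : Type*} [AddCommGroup G] (α : G → Diffeomorph 𝓘(ℝ, E) 𝓘(ℝ, E) M M 1)
    (χ : J → G →+ ℝ) (F : J → ∀ x : M, Submodule ℝ (TangentSpace 𝓘(ℝ, E) x)) (i : J) : Prop :=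
  ∃ N : TangentBundle 𝓘(ℝ, E) M → ℝ, IsTangentNorm N ∧ ∀ b, (∀ l, χ l b ≠ 0) → χ i b < 0 →
    ∀ p, α b p = p → ∀ v ∈ F i p, v ≠ 0 →
      N (tangentMap 𝓘(ℝ, E) 𝓘(ℝ, E) (α b) ⟨p, v⟩) < N ⟨p, v⟩

/-- **Main theorem.** -/
theorem paired_main {G J : Type*} [AddCommGroup G] [Finite J]
    (α : G → Diffeomorph 𝓘(ℝ, E) 𝓘(ℝ, E) M M 1)
    (hα2 : ∀ g, ContMDiff 𝓘(ℝ, E) 𝓘(ℝ, E) 2 (α g)) (hα : ∀ a b x, α (a + b) x = α a (α b x))
    (χ : J → G →+ ℝ) (F : J → ∀ x : M, Submodule ℝ (TangentSpace 𝓘(ℝ, E) x))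
    (hF : ∀ a j, InvariantField (α a) (F j))
    (hpair : ∀ i j, ∀ c : ℝ, 0 < c → (∀ g, χ i g = -c * χ j g) →
      (∀ x, Module.finrank ℝ (F i x) = 1) ∧ Dense (range (χ i)) ∧ SignCondition α χ F i ∧
      ∀ k, ∀ c' : ℝ, 0 < c' → (∀ g, χ k g = c' * χ i g) → k = i)
    (hW : ∀ a, (∀ l, χ l a ≠ 0) → ∃ b, (∀ l, 0 < χ l a * χ l b) ∧
      IsAnosov (α b) (negField χ F b) (posField χ F b))
    (a : G) (ha : ∀ l, χ l a ≠ 0) (hA : IsAnosov (α a) (negField χ F a) (posField χ F a)) :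
    TopTransitive (α a) := by
  obtain ⟨m, e, he, hemb, hinj⟩ := exists_embedding_euclidean_of_compact (I := 𝓘(ℝ, E)) (M := M)
  let _ : MetricSpace M := hemb.isEmbedding.comapMetricSpace e
  have hiso : ∀ x y : M, dist x y = ‖e x - e y‖ := fun x y => dist_eq_norm (e x) (e y)
  have he2 : ContMDiff 𝓘(ℝ, E) (𝓡 m) 2 e := he.of_le (by
    have : (2 : WithTop ℕ∞) = ((2 : ℕ∞) : WithTop ℕ∞) := rfl
    rw [this]
    exact_mod_cast le_top)
  have he1 : ContMDiff 𝓘(ℝ, E) (𝓡 m) 1 e := he2.of_le (by norm_num)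
  have hleft : ∀ x, ∃ L : EuclideanSpace ℝ (Fin m) →ₗ[ℝ] E, ∀ v, L (dm E e x v) = v := by
    intro x
    obtain ⟨L, hL⟩ := LinearMap.exists_leftInverse_of_injective (dm E e x).toLinearMap
      (LinearMap.ker_eq_bot.mpr (hinj x))
    exact ⟨L, fun v => LinearMap.congr_fun hL v⟩
  choose L hL using hleft
  have hsys := fun r : {b : G // (∀ l, χ l b ≠ 0) ∧
      IsAnosov (α b) (negField χ F b) (posField χ F b)} =>
    exists_sys2 hiso he1 hinj hL (α r.1) (negField χ F r.1) (posField χ F r.1) r.2.2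
  choose n S hn hg hSe hVs hVu hD hD' using hsys
  have H : RS e L α χ F (fun r : {b : G // (∀ l, χ l b ≠ 0) ∧
      IsAnosov (α b) (negField χ F b) (posField χ F b)} => r.1) n S := {
    isom := hiso
    he := he2
    hinj := hinj
    hL := hL
    hα2 := hα2
    hα := hα
    hF := hF
    reg := fun r => r.2.1
    hn := hn
    hg := hg
    hSe := hSe
    hVs := hVs
    hVu := hVu
    hD := hD
    hD' := hD'
    compl := fun r => r.2.2.isCompl }
  intro U V hU hUn hV hVn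
  obtain ⟨k, hk⟩ := H.all_trans (by
    intro a ha
    obtain ⟨b, hb1, hb2⟩ := hW a ha
    exact ⟨⟨b, fun l h => by
      have := hb1 l
      rw [h, mul_zero] at this
      exact lt_irrefl _ this, hb2⟩, hb1⟩) (by
    intro i j c hc hcg
    obtain ⟨h1, h2, ⟨N, hN, h3⟩, -⟩ := hpair i j c hc hcg
    refine ⟨h1, h2, ?_⟩
    rintro b hb hib p hp _ ⟨v, hv, rfl⟩ hv0 r hr
    have hr' : BB e L (α b) p (dm E e p v) = r • dm E e p v := hr
    rw [BB_apply e hL] at hr'
    have hv0' : v ≠ 0 := by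
      rintro rfl
      exact hv0 (map_zero _)
    have h4 := h3 b hb hib p hp v hv hv0'
    have h5 : dg E (α b) p v = r • v := by
      apply hinj p
      have h6 : dm E e (α b p) (dg E (α b) p v) = dm E e p (dg E (α b) p v) := by
        rw [hp]
      exact (h6.symm.trans hr').trans ((dm E e p).map_smul r v).symm
    have h7 : N (tangentMap 𝓘(ℝ, E) 𝓘(ℝ, E) (α b) ⟨p, v⟩) = |r| * N ⟨p, v⟩ := by
      have h8 : tangentMap 𝓘(ℝ, E) 𝓘(ℝ, E) (α b) ⟨p, v⟩ = ⟨p, r • v⟩ := by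
        have h9 : tangentMap 𝓘(ℝ, E) 𝓘(ℝ, E) (α b) ⟨p, v⟩ =
            (⟨α b p, dg E (α b) p v⟩ : TangentBundle 𝓘(ℝ, E) M) := rfl
        rw [h9, h5, hp]
      rw [h8]
      exact hN.smul p r v
    rw [h7] at h4
    have h10 : 0 < N ⟨p, v⟩ := hN.pos p v hv0'
    by_contra hcon
    push Not at hcon
    nlinarith) (fun i j c hc hcg => (hpair i j c hc hcg).2.2.2) ⟨a, ha, hA⟩ U V hU hUn hV hVn
  refine ⟨n ⟨a, ha, hA⟩ * k, ?_⟩
  have h1 : (S ⟨a, ha, hA⟩).g^[k] = (α a)^[n ⟨a, ha, hA⟩ * k] := by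
    rw [Function.iterate_mul]
    congr 1
    funext x
    rw [hg]
    rfl
  rw [h1] at hk
  exact hk

end main

end Pool.Agent.Y330.F
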