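import Pool.Agent.Y330.F.D3
import Pool.Agent.Y330.F.A4

set_option autoImplicit false
set_option linter.unusedSectionVars false

open Filter Topology Set Metric
open scoped InnerProductSpace

namespace Pool.Agent.Y330.F

open Pool.Agent.H789R2.AN Pool.Agent.Y330.G Pool.Agent.H721R2

open LF (sc)

/-- near-wall elements -/
theorem near_wall {x y : ℝ} (hx : 0 < x) (hy : y < 0) (M : ℕ) {ε : ℝ} (hε : 0 < ε) :
    ∃ k ≥ M, ∃ k' ≥ M, |(k : ℝ) * x + (k' : ℝ) * y| ≤ ε := by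
  set r := x / (-y) with hr
  have hy' : 0 < -y := by linarith
  have hr0 : 0 < r := div_pos hx hy'
  obtain ⟨K, hK⟩ := exists_nat_ge (max ((M : ℝ) + 1) (((M : ℝ) + 1) / r))
  have hK1 : (M : ℝ) + 1 ≤ K := (le_max_left _ _).trans hK
  have hK2 : ((M : ℝ) + 1) / r ≤ K := (le_max_right _ _).trans hK
  rw [div_le_iff₀ hr0] at hK2
  obtain ⟨n, hn⟩ := exists_nat_ge (-y / ε)
  obtain ⟨j, k, hk0, -, hjk⟩ := Real.exists_int_int_abs_mul_sub_le ((K : ℝ) * r)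
    (Nat.succ_pos n)
  have hk1 : (1 : ℝ) ≤ k := by exact_mod_cast hk0
  have hn1 : (1 : ℝ) / (((n.succ : ℕ) : ℝ) + 1) ≤ ε / (-y) := by
    rw [div_le_div_iff₀ (by positivity) hy', one_mul]
    rw [div_le_iff₀ hε] at hn
    push_cast
    nlinarith
  have hn2 : (1 : ℝ) / (((n.succ : ℕ) : ℝ) + 1) ≤ 1 := by
    rw [div_le_one (by positivity)]
    have : (0 : ℝ) ≤ ((n.succ : ℕ) : ℝ) := Nat.cast_nonneg _
    linarith
  have hjk' := abs_le.mp (hjk.trans hn2)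
  have hM0 : (0 : ℝ) ≤ M := Nat.cast_nonneg _
  have hj : (M : ℝ) ≤ j := by
    have h1 : (K : ℝ) * r ≤ k * (K * r) := by
      have : 0 ≤ (K : ℝ) * r := by positivity
      nlinarith
    linarith [hjk'.2]
  have hj0 : 0 ≤ j := by
    have : (0 : ℝ) ≤ j := by linarith
    exact_mod_cast this
  obtain ⟨j', rfl⟩ := Int.eq_ofNat_of_zero_le hj0
  obtain ⟨k', rfl⟩ := Int.eq_ofNat_of_zero_le hk0.le
  have hk1' : (1 : ℝ) ≤ (k' : ℝ) := by exact_mod_cast hk1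
  refine ⟨k' * K, ?_, j', ?_, ?_⟩
  · have h1 : (M : ℝ) ≤ ((k' * K : ℕ) : ℝ) := by
      push_cast
      nlinarith
    exact_mod_cast h1
  · exact_mod_cast hj
  · have h1 : ((k' * K : ℕ) : ℝ) * x + (j' : ℝ) * y = (-y) * (k' * (K * r) - j') := by
      push_cast
      rw [hr]
      have : y ≠ 0 := by linarith
      field_simp
      ring
    rw [h1, abs_mul, abs_of_pos hy']
    have h2 : |(k' : ℝ) * (K * r) - j'| ≤ ε / (-y) := by
      refine le_trans ?_ hn1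
      exact_mod_cast hjk
    calc -y * |(k' : ℝ) * (K * r) - j'| ≤ -y * (ε / (-y)) := mul_le_mul_of_nonneg_left h2 hy'.le
      _ = ε := mul_div_cancel₀ ε hy'.ne'

variable {X : Type*} [MetricSpace X] {E : Type*} [NormedAddCommGroup E] [InnerProductSpace ℝ E]
  {G : Type*} [AddCommGroup G]

/-- the plane -/
noncomputable def psi (act : G → X ≃ₜ X) (e : X → E) (B : G → X → E →ₗ[ℝ] E) (a a' : G) (s₁ : ℝ)
    (z : ℝ → X) (Nn : ℝ → E) (t s : ℝ) : X :=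
  YY (act a).symm (act a') s₁ (B (-a)) e (z t) (Nn t) s

namespace PP

variable {act : G → X ≃ₜ X} {e : X → E} {T : X → Submodule ℝ E} {B : G → X → E →ₗ[ℝ] E}
  {S S' : HypSys X E} {a a' : G} {Fm Fp : X → Submodule ℝ E} {p : X} {N : ℕ} {τ : G →+ ℝ}
  {c : ℝ} {u n : E} {ε₀ C Λ εp Cp Λp : ℝ} {Nn : ℝ → E}

theorem psi_zero [CompactSpace X] 
    (Lp : LF (act a).symm (act a') e Fp (B (-a)) εp Cp Λp) {z : ℝ → X}
    (hN1 : ∀ t, Nn t ∈ Fp (z t)) (hN2 : ∀ t, Nn t ≠ 0) (t : ℝ) :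
    psi act e B a a' (sc εp Cp Λp) z Nn t 0 = z t := Lp.YY_zero (hN1 t) (hN2 t)

theorem psi_shift [CompactSpace X] [FiniteDimensional ℝ E]
    (P : PP act e T B S S' a a' Fm Fp p N τ c u n)
    (L : LF (act a) (act a').symm e Fm (B a) ε₀ C Λ)
    (Lp : LF (act a).symm (act a') e Fp (B (-a)) εp Cp Λp)
    (hN1 : ∀ t, Nn t ∈ Fp (zz act e B a a' (sc ε₀ C Λ) p u t)) (hN2 : ∀ t, Nn t ≠ 0)
    (hN3 : ∀ g t, B (N • g) (zz act e B a a' (sc ε₀ C Λ) p u t) (Nn t) = Nn (t + τ g))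
    (g : G) (t s : ℝ) :
    act (N • g) (psi act e B a a' (sc εp Cp Λp) (zz act e B a a' (sc ε₀ C Λ) p u) Nn t s) =
      psi act e B a a' (sc εp Cp Λp) (zz act e B a a' (sc ε₀ C Λ) p u) Nn (t + τ g) s := by
  obtain ⟨M, Q⟩ := P.fd.sa.eqv P.fd.pT P.fd.ip (c := (act a).symm) (c' := act a') (a := -a)
    (a' := a') (fun x => (P.fd.sa.neg a x).symm) (fun x => rfl) (fun x v _ => rfl)
    Lp.C_pos (N • g) (D := B (-a))
  unfold psi
  rw [← Lp.YY_map Q (hN1 t) (hN2 t), P.zz_shift L, hN3]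

/-- **The plane.** -/
theorem exPD [CompactSpace X] [FiniteDimensional ℝ E]
    (P : PP act e T B S S' a a' Fm Fp p N τ c u n)
    (L : LF (act a) (act a').symm e Fm (B a) ε₀ C Λ)
    (Lp : LF (act a).symm (act a') e Fp (B (-a)) εp Cp Λp) (hNc : Continuous Nn)
    (hN1 : ∀ t, Nn t ∈ Fp (zz act e B a a' (sc ε₀ C Λ) p u t)) (hN2 : ∀ t, Nn t ≠ 0)
    (hN3 : ∀ g t, B (N • g) (zz act e B a a' (sc ε₀ C Λ) p u t) (Nn t) = Nn (t + τ g)) :
    PD (act a) (act a')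
      (psi act e B a a' (sc εp Cp Λp) (zz act e B a a' (sc ε₀ C Λ) p u) Nn) N (τ a) := by
  have hzc := P.zz_cont L
  have hsh := P.psi_shift L Lp hN1 hN2 hN3
  have hz0 := psi_zero Lp hN1 hN2
  set z := zz act e B a a' (sc ε₀ C Λ) p u with hz
  set ψ := psi act e B a a' (sc εp Cp Λp) z Nn with hψ
  have hcont : Continuous fun q : ℝ × ℝ => ψ q.1 q.2 := by
    rw [continuous_iff_continuousAt]
    intro q
    exact Lp.YY_tendsto ((hzc.comp continuous_fst).tendsto q) ((hNc.comp continuous_fst).tendsto q)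
      (continuous_snd.tendsto q) (Eventually.of_forall fun q => hN1 q.1) (hN1 q.1) (hN2 q.1)
  have hbdN : ∀ R : ℝ, ∃ K : ℝ, 0 ≤ K ∧ ∀ t, |t| ≤ R → ‖Nn t‖ ≤ K := by
    intro R
    obtain ⟨K, hK⟩ := (isCompact_Icc (a := -R) (b := R)).exists_bound_of_continuousOn
      hNc.continuousOn
    refine ⟨max K 0, le_max_right _ _, fun t ht => (hK t ?_).trans (le_max_left _ _)⟩
    exact abs_le.mp ht
  have hloc : ∀ R : ℝ, ∀ δ > 0, ∃ n₀ : ℕ, ∀ m ≥ n₀, ∀ t s, |t| ≤ R → |s| ≤ R →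
      R2 (act a).symm (act a') δ ((act a).symm^[m] (z t)) ((act a).symm^[m] (ψ t s)) := by
    intro R δ hδ
    obtain ⟨K, hK0, hK⟩ := hbdN R
    obtain ⟨n₀, hn⟩ := Lp.loc_unif (R * K) hδ
    refine ⟨n₀, fun m hm t s ht hs => ?_⟩
    obtain ⟨h1, h2⟩ := Lp.YY_spec (z t) (hN1 t) (hN2 t) s
    refine hn m hm (z t) (Nn t) _ (hN1 t) (hN2 t) h1 ?_
    rw [show TT (⇑(act a).symm) (B (-a)) e (z t) (Nn t) (ψ t s) = s from h2]
    exact mul_le_mul hs (hK t ht) (norm_nonneg _) ((abs_nonneg t).trans ht)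
  refine {
    cont := hcont
    tau_pos := P.ta
    N_pos := P.hN
    shift := fun t s => by rw [← P.fd.sa.nsmul]; exact hsh a t s
    wall := ?_
    dense := ?_
    uwV := ?_
    uwH := ?_
    inj := fun t s s' h => Lp.YY_inj (hN1 t) (hN2 t) h
    chart := ?_ }
  · intro M ε hε
    obtain ⟨k, hk, k', hk', h⟩ := near_wall P.ta P.ta' M hε
    refine ⟨N * k, hk.trans (Nat.le_mul_of_pos_left k P.hN), N * k',
      hk'.trans (Nat.le_mul_of_pos_left k' P.hN), (k : ℝ) * τ a + (k' : ℝ) * τ a', h, ?_⟩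
    intro t s
    have h1 := hsh (k • a + k' • a') t s
    rw [map_add, map_nsmul, map_nsmul, nsmul_eq_mul, nsmul_eq_mul] at h1
    rw [← h1, smul_add, P.fd.sa.add, ← mul_smul, ← mul_smul, P.fd.sa.nsmul, P.fd.sa.nsmul]
  · intro t₀ ε hε
    obtain ⟨_, hg, ⟨g, rfl⟩⟩ := Metric.dense_iff.mp P.dense t₀ ε hε
    refine ⟨act (N • g), (act (N • g)).continuous, fun x => P.fd.sa.comm _ _ x, τ g, ?_,
      fun t s => hsh g t s⟩
    rw [mem_ball, Real.dist_eq] at hg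
    exact hg.le
  · intro R ε hε
    obtain ⟨n₀, hn⟩ := hloc R ε hε
    refine ⟨n₀, fun m hm t s ht hs => ?_⟩
    rw [hz0, dist_comm]
    exact (hn m hm t s ht hs).1 0
  · intro R ε hε
    obtain ⟨n₀, hn⟩ := P.zz_loc L R (half_pos hε)
    refine ⟨n₀, fun m hm t t' ht ht' => ?_⟩
    rw [hz0, hz0]
    have h1 := (hn m hm t ht).1 0
    have h2 := (hn m hm t' ht').1 0
    have h1' : dist ((act a)^[m] p) ((act a)^[m] (z t)) ≤ ε / 2 := h1
    have h2' : dist ((act a)^[m] p) ((act a)^[m] (z t')) ≤ ε / 2 := h2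
    have h3 := dist_triangle_left ((act a)^[m] (z t)) ((act a)^[m] (z t')) ((act a)^[m] p)
    linarith
  · intro R η hη
    by_contra hcon
    push Not at hcon
    have hseq : ∀ k : ℕ, 0 < εp / ((k : ℝ) + 1) := fun k => div_pos Lp.pos (by positivity)
    choose tk sk yk htk hsk h1 h2 h3 using fun k : ℕ => hcon _ (hseq k)
    obtain ⟨⟨t, s⟩, -, φ, hφ, hlim⟩ := ((isCompact_Icc (a := -R) (b := R)).prod
      (isCompact_Icc (a := -R) (b := R))).tendsto_subseq (x := fun k => (tk k, sk k))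
      (fun k => ⟨abs_le.mp (htk k), abs_le.mp (hsk k)⟩)
    have hlt : Tendsto (fun k => tk (φ k)) atTop (𝓝 t) := (continuous_fst.tendsto _).comp hlim
    have hls : Tendsto (fun k => sk (φ k)) atTop (𝓝 s) := (continuous_snd.tendsto _).comp hlim
    have hε : Tendsto (fun k : ℕ => εp / (((φ k : ℕ) : ℝ) + 1)) atTop (𝓝 0) := by
      have h4 : Tendsto (fun k : ℕ => εp / ((k : ℝ) + 1)) atTop (𝓝 0) :=
        tendsto_const_nhds.div_atTop (tendsto_natCast_atTop_atTop.atTop_add tendsto_const_nhds)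
      exact h4.comp hφ.tendsto_atTop
    have hψl : Tendsto (fun k => ψ (tk (φ k)) (sk (φ k))) atTop (𝓝 (ψ t s)) :=
      (hcont.tendsto (t, s)).comp hlim
    have hyl : Tendsto (fun k => yk (φ k)) atTop (𝓝 (ψ t s)) := by
      refine hψl.congr_dist ?_
      exact squeeze_zero (fun _ => dist_nonneg) (fun k => (h1 (φ k)) 0) hε
    obtain ⟨n₀, hn⟩ := hloc R (sc εp Cp Λp / 2) (half_pos Lp.sc_pos)
    have hR2 : ∀ k, R2 (act a).symm (act a') (εp / (((φ k : ℕ) : ℝ) + 1))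
        (ψ (tk (φ k)) (sk (φ k))) (yk (φ k)) := fun k => ⟨h1 (φ k), h2 (φ k)⟩
    have hle : ∀ k : ℕ, εp / (((φ k : ℕ) : ℝ) + 1) ≤ εp := fun k =>
      div_le_self Lp.pos.le (by
        have : (0 : ℝ) ≤ ((φ k : ℕ) : ℝ) := Nat.cast_nonneg _
        linarith)
    have hev : ∀ᶠ k in atTop, R2 (act a).symm (act a') (sc εp Cp Λp)
        ((act a).symm^[n₀] (z (tk (φ k)))) ((act a).symm^[n₀] (yk (φ k))) := by
      filter_upwards [(tendsto_order.mp hε).2 _ (half_pos Lp.sc_pos)] with k hk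
      have h4 := hn n₀ le_rfl _ _ (htk (φ k)) (hsk (φ k))
      have h5 := Lp.jt _ _ ((hR2 k).mono (hle k)) n₀ 0
      have h6 : (1 / 2 : ℝ) ^ (n₀ + 0) * dist (ψ (tk (φ k)) (sk (φ k))) (yk (φ k)) ≤
          sc εp Cp Λp / 2 := by
        have h7 : dist (ψ (tk (φ k)) (sk (φ k))) (yk (φ k)) ≤ εp / (((φ k : ℕ) : ℝ) + 1) :=
          (h1 (φ k)) 0
        have h8 := half_pow_le (n₀ + 0)
        have h9 : 0 ≤ dist (ψ (tk (φ k)) (sk (φ k))) (yk (φ k)) := dist_nonneg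
        nlinarith
      have h10 := (h4.trans (h5.mono h6)).mono (le_of_eq (add_halves _))
      exact h10
    have hzl : Tendsto (fun k => z (tk (φ k))) atTop (𝓝 (z t)) := (hzc.tendsto t).comp hlt
    have hNl : Tendsto (fun k => Nn (tk (φ k))) atTop (𝓝 (Nn t)) := (hNc.tendsto t).comp hlt
    have hNF : ∀ᶠ k in atTop, Nn (tk (φ k)) ∈ Fp (z (tk (φ k))) :=
      Eventually.of_forall fun k => hN1 _
    have hcit := (act a).symm.continuous.iterate n₀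
    have hT := Lp.TT_tendsto ((hcit.tendsto (z t)).comp hzl) ((hcit.tendsto (ψ t s)).comp hyl)
      (Lp.vec_tendsto hzl hNl hNF (hN1 t) n₀) (hNF.mono fun k hk => Lp.vec_mem n₀ _ hk)
      (Lp.vec_mem n₀ _ (hN1 t)) (Lp.vec_ne n₀ _ (hN1 t) (hN2 t)) hev
    obtain ⟨h4, h5⟩ := Lp.YY_spec (z t) (hN1 t) (hN2 t) s
    have h5' : TT (⇑(act a).symm) (B (-a)) e (z t) (Nn t) (ψ t s) = s := h5
    have h4' : LW (act a).symm (act a') (sc εp Cp Λp) (z t) (ψ t s) := h4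
    rw [Lp.TT_shift h4' (hN1 t) (hN2 t) n₀, h5'] at hT
    have hT2 : Tendsto (fun k => TT (act a).symm (B (-a)) e (z (tk (φ k))) (Nn (tk (φ k)))
        (yk (φ k))) atTop (𝓝 s) := by
      refine hT.congr' ?_
      filter_upwards [hev] with k hk
      exact Lp.TT_shift ⟨n₀, hk⟩ (hN1 _) (hN2 _) n₀
    have hd := hT2.sub hls
    rw [sub_self] at hd
    have hd' := (tendsto_order.mp hd.abs).2 η (by rwa [abs_zero])
    obtain ⟨k, hk1, hk2⟩ := (hd'.and hev).exists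
    refine h3 (φ k) _ hk1.le ?_
    exact (Lp.YY_eq (hN1 _) (hN2 _) ⟨n₀, hk2⟩ rfl).symm

end PP

end Pool.Agent.Y330.F
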