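import Pool.Agent.Y330.F.D4

set_option autoImplicit false
set_option linter.unusedSectionVars false

open Filter Topology Set Metric
open scoped InnerProductSpace

namespace Pool.Agent.Y330.F

open Pool.Agent.H789R2.AN Pool.Agent.Y330.G Pool.Agent.H721R2

open LF (sc)

variable {X : Type*} [MetricSpace X] {E : Type*} [NormedAddCommGroup E] [InnerProductSpace ℝ E]
  {G : Type*} [AddCommGroup G]

/-- Invariance under a dense group of translations. -/
theorem indep {act : G → X ≃ₜ X} {N : ℕ} {τ : G →+ ℝ} (hd : Dense (range τ)) {ζ : ℝ → X}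
    (hζ : Continuous ζ) (hs : ∀ g t, act (N • g) (ζ t) = ζ (t + τ g)) {K : Set X}
    (hK : IsClosed K) (hKi : ∀ g x, act g x ∈ K ↔ x ∈ K) {t : ℝ} (ht : ζ t ∈ K) (t' : ℝ) :
    ζ t' ∈ K := by
  have h1 : Dense (range fun g => t + τ g) := by
    have h2 := (Homeomorph.addLeft t).surjective.denseRange.dense_image
      (Homeomorph.addLeft t).continuous hd
    rw [← range_comp] at h2
    exact h2
  have h2 : IsClosed (ζ ⁻¹' K) := hK.preimage hζ
  have h3 : (range fun g => t + τ g) ⊆ ζ ⁻¹' K := by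
    rintro _ ⟨g, rfl⟩
    show ζ (t + τ g) ∈ K
    rw [← hs, hKi]
    exact ht
  have h4 := h2.closure_subset_iff.mpr h3
  rw [h1.closure_eq] at h4
  exact h4 (mem_univ t')

namespace PP

variable {act : G → X ≃ₜ X} {e : X → E} {T : X → Submodule ℝ E} {B : G → X → E →ₗ[ℝ] E}
  {S S' : HypSys X E} {a a' : G} {Fm Fp : X → Submodule ℝ E} {p : X} {N : ℕ} {τ : G →+ ℝ}
  {c : ℝ} {u n : E} {ε₀ C Λ εp Cp Λp : ℝ} {Nn : ℝ → E}

/-- A point of the repeller on the plane. -/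
theorem exists_on_plane [CompactSpace X] [FiniteDimensional ℝ E]
    (P : PP act e T B S S' a a' Fm Fp p N τ c u n)
    (L : LF (act a) (act a').symm e Fm (B a) ε₀ C Λ)
    (Lp : LF (act a).symm (act a') e Fp (B (-a)) εp Cp Λp) (hNc : Continuous Nn)
    (hN1 : ∀ t, Nn t ∈ Fp (zz act e B a a' (sc ε₀ C Λ) p u t)) (hN2 : ∀ t, Nn t ≠ 0)
    (hN3 : ∀ g t, B (N • g) (zz act e B a a' (sc ε₀ C Λ) p u t) (Nn t) = Nn (t + τ g))
    {K : Set X} (hK : IsClosed K) (hKi : ∀ g x, act g x ∈ K ↔ x ∈ K) {w : X} (hw : w ∈ K)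
    (hws : WS (act a).symm (zz act e B a a' (sc ε₀ C Λ) p u 0) w) :
    ∃ s, psi act e B a a' (sc εp Cp Λp) (zz act e B a a' (sc ε₀ C Λ) p u) Nn 0 s ∈ K := by
  have hPD := P.exPD L Lp hNc hN1 hN2 hN3
  have hsh := P.psi_shift L Lp hN1 hN2 hN3
  have hzs := P.zz_shift L
  set z := zz act e B a a' (sc ε₀ C Λ) p u with hz
  set ψ := psi act e B a a' (sc εp Cp Λp) z Nn with hψ
  obtain ⟨εc, hεc, c1, c2, c3, c4⟩ := P.fd.ctr4
  have A := P.fd.sa
  have hcc : ∀ x, (act a').symm ((act a).symm x) = (act a).symm ((act a').symm x) := fun x => by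
    simp only [← A.neg]
    exact A.comm _ _ x
  obtain ⟨ε₁, hε₁, hε₁c, hjt⟩ := joint hεc hcc c2 c4
  set ε := min εp (ε₁ / 2) with hε
  have hε0 : 0 < ε := lt_min Lp.pos (half_pos hε₁)
  obtain ⟨δ, hδ, hbrk⟩ := brk (g := act a') (h := (act a).symm) hεc (fun x => by
    simp only [← A.neg]
    exact A.comm _ _ x) c3 P.fd.symm.lprS hε0
  set δ' := min δ (ε₁ / 2) with hδ'
  have hδ'0 : 0 < δ' := lt_min hδ (half_pos hε₁)
  obtain ⟨m, hm⟩ := hws.eventually_lt hδ'0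
  have hact : ∀ x, (act a).symm^[N * m] x = act (N • (-(m • a))) x := by
    intro x
    rw [← A.negH a, ← A.nsmul, mul_smul, smul_neg]
  have hx : (act a).symm^[N * m] (z 0) = z (τ (-(m • a))) := by
    rw [hact, hzs, zero_add]
  set t₁ := τ (-(m • a)) with ht₁
  set y := (act a).symm^[N * m] w with hy
  have hyK : y ∈ K := by rw [hy, hact, hKi]; exact hw
  have hSR : SR (act a).symm δ' (z t₁) y := by
    intro k
    rw [← hx, hy, ← Function.iterate_add_apply, ← Function.iterate_add_apply]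
    apply (hm _ _).le
    have := Nat.le_mul_of_pos_left m P.hN
    omega
  obtain ⟨y₁, b1, b2, b3⟩ := hbrk (z t₁) y (hSR.mono (min_le_left _ _))
  have hLW : LW (act a).symm (act a') (sc εp Cp Λp) (z t₁) y₁ :=
    Lp.W_of ⟨b3.mono (min_le_left _ _), b1.mono (min_le_left _ _)⟩
  set s₁ := TT (act a).symm (B (-a)) e (z t₁) (Nn t₁) y₁ with hs₁
  have hy₁ : ψ t₁ s₁ = y₁ := Lp.YY_eq (hN1 t₁) (hN2 t₁) hLW rfl
  have hR2 : R2 (act a).symm (act a').symm ε₁ y y₁ := by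
    refine ⟨?_, b2.mono ((min_le_right _ _).trans (by linarith))⟩
    have h1 := sr_tr hSR.symm' b3
    refine h1.mono ?_
    have h2 : δ' ≤ ε₁ / 2 := min_le_right _ _
    have h3 : ε ≤ ε₁ / 2 := min_le_right _ _
    linarith
  have hy₁K : y₁ ∈ K := by
    rw [← hK.closure_eq, Metric.mem_closure_iff]
    intro η hη
    have hcon : Continuous fun t => ψ t s₁ := hPD.cont.comp (continuous_id.prodMk continuous_const)
    obtain ⟨δ₂, hδ₂, h2⟩ := Metric.continuous_iff.mp hcon t₁ (η / 2) (half_pos hη)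
    have ht : Tendsto (fun k : ℕ => (1 / 2 : ℝ) ^ k * dist y y₁) atTop (𝓝 0) := by
      have := (tendsto_pow_atTop_nhds_zero_of_lt_one (by norm_num : (0:ℝ) ≤ 1 / 2)
        (by norm_num)).mul_const (dist y y₁)
      simpa using this
    obtain ⟨M, hM⟩ := eventually_atTop.mp ((tendsto_order.mp ht).2 _ (half_pos hη))
    obtain ⟨m₁, hm₁, m₂, hm₂, τ', hτ', hwall⟩ := hPD.wall M (δ₂ / 2) (half_pos hδ₂)
    have h3 : (act a).symm^[m₁] ((act a').symm^[m₂] y₁) = ψ (t₁ - τ') s₁ := by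
      have h4 := hwall (t₁ - τ') s₁
      rw [sub_add_cancel, hy₁] at h4
      rw [← h4]
      have h5 : ∀ x, (act a').symm^[m₂] ((act a)^[m₁] x) = (act a)^[m₁] ((act a').symm^[m₂] x) :=
        fun x => by
          rw [← A.negH, ← A.nsmul, ← A.nsmul, ← A.nsmul, ← A.nsmul, A.comm]
      rw [h5, iterL, iterL]
    refine ⟨(act a).symm^[m₁] ((act a').symm^[m₂] y), ?_, ?_⟩
    · rw [← A.negH, ← A.negH, ← A.nsmul, ← A.nsmul, hKi, hKi]
      exact hyK
    · have h6 := (hjt y y₁ hR2 m₁ m₂).1 0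
      have h6' : dist ((act a).symm^[m₁] ((act a').symm^[m₂] y))
        ((act a).symm^[m₁] ((act a').symm^[m₂] y₁)) ≤ (1 / 2) ^ (m₁ + m₂) * dist y y₁ := h6
      have h7 := hM (m₁ + m₂) (by omega)
      rw [h3] at h6'
      have h8 := h2 (t₁ - τ') (by
        rw [Real.dist_eq, sub_sub_cancel_left, abs_neg]
        linarith)
      have h9 : dist (ψ (t₁ - τ') s₁) y₁ < η / 2 := by rw [← hy₁]; exact h8
      have h10 := dist_triangle_left y₁ ((act a).symm^[m₁] ((act a').symm^[m₂] y))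
        (ψ (t₁ - τ') s₁)
      rw [dist_comm (ψ (t₁ - τ') s₁) ((act a).symm^[m₁] ((act a').symm^[m₂] y))] at h10
      linarith
  refine ⟨s₁, ?_⟩
  exact indep (ζ := fun t => ψ t s₁) P.dense
    (hPD.cont.comp (continuous_id.prodMk continuous_const)) (fun g t => hsh g t s₁) hK hKi
    (t := t₁) (by show ψ t₁ s₁ ∈ K; rw [hy₁]; exact hy₁K) 0

/-- **Saturation along the line field at points of finite orbit.** -/
theorem sat [CompactSpace X] [FiniteDimensional ℝ E]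
    (P : PP act e T B S S' a a' Fm Fp p N τ c u n)
    (L : LF (act a) (act a').symm e Fm (B a) ε₀ C Λ) {A : Set X} (hA : IsAtt (act a) A)
    (hAi : ∀ g x, act g x ∈ A ↔ x ∈ A) (hp : p ∈ A) :
    zz act e B a a' (sc ε₀ C Λ) p u 0 ∈ A := by
  by_contra hz0
  obtain ⟨cc, hLP⟩ := P.fd.exLP
  obtain ⟨εp, Cp, Λp, Lp⟩ := P.fd.lfp
  obtain ⟨Nn, hNc, hN1, hN2, hN3⟩ := P.exists_Nn L
  set K := (Bas (act a) A)ᶜ with hKdef
  have hK : IsClosed K := (isOpen_bas hLP hA).isClosed_compl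
  have hKi : ∀ g x, act g x ∈ K ↔ x ∈ K := by
    intro g x
    rw [hKdef, mem_compl_iff, mem_compl_iff, bas_map (fun x => P.fd.sa.comm g a x) (hAi g)]
  have hKs : ∀ x ∈ K, ∀ y, WS (act a) x y → y ∈ K := by
    rintro x hx y hxy ⟨v, hv, hyv⟩
    exact hx ⟨v, hv, hxy.trans hyv⟩
  have hzB : ∀ t, zz act e B a a' (sc ε₀ C Λ) p u t ∉ K := by
    intro t h
    apply h
    obtain ⟨k, hk⟩ := P.zz_leaf L t
    exact ⟨p, hp, ((WS.iter k).mp (L.ctr.ws (hk.1.mono L.sc_le))).symm'⟩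
  obtain ⟨w, hw, hws⟩ := exists_repeller hLP hA hz0
  obtain ⟨s₁, hs₁⟩ := P.exists_on_plane L Lp hNc hN1 hN2 hN3 hK hKi hw hws
  have hPD := P.exPD L Lp hNc hN1 hN2 hN3
  have hsh := P.psi_shift L Lp hN1 hN2 hN3
  have hψ0 := psi_zero Lp hN1 hN2
  have hsm : ∀ k : ℝ, k ≠ 0 → ∀ t s,
      psi act e B a a' (sc εp Cp Λp) (zz act e B a a' (sc ε₀ C Λ) p u) (fun t => k • Nn t) t s =
      psi act e B a a' (sc εp Cp Λp) (zz act e B a a' (sc ε₀ C Λ) p u) Nn t (k * s) :=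
    fun k hk t s => Lp.YY_smul (hN1 t) (hN2 t) hk s
  set z := zz act e B a a' (sc ε₀ C Λ) p u with hz
  set ψ := psi act e B a a' (sc εp Cp Λp) z Nn with hψ
  have hind : ∀ s t t', ψ t s ∈ K → ψ t' s ∈ K := fun s t t' h =>
    indep (ζ := fun t => ψ t s) P.dense
      (hPD.cont.comp (continuous_id.prodMk continuous_const)) (fun g t => hsh g t s) hK hKi
      (t := t) h t'
  have hcl : IsClosed {s | ψ 0 s ∈ K} :=
    hK.preimage (hPD.cont.comp (continuous_const.prodMk continuous_id))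
  have hcomp : IsCompact ({s | ψ 0 s ∈ K} ∩ closedBall 0 |s₁|) :=
    (isCompact_closedBall (0 : ℝ) |s₁|).inter_left hcl
  obtain ⟨k₀, ⟨hk₀, -⟩, hmin⟩ := hcomp.exists_isMinOn ⟨s₁, hs₁, by
    rw [mem_closedBall_zero_iff, Real.norm_eq_abs]⟩ (f := fun s : ℝ => |s|)
    continuous_abs.continuousOn
  have hmin' : ∀ s, ψ 0 s ∈ K → |k₀| ≤ |s| := by
    intro s hs
    rcases le_total |s| |s₁| with h | h
    · exact hmin ⟨hs, by rwa [mem_closedBall_zero_iff, Real.norm_eq_abs]⟩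
    · have h1 : |k₀| ≤ |s₁| := hmin ⟨hs₁, by rw [mem_closedBall_zero_iff, Real.norm_eq_abs]⟩
      exact h1.trans h
  have hk0 : k₀ ≠ 0 := by
    rintro rfl
    have h1 : ψ 0 0 ∈ K := hk₀
    rw [hψ0] at h1
    exact hzB 0 h1
  have hN1' : ∀ t, k₀ • Nn t ∈ Fp (z t) := fun t => (Fp _).smul_mem _ (hN1 t)
  have hN2' : ∀ t, k₀ • Nn t ≠ 0 := fun t => smul_ne_zero hk0 (hN2 t)
  have hN3' : ∀ g t, B (N • g) (z t) (k₀ • Nn t) = k₀ • Nn (t + τ g) := fun g t => by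
    rw [map_smul, hN3]
  have hPD' := P.exPD (Nn := fun t => k₀ • Nn t) L Lp (hNc.const_smul k₀) hN1' hN2' hN3'
  obtain ⟨εc, hεc, c1, c2, c3, c4⟩ := P.fd.ctr4
  refine no_region hPD' (K := K) ⟨hKs, ?_, ?_⟩ hεc (fun x => P.fd.sa.comm a' a x) c1 c2 c3 c4
    P.fd.lprS P.fd.symm.lprS
  · intro t
    rw [hsm k₀ hk0, mul_one]
    exact hind k₀ 0 t hk₀
  · intro t s hs0 hs1 h
    rw [hsm k₀ hk0] at h
    have h1 := hmin' _ (hind _ t 0 h)
    rw [abs_mul, abs_of_nonneg hs0] at h1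
    have h2 : 0 < |k₀| := abs_pos.mpr hk0
    nlinarith

end PP

end Pool.Agent.Y330.F
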